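import Mathlib
import Pool.Agent.Y733.LS.Loc2

/-!
# The places where the curve has no split multiplicative reduction and the pole of `j` has odd order:
after one duplication no point reduces to the node
-/

set_option autoImplicit false

namespace Pool.Agent.D0H55.ON

open Pool.Agent.Y733.LS

variable {K : Type} [Field K] {w : AbsoluteValue K ℝ}

/-- the factorization near the node -/
theorem eG (t X : K) : pG t t X = (2 * X + 3) ^ 2 * (X - 3) + (4 * t + 27) * (X + 1) := by
  unfold pG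
  ring

/-- **a point which reduces to the node is nearly singular**, if the form is anisotropic -/
theorem near [CharZero K] (h : Na w) (h2 : w 2 = 1) (h3 : w 3 = 1) {t X κ s : K}
    (hpar : ∀ z : K, w z ^ 2 ≠ w (4 * t + 27))
    (hns : ∀ z : K, w (2 * κ) ≤ w (z ^ 2 + 2 * κ)) (hcurve : pG t t X = 4 * (κ * s ^ 2))
    (hX : w (2 * X + 3) < 1) : w (2 * X + 3) ^ 2 < w (4 * t + 27) := by
  by_contra hcon
  push Not at hcon
  have hlt : w (4 * t + 27) < w (2 * X + 3) ^ 2 := lt_of_le_of_ne hcon fun e => hpar _ e.symm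
  set Z := 2 * X + 3 with hZ
  set r := 4 * t + 27 with hr'
  have h9 : w (9 : K) = 1 := by
    have : (9 : K) = 3 ^ 2 := by norm_num
    rw [this, map_pow, h3, one_pow]
  have hZ0 : Z ≠ 0 := by
    intro e
    rw [e, map_zero] at hlt
    have := w.nonneg r
    nlinarith
  -- the equation
  have e1 : 8 * (κ * s ^ 2) = Z ^ 2 * (Z - 9) + r * (Z - 1) := by
    have h4 : pG t t X = Z ^ 2 * (X - 3) + r * (X + 1) := eG t X
    rw [hcurve] at h4
    have hXZ : 2 * X = Z - 3 := by rw [hZ]; ring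
    linear_combination 2 * h4 + (Z ^ 2 + r) * hXZ
  have e2 : 8 * (κ * s ^ 2) + 9 * Z ^ 2 = Z ^ 2 * Z + r * (Z - 1) := by
    rw [e1]; ring
  have hZpos : 0 < w Z := w.pos hZ0
  have hZ2 : w (Z ^ 2) = w Z ^ 2 := map_pow _ _ _
  have hb : w (Z ^ 2 * Z + r * (Z - 1)) < w Z ^ 2 := by
    apply h.lt_add
    · rw [map_mul, hZ2]
      have : 0 < w Z ^ 2 := by positivity
      nlinarith
    · rw [map_mul]
      have h5 : w (Z - 1) ≤ 1 := h.le_sub hX.le (by rw [map_one])
      have h6 := w.nonneg r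
      nlinarith
  have hs0 : s ≠ 0 := by
    rintro rfl
    rw [← e2] at hb
    have : w (8 * (κ * 0 ^ 2) + 9 * Z ^ 2) = w Z ^ 2 := by
      have e3 : 8 * (κ * 0 ^ 2) + 9 * Z ^ 2 = 9 * Z ^ 2 := by ring
      rw [e3, map_mul, h9, one_mul, hZ2]
    rw [this] at hb
    exact lt_irrefl _ hb
  rw [← e2] at hb
  have h8 : w (8 * (κ * s ^ 2)) = w Z ^ 2 := by
    have e3 : 8 * (κ * s ^ 2) = -(9 * Z ^ 2) + (8 * (κ * s ^ 2) + 9 * Z ^ 2) := by ring
    have e4 : w (-(9 * Z ^ 2)) = w Z ^ 2 := by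
      rw [map_neg_eq_map, map_mul, h9, one_mul, hZ2]
    rw [e3, h.eq, e4]
    rw [e4]
    exact hb
  have w2n : ∀ n : ℕ, w ((2 : K) ^ n) = 1 := fun n => by rw [map_pow, h2, one_pow]
  have h8' : w (2 * κ) * w s ^ 2 = w Z ^ 2 := by
    rw [← h8]
    have e3 : 8 * (κ * s ^ 2) = 2 ^ 2 * (2 * κ) * s ^ 2 := by ring
    rw [e3, map_mul w (2 ^ 2 * (2 * κ)) (s ^ 2), map_mul w (2 ^ 2) (2 * κ), w2n, one_mul, map_pow]
  have hs : 0 < w s := w.pos hs0
  have h9' := hns (3 * Z / (2 * s))
  have e5 : (3 * Z / (2 * s)) ^ 2 + 2 * κ = (8 * (κ * s ^ 2) + 9 * Z ^ 2) / (2 ^ 2 * s ^ 2) := by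
    field_simp
    ring
  have e6 : w (2 ^ 2 * s ^ 2) = w s ^ 2 := by
    rw [map_mul w (2 ^ 2) (s ^ 2), w2n, one_mul, map_pow]
  rw [e5, map_div₀, e6, le_div_iff₀ (by positivity), h8'] at h9'
  exact absurd hb (not_lt.2 h9')

/-- **one duplication leads away from the node** -/
theorem odd_start [CharZero K] (h : Na w) (h2 : w 2 = 1) (h3 : w 3 = 1) {t X κ s : K}
    (ht : w t = 1) (hr : w (4 * t + 27) < 1) (hr0 : 4 * t + 27 ≠ 0)
    (hpar : ∀ z : K, w z ^ 2 ≠ w (4 * t + 27))
    (hns : ∀ z : K, w (2 * κ) ≤ w (z ^ 2 + 2 * κ)) (hcurve : pG t t X = 4 * (κ * s ^ 2))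
    (hG : pG t t X ≠ 0) : 1 ≤ w (2 * (pF t t X / pG t t X) + 3) := by
  rcases le_or_gt 1 (w (2 * X + 3)) with hX | hX
  · exact (good1 h h2 ht hr hX).2 hG
  · have hlt := near h h2 h3 hpar hns hcurve hX
    set Z := 2 * X + 3 with hZ
    set r := 4 * t + 27 with hr'
    have hrpos : 0 < w r := w.pos hr0
    have h8 : w (8 : K) = 1 := by
      have : (8 : K) = 2 ^ 3 := by norm_num
      rw [this, map_pow, h2, one_pow]
    have h36 : w (36 : K) = 1 := by
      have : (36 : K) = 2 ^ 2 * 3 ^ 2 := by norm_num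
      rw [this, map_mul, map_pow, map_pow, h2, h3]
      norm_num
    have hX1 : w X ≤ 1 := by
      by_contra hcon
      push Not at hcon
      rw [hZ, lin_big h h2 hcon] at hX
      linarith
    have hX3 : w (X - 3) ≤ 1 := h.le_sub hX1 (h.ofNat 3)
    have hXp : w (X + 1) ≤ 1 := h.le_add hX1 (by rw [map_one])
    have hGr : w (pG t t X) ≤ w r := by
      have e : pG t t X = Z ^ 2 * (X - 3) + r * (X + 1) := eG t X
      rw [e]
      apply h.le_add
      · have hz2 : w (Z ^ 2) ≤ w r := by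
          rw [map_pow]
          exact hlt.le
        exact (Na.le_mul_of hz2 hX3).trans (by rw [mul_one])
      · exact (Na.le_mul_of (le_refl (w r)) hXp).trans (by rw [mul_one])
    have hk : w (16 * pF t t X + 24 * pG t t X) = w r := by
      have e2 : 16 * pF t t X + 24 * pG t t X =
          -(36 * r) + (Z ^ 2 * Z ^ 2 - 2 * (r * Z ^ 2) + 8 * (r * Z) + r * r) := by
        rw [key1, hZ, hr']
        ring
      have e3 : w (-(36 * r)) = w r := by
        rw [map_neg_eq_map, map_mul, h36, one_mul]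
      rw [e2, h.eq, e3]
      rw [e3]
      have hZ1 : w Z ≤ 1 := hX.le
      have hrr : w r * w r < w r := by nlinarith
      have hZr : w Z * w r < w r := by nlinarith
      have g1 : w (Z ^ 2 * Z ^ 2) < w r := by
        rw [map_mul, map_pow]
        have := w.nonneg Z
        nlinarith [sq_nonneg (w Z)]
      have g2 : w (2 * (r * Z ^ 2)) < w r := by
        rw [map_mul, h2, one_mul, map_mul, map_pow]
        nlinarith
      have g3 : w (8 * (r * Z)) < w r := by
        rw [map_mul, h8, one_mul, map_mul]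
        nlinarith
      have g4 : w (r * r) < w r := by
        rw [map_mul]
        exact hrr
      exact h.lt_add (h.lt_add (h.lt_sub g1 g2) g3) g4
    have e5 : 2 * (pF t t X / pG t t X) + 3 =
        (16 * pF t t X + 24 * pG t t X) / (8 * pG t t X) := by
      field_simp
      ring
    rw [e5, map_div₀, hk, map_mul, h8, one_mul]
    have hpos : 0 < w (pG t t X) := w.pos hG
    rw [le_div_iff₀ hpos, one_mul]
    exact hGr

/-- the same in the coordinates of the curve -/
theorem odd_first [CharZero K] (h : Na w) (h2 : w 2 = 1) (h3 : w 3 = 1) {a b x y : K} (ha : a ≠ 0)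
    (hb : b ≠ 0) (hD : dl a b ≠ 0) (hab : w a ^ 3 = w b ^ 2) (hr : w (dl a b) < w b ^ 2)
    (hpar : ∀ z : K, w z ^ 2 ≠ w (dl a b))
    (hns : ∀ z : K, w (2 * (a * b)) ≤ w (z ^ 2 + 2 * (a * b)))
    (hy : y ≠ 0) (hxy : y ^ 2 = x ^ 3 + a * x + b) : Good w a b (pF a b x / pG a b x) := by
  have hG : pG a b x ≠ 0 := by
    unfold pG
    rw [← hxy]
    exact mul_ne_zero (by norm_num) (pow_ne_zero 2 hy)
  have hbp : 0 < w b := w.pos hb
  rw [good_iff hb, quot_scale ha hb]
  have hdl : w (4 * (a ^ 3 / b ^ 2) + 27) = w (dl a b) / w b ^ 2 := by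
    rw [dl_scale hb, map_div₀, map_pow]
  refine odd_start (κ := a / b) (s := y * a / b) h h2 h3 (t_unit hb hab) ?_ ?_
    ?_ ?_ ?_ (pG_ne ha hb hG)
  · rw [hdl, div_lt_one (by positivity)]
    exact hr
  · rw [dl_scale hb]
    exact div_ne_zero hD (pow_ne_zero 2 hb)
  · intro z hz
    rw [hdl, eq_div_iff (by positivity)] at hz
    apply hpar (z * b)
    rw [map_mul, mul_pow]
    exact hz
  · intro z
    have h5 := hns (z * b)
    have e1 : z ^ 2 + 2 * (a / b) = ((z * b) ^ 2 + 2 * (a * b)) / b ^ 2 := by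
      field_simp
    have e2 : 2 * (a / b) = (2 * (a * b)) / b ^ 2 := by
      field_simp
    rw [e1, e2, map_div₀, map_div₀]
    exact div_le_div_of_nonneg_right h5 (w.nonneg _)
  · have h4 := pG_scale ha hb x
    have hba : (b / a) ^ 3 ≠ 0 := pow_ne_zero 3 (div_ne_zero hb ha)
    have h6 : pG a b x = 4 * y ^ 2 := by
      unfold pG
      rw [hxy]
    rw [h6] at h4
    have h7 : pG (a ^ 3 / b ^ 2) (a ^ 3 / b ^ 2) (x * a / b) = 4 * y ^ 2 / (b / a) ^ 3 := by
      rw [eq_div_iff hba, mul_comm]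
      exact h4.symm
    rw [h7]
    field_simp

end Pool.Agent.D0H55.ON
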