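import Mathlib
import Pool.Agent.D0H55.ON.Loc
import Pool.Agent.Y733.LS.Fin

/-!
# The height of the multiples `2 ^ k P`, with the places of the new kind (adapted from `Y733/LS/Tele`)
-/

set_option autoImplicit false
set_option linter.unusedSectionVars false

namespace Pool.Agent.D0H55.ON

open NumberField IsDedekindDomain Finset Pool.Agent.H691R3 Pool.Agent.W223.AK
open Pool.Agent.Y733.LS

variable {K : Type} [Field K] [NumberField K]

/-- the place `v` does not divide `6`, `j` has a pole of odd order at `v`, and the curve has no split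
multiplicative reduction: `-2 a b` is not a square in the completion -/
def On (a b : K) (v : Pr K) : Prop :=
  fv v 2 = 1 ∧ fv v 3 = 1 ∧ fv v a ^ 3 = fv v b ^ 2 ∧ fv v (dl a b) < fv v b ^ 2 ∧
    (∀ z : K, fv v z ^ 2 ≠ fv v (dl a b)) ∧
    ∀ z : K, fv v (2 * (a * b)) ≤ fv v (z ^ 2 + 2 * (a * b))

theorem On.jj_eq {a b : K} (hD : dl a b ≠ 0) {v : Pr K} (h : On a b v) :
    fv v (jj a b) = fv v b ^ 2 / fv v (dl a b) ∧ 1 < fv v (jj a b) := by
  obtain ⟨h2, h3, h4, h5, -, -⟩ := h
  have h6912 : fv v (6912 : K) = 1 := by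
    have : (6912 : K) = 2 ^ 8 * 3 ^ 3 := by norm_num
    rw [this, map_mul, map_pow, map_pow, h2, h3]
    norm_num
  have hd : 0 < fv v (dl a b) := (fv v).pos hD
  have e : fv v (jj a b) = fv v b ^ 2 / fv v (dl a b) := by
    rw [w_jj, h6912, one_mul, h4]
  refine ⟨e, ?_⟩
  rw [e, lt_div_iff₀ hd, one_mul]
  exact h5

open Classical in
/-- the part of the height of `j` from these places -/
noncomputable def on (a b : K) : ℝ := ∑ᶠ v : Pr K, if On a b v then Real.log (fv v (jj a b)) else 0

theorem Fs_on {a b : K} (hD : dl a b ≠ 0) [∀ v, Decidable (On a b v)] :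
    (Function.support fun v : Pr K =>
    if On a b v then Real.log (fv v (jj a b)) else 0).Finite := by
  refine (ne_sets (one_ne_zero) (one_ne_zero) (jj a b)).subset ?_
  intro v hv
  rw [Function.mem_support] at hv
  right
  right
  by_contra hcon
  apply hv
  rw [if_neg]
  intro h
  exact hcon (h.jj_eq hD).2

open Classical in
/-- the loss at the finite places -/
noncomputable def lossf (a b : K) (v : Pr K) : ℝ :=
  if On a b v then 0 else Real.log (sz (fv v) a b ^ 6 / fv v (4 * dl a b))

theorem Fs_loss {a b : K} (ha : a ≠ 0) (hb : b ≠ 0) (hD : dl a b ≠ 0) :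
    (Function.support (lossf a b)).Finite := by
  have h4 : (4 : K) * dl a b ≠ 0 := mul_ne_zero (by norm_num) hD
  refine ((ne_sets ha hb 0).union (fv_support_finite h4)).subset ?_
  intro v hv
  rw [Function.mem_support] at hv
  by_contra hcon
  simp only [Set.mem_union, Set.mem_ofPred_eq, not_or, not_not, not_lt] at hcon
  obtain ⟨⟨h1, h2, _⟩, h3⟩ := hcon
  apply hv
  unfold lossf
  split_ifs
  · rfl
  · rw [sz_one h1 h2, h3]
    norm_num

theorem dup_step {a b x : K} (ha : a ≠ 0) (hb : b ≠ 0) (hD : dl a b ≠ 0) (hG : pG a b x ≠ 0)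
    (hgood : ∀ v, On a b v → Good (fv v) a b x) :
    4 * Sa (Lam a b x) - Sm (lossi a b) (lossf a b) ≤ Sa (Lam a b (pF a b x / pG a b x)) := by
  have e1 : Sa (Lam a b (pF a b x / pG a b x)) =
      Sa (Lam a b (pF a b x / pG a b x)) + Sa (fun w => Real.log (w (pG a b x))) := by
    rw [Sa_log hG, add_zero]
  have hs1 : (Function.support fun v : Pr K => Lam a b (pF a b x / pG a b x) (fv v)).Finite :=
    Fs_Lam ha hb (pF a b x / pG a b x)
  have hs2 : (Function.support fun v : Pr K => Real.log (fv v (pG a b x))).Finite := Fs_log hG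
  have hs3 : (Function.support fun v : Pr K => Lam a b x (fv v)).Finite := Fs_Lam ha hb x
  have hs4 := Fs_loss ha hb hD
  have h4D : (4 : K) * dl a b ≠ 0 := mul_ne_zero (by norm_num) hD
  have e2 : Sa (Lam a b (pF a b x / pG a b x)) + Sa (fun w => Real.log (w (pG a b x))) =
      Sm (fun w => Lam a b (pF a b x / pG a b x) w.1 + Real.log (w.1 (pG a b x)))
        (fun v => Lam a b (pF a b x / pG a b x) (fv v) + Real.log (fv v (pG a b x))) := by
    rw [Sm_add hs1 hs2]
    rfl
  have e3 : 4 * Sa (Lam a b x) - Sm (lossi a b) (lossf a b) =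
      Sm (fun w => 4 * Lam a b x w.1 - lossi a b w)
        (fun v => 4 * Lam a b x (fv v) - lossf a b v) := by
    rw [Sm_sub (supp_mul 4 hs3) hs4, Sm_mul]
    rfl
  rw [e1, e2, e3]
  have hM : ∀ w : AbsoluteValue K ℝ, 0 < max (w x) (sz w a b) := fun w =>
    lt_max_of_lt_right (sz_pos ha)
  have hR : ∀ w : AbsoluteValue K ℝ, 0 < max (w (pF a b x)) (sz w a b * w (pG a b x)) := fun w =>
    lt_max_of_lt_right (mul_pos (sz_pos ha) (w.pos hG))
  apply Sm_mono (supp_sub (supp_mul 4 hs3) hs4) (supp_add hs1 hs2)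
  · intro w
    show 4 * Real.log (max (w.1 x) (sz w.1 a b)) - lossi a b w ≤
      Real.log (max (w.1 (pF a b x / pG a b x)) (sz w.1 a b)) + Real.log (w.1 (pG a b x))
    rw [ptw ha hG]
    have h1 := res_arch (w := w.1) (fun n => (inf_nat w n).le) (x := x) (sz_pos (b := b) ha)
      (le_sz_sq w.1 a b) (le_sz_cube w.1 a b)
    have h2 : 0 < w.1 (4 * dl a b) := w.1.pos h4D
    have h3 : 0 < sz w.1 a b := sz_pos ha
    have h4 := Real.log_le_log (by have := hM w.1; positivity) h1
    rw [Real.log_mul h2.ne' (pow_pos (hM w.1) 4).ne', Real.log_pow,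
      Real.log_mul (by positivity) (hR w.1).ne'] at h4
    unfold lossi
    rw [Real.log_div (by positivity) h2.ne']
    push_cast at h4
    linarith
  · intro v
    show 4 * Real.log (max (fv v x) (sz (fv v) a b)) - lossf a b v ≤
      Real.log (max (fv v (pF a b x / pG a b x)) (sz (fv v) a b)) + Real.log (fv v (pG a b x))
    rw [ptw ha hG]
    have h2 : 0 < fv v (4 * dl a b) := (fv v).pos h4D
    have h3 : 0 < sz (fv v) a b := sz_pos ha
    unfold lossf
    split_ifs with hsp
    · have f1 := hsp.2.2.1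
      have hlt := hsp.2.2.2.1
      have h1 := (good_step (fv_Na v) hsp.1 ha hb f1 hlt (hgood v hsp)).1
      have h4 := Real.log_le_log (by have := hM (fv v); positivity) h1
      rw [Real.log_pow] at h4
      push_cast at h4
      linarith
    · have h1 := res_na (w := fv v) (fv_Na v) (x := x) (sz_pos (b := b) ha)
        (le_sz_sq (fv v) a b) (le_sz_cube (fv v) a b)
      have h4 := Real.log_le_log (by have := hM (fv v); positivity) h1
      rw [Real.log_mul h2.ne' (pow_pos (hM (fv v)) 4).ne', Real.log_pow,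
        Real.log_mul (by positivity) (hR (fv v)).ne'] at h4
      rw [Real.log_div (by positivity) h2.ne']
      push_cast at h4
      linarith

/-- the heights of the multiples -/
theorem tele {a b : K} (ha : a ≠ 0) (hb : b ≠ 0) (hD : dl a b ≠ 0) {x y : ℕ → K}
    (hy : ∀ k, y k ≠ 0) (he : ∀ k, y k ^ 2 = x k ^ 3 + a * x k + b)
    (hG : ∀ k, pG a b (x k) ≠ 0) (hx : ∀ k, x (k + 1) = pF a b (x k) / pG a b (x k)) (k : ℕ) :
    (4 : ℝ) ^ k * (Sa (Lam a b (x 1)) - Sm (lossi a b) (lossf a b) / 3) ≤
      Sa (Lam a b (x (k + 1))) - Sm (lossi a b) (lossf a b) / 3 := by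
  induction k with
  | zero => simp
  | succ k ih =>
    have h1 := dup_step ha hb hD (hG (k + 1)) (fun v hv => by
      rw [hx k]
      exact odd_first (fv_Na v) hv.1 hv.2.1 ha hb hD hv.2.2.1 hv.2.2.2.1 hv.2.2.2.2.1
        hv.2.2.2.2.2 (hy k) (he k))
    rw [← hx (k + 1)] at h1
    rw [pow_succ]
    linarith

/-- the total loss -/
theorem loss_sum {a b : K} (ha : a ≠ 0) (hb : b ≠ 0) (hD : dl a b ≠ 0) :
    Sm (lossi a b) (lossf a b) ≤ ht (jj a b) - on a b +
      Module.finrank ℚ K * (Real.log 250 + Real.log ((4 * 6912 * 46656 : ℕ) : ℝ)) := by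
  classical
  have hs1 := Fs_loss ha hb hD
  have hs2 := Fs_ht (jj a b)
  have hs3 := Fs_on (a := a) (b := b) hD
  set N1 : ℕ := 4 * 6912 * 46656 with hN1
  have hN1' : N1 ≠ 0 := by norm_num [hN1]
  have hs4 : (Function.support fun v : Pr K => Real.log (fv v (N1 : K))).Finite :=
    Fs_log (K := K) (z := (N1 : K)) (Nat.cast_ne_zero.2 hN1')
  have e1 : ht (jj a b) - on a b +
      Module.finrank ℚ K * (Real.log 250 + Real.log (N1 : ℝ)) =
      Sm (fun w => (Real.log (max (w.1 (jj a b)) 1) - 0) + (Real.log 250 + 0))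
        (fun v => (Real.log (max (fv v (jj a b)) 1) -
          (if On a b v then Real.log (fv v (jj a b)) else 0)) + (0 + -1 * Real.log (fv v (N1 : K)))) := by
    rw [Sm_add (supp_sub hs2 hs3) (supp_add (by simp) (supp_mul (-1) hs4)), Sm_sub hs2 hs3,
      Sm_add (by simp) (supp_mul (-1) hs4)]
    have e2 : Sm (fun _ : InfinitePlace K => (0 : ℝ)) (fun v : Pr K =>
        if On a b v then Real.log (fv v (jj a b)) else 0) = on a b := by
      unfold Sm on
      simp
    have e3 : Sm (fun _ : InfinitePlace K => Real.log 250) (fun _ : Pr K => (0 : ℝ)) =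
        Module.finrank ℚ K * Real.log 250 := Sm_const _
    have e4 : Sm (fun _ : InfinitePlace K => (0 : ℝ)) (fun v : Pr K =>
        -1 * Real.log (fv v (N1 : K))) = Module.finrank ℚ K * Real.log (N1 : ℝ) := by
      unfold Sm
      simp only [mul_zero, Finset.sum_const_zero, zero_add]
      have h5 := fin_nat (K := K) hN1'
      have h6 : ∑ᶠ v : Pr K, -1 * Real.log (fv v (N1 : K)) =
          -1 * ∑ᶠ v : Pr K, Real.log (fv v (N1 : K)) := by
        rw [← smul_eq_mul, smul_finsum]
        rfl
      rw [h6, h5]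
      ring
    rw [e2, e3, e4, ht_eq_Sa]
    unfold Sa
    ring
  rw [e1]
  have hd : ∀ w : AbsoluteValue K ℝ, 0 < w (dl a b) := fun w => w.pos hD
  apply Sm_mono hs1 (supp_add (supp_sub hs2 hs3) (supp_add (by simp) (supp_mul (-1) hs4)))
  · intro w
    unfold lossi
    have h6912 : w.1 (6912 : K) = 6912 := by
      have := inf_nat w 6912
      exact_mod_cast this
    have h46656 : w.1 (46656 : K) = 46656 := by
      have := inf_nat w 46656
      exact_mod_cast this
    have h1728 : w.1 (1728 : K) = 1728 := by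
      have := inf_nat w 1728
      exact_mod_cast this
    have h4 : w.1 (4 : K) = 4 := by
      have := inf_nat w 4
      exact_mod_cast this
    have hmx : 0 < max (w.1 (jj a b)) 1 := lt_max_of_lt_right one_pos
    rw [sub_zero, add_zero, ← Real.log_mul hmx.ne' (by norm_num)]
    have hsz := sz_pos (w := w.1) (b := b) ha
    apply Real.log_le_log
    · have : 0 < w.1 (4 * dl a b) := w.1.pos (mul_ne_zero (by norm_num) hD)
      positivity
    · rw [map_mul, h4, div_le_iff₀ (by have := hd w.1; positivity), sz_six]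
      have i1 := w_jj w.1 a b
      have i2 := w_jj_sub w.1 a b hD
      rw [h6912] at i1
      rw [h46656] at i2
      have j1 : w.1 a ^ 3 = w.1 (jj a b) * w.1 (dl a b) / 6912 := by
        rw [i1]
        have := (hd w.1).ne'
        field_simp
      have j2 : w.1 b ^ 2 = w.1 (jj a b - 1728) * w.1 (dl a b) / 46656 := by
        rw [i2]
        have := (hd w.1).ne'
        field_simp
      have j3 : w.1 (jj a b - 1728) ≤ w.1 (jj a b) + 1728 := by
        have := w.1.sub_le (jj a b) 0 1728
        simp only [sub_zero, zero_sub, map_neg_eq_map] at this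
        linarith
      have j4 := le_max_left (w.1 (jj a b)) 1
      have j5 := le_max_right (w.1 (jj a b)) 1
      have j6 := hd w.1
      have k1 : w.1 a ^ 3 ≤ max (w.1 (jj a b)) 1 * w.1 (dl a b) := by
        rw [j1]
        have : w.1 (jj a b) * w.1 (dl a b) ≤ max (w.1 (jj a b)) 1 * w.1 (dl a b) := by gcongr
        have : 0 ≤ w.1 (jj a b) * w.1 (dl a b) := by positivity
        linarith
      have k2 : w.1 b ^ 2 ≤ max (w.1 (jj a b)) 1 * w.1 (dl a b) := by
        rw [j2]
        have k3 : w.1 (jj a b - 1728) ≤ 1729 * max (w.1 (jj a b)) 1 := by linarith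
        have k4 : w.1 (jj a b - 1728) * w.1 (dl a b) ≤
            1729 * max (w.1 (jj a b)) 1 * w.1 (dl a b) := by gcongr
        have : 0 ≤ max (w.1 (jj a b)) 1 * w.1 (dl a b) := by positivity
        linarith
      have k5 := max_le k1 k2
      linarith
  · intro v
    have hn := fv_Na v
    have hnat : fv v (N1 : K) ≤ 1 := hn.nat N1
    have hNpos : 0 < fv v (N1 : K) := (fv v).pos (Nat.cast_ne_zero.2 hN1')
    have hmx : 0 < max (fv v (jj a b)) 1 := lt_max_of_lt_right one_pos
    have hlogN : Real.log (fv v (N1 : K)) ≤ 0 := Real.log_nonpos hNpos.le hnat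
    unfold lossf
    split_ifs with hsp
    · have h1 : max (fv v (jj a b)) 1 = fv v (jj a b) := max_eq_left (hsp.jj_eq hD).2.le
      show 0 ≤ Real.log (max (fv v (jj a b)) 1) - Real.log (fv v (jj a b)) +
        (0 + -1 * Real.log (fv v (N1 : K)))
      rw [h1]
      linarith
    · have hsz := sz_pos (w := fv v) (b := b) ha
      have h4D : 0 < fv v (4 * dl a b) := (fv v).pos (mul_ne_zero (by norm_num) hD)
      have goal : Real.log (sz (fv v) a b ^ 6 / fv v (4 * dl a b)) ≤
          Real.log (max (fv v (jj a b)) 1 / fv v (N1 : K)) := by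
        apply Real.log_le_log (by positivity)
        have n4 : fv v (4 : K) ≤ 1 := hn.ofNat 4
        have n6912 : fv v (6912 : K) ≤ 1 := hn.ofNat 6912
        have n46656 : fv v (46656 : K) ≤ 1 := hn.ofNat 46656
        have p4 : 0 < fv v (4 : K) := (fv v).pos (by norm_num)
        have p6912 : 0 < fv v (6912 : K) := (fv v).pos (by norm_num)
        have p46656 : 0 < fv v (46656 : K) := (fv v).pos (by norm_num)
        have eN : fv v (N1 : K) = fv v 4 * fv v 6912 * fv v 46656 := by
          rw [← map_mul, ← map_mul]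
          congr 1
          norm_num [hN1]
        rw [map_mul, div_le_div_iff₀ (by have := hd (fv v); positivity) hNpos, eN, sz_six]
        have j6 := hd (fv v)
        have i1 := w_jj (fv v) a b
        have i2 := w_jj_sub (fv v) a b hD
        have j1 : fv v 6912 * fv v a ^ 3 = fv v (jj a b) * fv v (dl a b) := by
          rw [i1]
          have := j6.ne'
          field_simp
        have j2 : fv v 46656 * fv v b ^ 2 = fv v (jj a b - 1728) * fv v (dl a b) := by
          rw [i2]
          have := j6.ne'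
          field_simp
        have j3 : fv v (jj a b - 1728) ≤ max (fv v (jj a b)) 1 := by
          refine (hn.sub _ _).trans (max_le_max le_rfl ?_)
          exact hn.ofNat 1728
        have j4 := le_max_left (fv v (jj a b)) 1
        set m := max (fv v (jj a b)) 1 with hm
        have k1 : fv v a ^ 3 * (fv v 4 * fv v 6912 * fv v 46656) ≤
            m * (fv v 4 * fv v (dl a b)) := by
          calc fv v a ^ 3 * (fv v 4 * fv v 6912 * fv v 46656)
              = (fv v 6912 * fv v a ^ 3) * (fv v 4 * fv v 46656) := by ring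
            _ = fv v (jj a b) * fv v (dl a b) * (fv v 4 * fv v 46656) := by rw [j1]
            _ ≤ m * fv v (dl a b) * (fv v 4 * 1) := by gcongr
            _ = _ := by ring
        have k2 : fv v b ^ 2 * (fv v 4 * fv v 6912 * fv v 46656) ≤
            m * (fv v 4 * fv v (dl a b)) := by
          calc fv v b ^ 2 * (fv v 4 * fv v 6912 * fv v 46656)
              = (fv v 46656 * fv v b ^ 2) * (fv v 4 * fv v 6912) := by ring
            _ = fv v (jj a b - 1728) * fv v (dl a b) * (fv v 4 * fv v 6912) := by rw [j2]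
            _ ≤ m * fv v (dl a b) * (fv v 4 * 1) := by gcongr
            _ = _ := by ring
        rcases max_choice (fv v a ^ 3) (fv v b ^ 2) with h | h
        · rw [h]; exact k1
        · rw [h]; exact k2
      rw [Real.log_div hmx.ne' hNpos.ne'] at goal
      linarith

section Cht

open Pool.Agent.TH942 Pool.Agent.TH910.LS WeierstrassCurve Filter Topology

variable [DecidableEq K]

/-- **the lower bound for the canonical height** -/
theorem chat_ge {a b : K} (ha : a ≠ 0) (hb : b ≠ 0) (hD : dl a b ≠ 0) (P : SPt a b)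
    (hP : ∀ k : ℕ, (2 ^ k : ℕ) • P ≠ 0) (T : Finset (Pr K)) (hT : ∀ v ∈ T, GainAt a b v) :
    1 / 12 * on a b - 1 / 24 * ht (jj a b) + 1 / 4 * ∑ v ∈ T, Real.log (Nv v) -
      Module.finrank ℚ K * C3 ≤ chat P := by
  have hex : ∀ k : ℕ, ∃ (x y : K) (h : (sw a b).toAffine.Nonsingular x y),
      (2 ^ k : ℕ) • P = Affine.Point.some x y h := fun k => exists_coord _ (hP k)
  choose x y h hxy using hex
  have hy : ∀ k, y k ≠ 0 := by
    intro k h0
    apply hP (k + 1)
    rw [pow_succ, mul_comm, mul_smul, hxy k]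
    exact dup_zero (h k) h0
  have hG : ∀ k, pG a b (x k) ≠ 0 := fun k => (dup_some (h k) (hy k)).1
  have hx : ∀ k, x (k + 1) = pF a b (x k) / pG a b (x k) := by
    intro k
    obtain ⟨_, y', h', e⟩ := dup_some (h k) (hy k)
    have e1 : (2 ^ (k + 1) : ℕ) • P = Affine.Point.some _ y' h' := by
      rw [pow_succ, mul_comm, mul_smul, hxy k, e]
    rw [hxy (k + 1)] at e1
    injection e1
  set L := Sm (lossi a b) (lossf a b) with hL
  set D := Sa (fun w : AbsoluteValue K ℝ => Real.log (max (sz w a b) 1)) with hDD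
  set A := Sa (Lam a b (x 1)) - L / 3 with hA
  have hlow : ∀ k : ℕ, A / 4 + (L / 3 - D) / 4 ^ (k + 1) ≤
      sht ((2 ^ (k + 1) : ℕ) • P) / 4 ^ (k + 1) := by
    intro k
    have h1 := tele ha hb hD hy (fun k => sw_eqn.1 (h k).1) hG hx k
    have h2 := sht_ge ha hb (h (k + 1))
    rw [← hxy (k + 1), ← hDD] at h2
    rw [← hL, ← hA] at h1
    have h4 : (0 : ℝ) < 4 ^ (k + 1) := by positivity
    rw [← sub_nonneg]
    have e : sht ((2 ^ (k + 1) : ℕ) • P) / 4 ^ (k + 1) - (A / 4 + (L / 3 - D) / 4 ^ (k + 1)) =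
        (sht ((2 ^ (k + 1) : ℕ) • P) - 4 ^ k * A - L / 3 + D) / 4 ^ (k + 1) := by
      rw [pow_succ]
      field_simp
      ring
    rw [e]
    apply div_nonneg _ h4.le
    linarith
  have hlim := ((tendsto_add_atTop_iff_nat 1).2 ((chat_spec hD).1 P))
  have hlim2 : Tendsto (fun k : ℕ => A / 4 + (L / 3 - D) / 4 ^ (k + 1)) atTop (𝓝 (A / 4 + 0)) := by
    apply Tendsto.add tendsto_const_nhds
    have h5 : Tendsto (fun k : ℕ => (4 : ℝ) ^ (k + 1)) atTop atTop :=
      (tendsto_add_atTop_iff_nat 1).2 (tendsto_pow_atTop_atTop_of_one_lt (by norm_num))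
    exact h5.const_div_atTop _
  have hfin : A / 4 + 0 ≤ chat P := le_of_tendsto_of_tendsto' hlim2 hlim hlow
  have h6 := gain_sum ha hb (h 0) (hy 0) T hT
  rw [← hx 0] at h6
  have h7 := sz_sum ha hb hD
  have h8 := loss_sum ha hb hD
  rw [← hL] at h8
  unfold C3
  simp only [zero_add] at h6
  rw [hA] at hfin
  generalize Real.log ((4 * 6912 * 46656 : ℕ) : ℝ) = l1 at h8 ⊢
  generalize Real.log 6912 = l2 at h7 ⊢
  generalize Real.log 250 = l3 at h8 ⊢
  generalize (Module.finrank ℚ K : ℝ) = n at h7 h8 ⊢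
  generalize (Sa fun w : AbsoluteValue K ℝ => Real.log (sz w a b)) = s at h6 h7
  generalize Sa (Lam a b (x 1)) = s' at h6 hfin
  clear hlim hlim2 hlow hA hL
  clear_value L
  generalize chat P = cc at hfin ⊢
  generalize on a b = s2 at h8 ⊢
  generalize ht (jj a b) = s3 at h7 h8 ⊢
  generalize (∑ v ∈ T, Real.log (Nv v)) = s4 at h6 ⊢
  nlinarith


end Cht

end Pool.Agent.D0H55.ON
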