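import Mathlib
import Pool.Agent.D0H55.ON.Tel
import Pool.Agent.Helper259.HtExt
import Pool.Agent.TH377.Dyn.NF

/-!
# The places of a finite extension
-/

set_option autoImplicit false
set_option linter.unusedSectionVars false

namespace Pool.Agent.D0H55.ON

open NumberField IsDedekindDomain Finset Pool.Agent.H691R3 Pool.Agent.W223.AK
open Pool.Agent.Y733.LS

theorem fv_exp {K : Type} [Field K] [NumberField K] (v : Pr K) {x : K} {n : ℤ}
    (h : v.valuation K x = WithZero.exp n) : fv v x = (Nv v) ^ n := by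
  have h1 : fv v x = _ := NumberField.FinitePlace.norm_embedding' (v := v) (x := x)
  rw [h, WithZeroMulInt.toNNReal_neg_apply _ WithZero.exp_ne_zero] at h1
  refine h1.trans ?_
  push_cast
  rfl

theorem fv_lt_one_iff {K : Type} [Field K] [NumberField K] (v : Pr K) (x : K) :
    fv v x < 1 ↔ v.valuation K x < 1 := by
  rcases eq_or_ne x 0 with rfl | hx
  · rw [map_zero, map_zero]
    exact ⟨fun _ => zero_lt_one, fun _ => one_pos⟩
  have hx1 : v.valuation K x ≠ 0 := (Valuation.ne_zero_iff _).mpr hx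
  obtain ⟨n, hn⟩ : ∃ n : ℤ, v.valuation K x = WithZero.exp n :=
    ⟨WithZero.log (v.valuation K x), (WithZero.exp_log hx1).symm⟩
  have h1 := Nv_one_lt v
  rw [fv_exp v hn, hn, ← WithZero.exp_zero, WithZero.exp_lt_exp]
  constructor
  · intro h
    by_contra hcon
    push Not at hcon
    exact absurd h (not_lt.2 (one_le_zpow₀ h1.le hcon))
  · intro h
    rw [← zpow_zero (Nv v)]
    exact zpow_lt_zpow_right₀ h1 h

theorem fv_le_one_iff' {K : Type} [Field K] [NumberField K] (v : Pr K) (x : K) :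
    fv v x ≤ 1 ↔ v.valuation K x ≤ 1 := by
  rcases eq_or_ne x 0 with rfl | hx
  · rw [map_zero, map_zero]
    exact ⟨fun _ => zero_le_one, fun _ => zero_le_one⟩
  have hx1 : v.valuation K x ≠ 0 := (Valuation.ne_zero_iff _).mpr hx
  obtain ⟨n, hn⟩ : ∃ n : ℤ, v.valuation K x = WithZero.exp n :=
    ⟨WithZero.log (v.valuation K x), (WithZero.exp_log hx1).symm⟩
  have h1 := Nv_one_lt v
  rw [fv_exp v hn, hn, ← WithZero.exp_zero, WithZero.exp_le_exp]
  constructor
  · intro h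
    by_contra hcon
    push Not at hcon
    exact absurd h (not_le.2 (one_lt_zpow₀ h1 hcon))
  · intro h
    rw [← zpow_zero (Nv v)]
    exact zpow_le_zpow_right₀ h1.le h

section One

variable {K : Type} [Field K] [NumberField K]

/-- the condition of oddness -/
theorem par_iff (v : Pr K) {r : K} {n : ℤ} (h : fv v r = (Nv v) ^ n) :
    (∀ z : K, fv v z ^ 2 ≠ fv v r) ↔ Odd n := by
  have h1 := Nv_one_lt v
  have h0 : 0 < Nv v := Nv_pos v
  constructor
  · intro hz
    by_contra hcon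
    rw [Int.not_odd_iff_even] at hcon
    obtain ⟨m, hm⟩ := hcon
    obtain ⟨u, hu⟩ := exists_fv v m
    apply hz u
    rw [hu, h, hm, ← zpow_natCast, ← zpow_mul]
    congr 1
    push_cast
    ring
  · intro hn z hz
    rcases eq_or_ne z 0 with rfl | hz0
    · rw [map_zero, h] at hz
      have : (0 : ℝ) < Nv v ^ n := zpow_pos h0 n
      rw [← hz] at this
      norm_num at this
    · obtain ⟨m, hm⟩ := fv_zpow v hz0
      rw [hm, h, ← zpow_natCast, ← zpow_mul] at hz
      have h2 := zpow_right_injective₀ h0 h1.ne' hz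
      rw [← h2] at hn
      push_cast at hn
      exact (Int.not_odd_iff_even.2 ⟨m, by ring⟩) hn

end One

section Two

variable {K L : Type} [Field K] [NumberField K] [Field L] [NumberField L] [Algebra K L]

theorem Nv_over (w : Pr L) :
    Nv w = Nv (w.under (𝓞 K)) ^ w.asIdeal.inertiaDeg (𝓞 K) := by
  have hw : w.asIdeal.LiesOver (w.under (𝓞 K)).asIdeal := ⟨rfl⟩
  have h := Ideal.absNorm_pow_inertiaDeg (w.under (𝓞 K)).asIdeal w.asIdeal
  unfold Nv
  rw [← h]
  push_cast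
  rfl

theorem fv_over' (w : Pr L) {x : K} (hx : x ≠ 0) {n : ℤ}
    (h : fv (w.under (𝓞 K)) x = (Nv (w.under (𝓞 K))) ^ n) :
    fv w (algebraMap K L x) = (Nv w) ^ ((w.asIdeal.ramificationIdx (𝓞 K) : ℤ) * n) := by
  set v := w.under (𝓞 K) with hv
  have hw : w.asIdeal.LiesOver v.asIdeal := ⟨rfl⟩
  have hx1 : v.valuation K x ≠ 0 := (Valuation.ne_zero_iff _).mpr hx
  obtain ⟨m, hm⟩ : ∃ n : ℤ, v.valuation K x = WithZero.exp n :=
    ⟨WithZero.log (v.valuation K x), (WithZero.exp_log hx1).symm⟩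
  have hmn : m = n := by
    rw [fv_exp v hm] at h
    exact zpow_right_injective₀ (Nv_pos v) (Nv_one_lt v).ne' h
  subst hmn
  apply fv_exp
  rw [← HeightOneSpectrum.valuation_liesOver L v w, hm, ← WithZero.exp_nsmul,
    Ideal.ramificationIdx'_eq_ramificationIdx v.asIdeal w.asIdeal v.ne_bot]
  simp

theorem fv_over (w : Pr L) (x : K) : fv w (algebraMap K L x) =
    fv (w.under (𝓞 K)) x ^ (w.asIdeal.ramificationIdx (𝓞 K) * w.asIdeal.inertiaDeg (𝓞 K)) := by
  set v := w.under (𝓞 K) with hv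
  have hw : w.asIdeal.LiesOver v.asIdeal := ⟨rfl⟩
  have hef : w.asIdeal.ramificationIdx (𝓞 K) * w.asIdeal.inertiaDeg (𝓞 K) ≠ 0 := by
    apply mul_ne_zero
    · rw [← Ideal.ramificationIdx'_eq_ramificationIdx v.asIdeal w.asIdeal v.ne_bot]
      exact Ideal.IsDedekindDomain.ramificationIdx'_ne_zero_of_liesOver w.asIdeal v.ne_bot
    · intro h0
      have h1 := Nv_over (K := K) w
      rw [h0, pow_zero] at h1
      have := Nv_one_lt w
      linarith
  rcases eq_or_ne x 0 with rfl | hx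
  · rw [map_zero, map_zero, map_zero, zero_pow hef]
  obtain ⟨n, hn⟩ := fv_zpow v hx
  rw [fv_over' w hx hn, hn, Nv_over (K := K) w, ← hv]
  rw [← zpow_natCast (Nv v ^ n), ← zpow_mul, ← zpow_natCast (Nv v), ← zpow_mul]
  congr 1
  push_cast
  ring

/-- odd exponents remain odd -/
theorem par_over (w : Pr L) (he : Odd (w.asIdeal.ramificationIdx (𝓞 K))) {r : K} (hr : r ≠ 0)
    (h : ∀ z : K, fv (w.under (𝓞 K)) z ^ 2 ≠ fv (w.under (𝓞 K)) r) :
    ∀ z : L, fv w z ^ 2 ≠ fv w (algebraMap K L r) := by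
  obtain ⟨n, hn⟩ := fv_zpow (w.under (𝓞 K)) hr
  rw [par_iff _ hn] at h
  rw [par_iff _ (fv_over' w hr hn)]
  have he' : Odd (w.asIdeal.ramificationIdx (𝓞 K) : ℤ) := by exact_mod_cast he
  exact he'.mul h

/-- a non-square residue remains a non-square -/
theorem res_sq (w : Pr L) (hf : Odd (w.asIdeal.inertiaDeg (𝓞 K))) (α : 𝓞 K) (y : 𝓞 L)
    (h : Ideal.Quotient.mk w.asIdeal (y ^ 2 + algebraMap (𝓞 K) (𝓞 L) α) = 0)
    (hα : α ∉ (w.under (𝓞 K)).asIdeal) :
    ∃ β : 𝓞 K, β ^ 2 + α ∈ (w.under (𝓞 K)).asIdeal := by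
  classical
  set v := w.under (𝓞 K) with hv
  have hlies : w.asIdeal.LiesOver v.asIdeal := ⟨rfl⟩
  have hmax : v.asIdeal.IsMaximal := v.isMaximal
  have hmaxw : w.asIdeal.IsMaximal := w.isMaximal
  let _ : Field (𝓞 K ⧸ v.asIdeal) := Ideal.Quotient.field _
  let _ : Field (𝓞 L ⧸ w.asIdeal) := Ideal.Quotient.field _
  have hfinK : Finite (𝓞 K ⧸ v.asIdeal) := Ideal.finiteQuotientOfFreeOfNeBot _ v.ne_bot
  have hfinL : Finite (𝓞 L ⧸ w.asIdeal) := Ideal.finiteQuotientOfFreeOfNeBot _ w.ne_bot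
  have hfd : FiniteDimensional (𝓞 K ⧸ v.asIdeal) (𝓞 L ⧸ w.asIdeal) :=
    Module.Finite.of_finite
  have hfr : Module.finrank (𝓞 K ⧸ v.asIdeal) (𝓞 L ⧸ w.asIdeal) = w.asIdeal.inertiaDeg (𝓞 K) :=
    (Ideal.inertiaDeg_eq_of_isMaximal v.asIdeal w.asIdeal).symm
  obtain ⟨k, hk⟩ := hf
  set A : 𝓞 K ⧸ v.asIdeal := -Ideal.Quotient.mk v.asIdeal α with hA
  have hA0 : A ≠ 0 := by
    rw [hA, neg_ne_zero, Ne, Ideal.Quotient.eq_zero_iff_mem]
    exact hα
  set Y : 𝓞 L ⧸ w.asIdeal := Ideal.Quotient.mk w.asIdeal y with hY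
  have h1 : Y ^ 2 = algebraMap (𝓞 K ⧸ v.asIdeal) (𝓞 L ⧸ w.asIdeal) A := by
    have h2 : Y ^ 2 + algebraMap (𝓞 K ⧸ v.asIdeal) (𝓞 L ⧸ w.asIdeal)
        (Ideal.Quotient.mk v.asIdeal α) = 0 := by
      rw [map_add, map_pow] at h
      exact h
    rw [hA, map_neg]
    exact eq_neg_of_add_eq_zero_left h2
  have h2 : (Algebra.norm (𝓞 K ⧸ v.asIdeal) Y) ^ 2 = A ^ (2 * k + 1) := by
    rw [← map_pow, h1, Algebra.norm_algebraMap, hfr, hk]
  obtain ⟨β, hβ⟩ := Ideal.Quotient.mk_surjective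
    ((Algebra.norm (𝓞 K ⧸ v.asIdeal) Y) * (A ^ k)⁻¹)
  refine ⟨β, ?_⟩
  rw [← Ideal.Quotient.eq_zero_iff_mem, map_add, map_pow, hβ, mul_pow, h2]
  have h3 : A ^ (2 * k + 1) * ((A ^ k)⁻¹) ^ 2 = A := by
    field_simp
    ring
  rw [h3, hA]
  ring

/-- approximation of an integral element -/
theorem approx {F : Type} [Field F] [NumberField F] (v : Pr F) (x : F) (hx : fv v x ≤ 1) :
    ∃ α : 𝓞 F, fv v ((α : F) - x) < 1 := by
  have h1 : v.valuation F x ≤ 1 := (fv_le_one_iff' v x).1 hx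
  obtain ⟨α, hα⟩ := v.exists_valuation_sub_lt_of_integer h1 1
  rw [Units.val_one] at hα
  exact ⟨α, (fv_lt_one_iff v _).2 hα⟩

/-- a non-square in the completion remains a non-square -/
theorem ns_over (w : Pr L) (he : Odd (w.asIdeal.ramificationIdx (𝓞 K)))
    (hf : Odd (w.asIdeal.inertiaDeg (𝓞 K))) {c : K} (hc : c ≠ 0)
    (h : ∀ z : K, fv (w.under (𝓞 K)) c ≤ fv (w.under (𝓞 K)) (z ^ 2 + c)) :
    ∀ z : L, fv w (algebraMap K L c) ≤ fv w (z ^ 2 + algebraMap K L c) := by
  classical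
  set v := w.under (𝓞 K) with hv
  have hlies : w.asIdeal.LiesOver v.asIdeal := ⟨rfl⟩
  intro z
  by_contra hcon
  push Not at hcon
  have hcL : algebraMap K L c ≠ 0 := (map_ne_zero _).2 hc
  have hcp : 0 < fv w (algebraMap K L c) := (fv w).pos hcL
  have hz2 : fv w (z ^ 2) = fv w (algebraMap K L c) := by
    have e : z ^ 2 = -(algebraMap K L c) + (z ^ 2 + algebraMap K L c) := by ring
    rw [e, (fv_Na w).eq, map_neg_eq_map]
    rw [map_neg_eq_map]
    exact hcon
  have hz0 : z ≠ 0 := by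
    rintro rfl
    rw [zero_pow two_ne_zero, map_zero] at hz2
    linarith
  obtain ⟨n, hn⟩ := fv_zpow v hc
  obtain ⟨m, hm⟩ := fv_zpow w hz0
  have hcn := fv_over' w hc hn
  have h2m : 2 * m = (w.asIdeal.ramificationIdx (𝓞 K) : ℤ) * n := by
    rw [map_pow, hm, hcn, ← zpow_natCast, ← zpow_mul] at hz2
    have := zpow_right_injective₀ (Nv_pos w) (Nv_one_lt w).ne' hz2
    push_cast at this
    linarith
  have he' : Odd (w.asIdeal.ramificationIdx (𝓞 K) : ℤ) := by exact_mod_cast he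
  have hne : Even n := by
    rcases Int.even_or_odd n with h1 | h1
    · exact h1
    · exact absurd (he'.mul h1) (by rw [← h2m, Int.not_odd_iff_even]; exact even_two_mul m)
  obtain ⟨k, hk⟩ := hne
  have hmk : m = (w.asIdeal.ramificationIdx (𝓞 K) : ℤ) * k := by
    have : 2 * m = 2 * ((w.asIdeal.ramificationIdx (𝓞 K) : ℤ) * k) := by rw [h2m, hk]; ring
    linarith
  obtain ⟨u, hu⟩ := exists_fv v k
  have hu0 : u ≠ 0 := by
    rintro rfl
    rw [map_zero] at hu
    have := zpow_pos (Nv_pos v) k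
    linarith
  have huL : fv w (algebraMap K L u) = (Nv w) ^ m := by
    rw [fv_over' w hu0 hu, hmk]
  have huL0 : algebraMap K L u ≠ 0 := (map_ne_zero _).2 hu0
  have hup : 0 < fv v u := (fv v).pos hu0
  have huLp : 0 < fv w (algebraMap K L u) := (fv w).pos huL0
  -- the units
  have hc1 : fv v (c / u ^ 2) = 1 := by
    rw [map_div₀, map_pow, hu, hn, hk, ← zpow_natCast, ← zpow_mul, ← zpow_sub₀ (Nv_pos v).ne']
    have : k + k - k * ((2 : ℕ) : ℤ) = 0 := by push_cast; ring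
    rw [this, zpow_zero]
  have hz1 : fv w (z / algebraMap K L u) = 1 := by
    rw [map_div₀, hm, huL, div_self (zpow_pos (Nv_pos w) m).ne']
  have hlt : fv w ((z / algebraMap K L u) ^ 2 + algebraMap K L (c / u ^ 2)) < 1 := by
    have e : (z / algebraMap K L u) ^ 2 + algebraMap K L (c / u ^ 2) =
        (z ^ 2 + algebraMap K L c) / (algebraMap K L u) ^ 2 := by
      rw [map_div₀, map_pow]
      field_simp
    rw [e, map_div₀, map_pow, div_lt_one (by positivity)]
    have e2 : fv w (algebraMap K L u) ^ 2 = fv w (algebraMap K L c) := by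
      rw [← hz2, map_pow, hm, huL]
    rw [e2]
    exact hcon
  obtain ⟨α, hα⟩ := approx v (c / u ^ 2) hc1.le
  obtain ⟨y, hy⟩ := approx w (z / algebraMap K L u) hz1.le
  set Z := z / algebraMap K L u with hZ
  set C := c / u ^ 2 with hC
  have hαn : α ∉ v.asIdeal := by
    intro h1
    have h2 : fv v (α : K) < 1 := by
      rw [fv_lt_one_iff, HeightOneSpectrum.valuation_lt_one_iff_mem]
      exact h1
    have h3 : fv v C < 1 := by
      have e : C = (α : K) - ((α : K) - C) := by ring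
      rw [e]
      exact (fv_Na v).lt_sub h2 hα
    rw [hc1] at h3
    exact lt_irrefl _ h3
  have hyw : fv w ((y : L) ^ 2 + algebraMap K L (α : K)) < 1 := by
    have e : (y : L) ^ 2 + algebraMap K L (α : K) =
        (Z ^ 2 + algebraMap K L C) + (((y : L) - Z) * ((y : L) + Z) +
          algebraMap K L ((α : K) - C)) := by
      rw [map_sub]
      ring
    rw [e]
    apply (fv_Na w).lt_add hlt
    apply (fv_Na w).lt_add
    · rw [map_mul]
      have h1 : fv w ((y : L) + Z) ≤ 1 := by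
        apply (fv_Na w).le_add _ hz1.le
        exact (fv_le_one_iff' w _).2 (w.valuation_le_one y)
      have h2 := (fv w).nonneg ((y : L) - Z)
      have h3 := (fv w).nonneg ((y : L) + Z)
      nlinarith
    · rw [fv_over w ((α : K) - C)]
      have h5 : w.asIdeal.ramificationIdx (𝓞 K) * w.asIdeal.inertiaDeg (𝓞 K) ≠ 0 :=
        ((he.mul hf).pos).ne'
      exact pow_lt_one₀ ((fv _).nonneg _) hα h5
  obtain ⟨β, hβ⟩ := res_sq w hf α y (by
    rw [Ideal.Quotient.eq_zero_iff_mem, ← HeightOneSpectrum.valuation_lt_one_iff_mem (K := L),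
      ← fv_lt_one_iff]
    have e : algebraMap (𝓞 L) L (y ^ 2 + algebraMap (𝓞 K) (𝓞 L) α) =
        (y : L) ^ 2 + algebraMap K L (α : K) := by
      rw [map_add, map_pow]
      congr 1
    change fv w (algebraMap (𝓞 L) L (y ^ 2 + algebraMap (𝓞 K) (𝓞 L) α)) < 1
    rw [e]
    exact hyw) hαn
  have hβ1 : fv v ((β : K) ^ 2 + (α : K)) < 1 := by
    rw [fv_lt_one_iff]
    have e : ((β : K) ^ 2 + (α : K)) = algebraMap (𝓞 K) K (β ^ 2 + α) := by
      rw [map_add, map_pow]
    rw [e, HeightOneSpectrum.valuation_lt_one_iff_mem]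
    exact hβ
  have hβ2 : fv v ((β : K) ^ 2 + C) < 1 := by
    have e : (β : K) ^ 2 + C = ((β : K) ^ 2 + (α : K)) - ((α : K) - C) := by ring
    rw [e]
    exact (fv_Na v).lt_sub hβ1 hα
  have h9 := h ((β : K) * u)
  have e : ((β : K) * u) ^ 2 + c = ((β : K) ^ 2 + C) * u ^ 2 := by
    rw [hC]
    field_simp
  have e2 : fv v c = fv v u ^ 2 := by
    have e3 : c = C * u ^ 2 := by
      rw [hC]
      field_simp
    rw [e3, map_mul, hc1, one_mul, map_pow]
  rw [e, map_mul, map_pow, e2] at h9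
  have : 0 < fv v u ^ 2 := by positivity
  nlinarith

/-- the height of `j` over the extension -/
theorem ht_over (x : K) : ht (algebraMap K L x) = Module.finrank K L * ht x := by
  have h := Pool.Agent.Helper259.HtExt.logHeight_ext (L := L) (![x, 1] : Fin 2 → K)
  have h1 : Height.logHeight₁ (algebraMap K L x) = Module.finrank K L * Height.logHeight₁ x := by
    rw [Height.logHeight₁_eq_logHeight, Height.logHeight₁_eq_logHeight x, ← h]
    congr 1
    funext i
    fin_cases i <;> simp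
  rw [ht_eq_Sa, ht_eq_Sa, ← logHeight_eq, ← logHeight_eq]
  exact h1

end Two

end Pool.Agent.D0H55.ON
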