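import Mathlib
import Pool.Agent.D0H55.ON.BC

/-!
# The places over the simple poles of `j` without split multiplicative reduction
-/

set_option autoImplicit false
set_option linter.unusedSectionVars false

namespace Pool.Agent.D0H55.ON

open NumberField IsDedekindDomain Finset Pool.Agent.H691R3 Pool.Agent.W223.AK
open Pool.Agent.Y733.LS
open Pool.Agent.TH377.Dyn (ovr sum_ef)

section One

variable {K : Type} [Field K] [NumberField K]

theorem Fin_On {a b : K} (hD : dl a b ≠ 0) : {v : Pr K | On a b v}.Finite := by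
  refine (ne_sets (one_ne_zero) (one_ne_zero) (jj a b)).subset ?_
  intro v hv
  right
  right
  exact (On.jj_eq hD hv).2

/-- a simple pole of `j` without split multiplicative reduction -/
theorem on_of_sp {a b : K} (hb : b ≠ 0) (hD : dl a b ≠ 0) {v : Pr K} (h : Sp (jj a b) v)
    (hns : ∀ z : K, fv v (2 * (a * b)) ≤ fv v (z ^ 2 + 2 * (a * b))) : On a b v := by
  obtain ⟨h1, h2⟩ := sp_facts hD h
  refine ⟨h.1, h.2.1, h1, ?_, ?_, hns⟩
  · rw [h2]
    have h5 : 0 < fv v b ^ 2 := pow_pos ((fv v).pos hb) 2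
    have h6 : (Nv v)⁻¹ < 1 := inv_lt_one_of_one_lt₀ (Nv_one_lt v)
    nlinarith
  · obtain ⟨m, hm⟩ := fv_zpow v hb
    have hn : fv v (dl a b) = (Nv v) ^ (2 * m - 1) := by
      rw [h2, hm, zpow_sub₀ (Nv_pos v).ne', zpow_one, mul_comm 2 m, zpow_mul]
      field_simp
    rw [par_iff v hn]
    exact ⟨m - 1, by ring⟩

end One

section Two

variable {K L : Type} [Field K] [NumberField K] [Field L] [NumberField L] [Algebra K L]

theorem jj_map (a b : K) : jj (algebraMap K L a) (algebraMap K L b) = algebraMap K L (jj a b) := by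
  unfold jj
  rw [map_div₀, map_mul, map_add, map_mul, map_mul, map_pow, map_pow, map_ofNat, map_ofNat,
    map_ofNat]

theorem dl_map (a b : K) : dl (algebraMap K L a) (algebraMap K L b) = algebraMap K L (dl a b) := by
  unfold dl
  rw [map_add, map_mul, map_mul, map_pow, map_pow, map_ofNat, map_ofNat]

/-- a place over a place of this kind, with odd ramification index and odd residue degree -/
theorem on_over {a b : K} (hD : dl a b ≠ 0) (w : Pr L)
    (h : On a b (w.under (𝓞 K))) (he : Odd (w.asIdeal.ramificationIdx (𝓞 K)))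
    (hf : Odd (w.asIdeal.inertiaDeg (𝓞 K))) :
    On (algebraMap K L a) (algebraMap K L b) w ∧
    Real.log (fv w (jj (algebraMap K L a) (algebraMap K L b))) =
      (w.asIdeal.ramificationIdx (𝓞 K) * w.asIdeal.inertiaDeg (𝓞 K) : ℕ) *
        Real.log (fv (w.under (𝓞 K)) (jj a b)) := by
  set v := w.under (𝓞 K) with hv
  obtain ⟨h2, h3, f1, f2, f3, hns⟩ := id h
  have hef : w.asIdeal.ramificationIdx (𝓞 K) * w.asIdeal.inertiaDeg (𝓞 K) ≠ 0 :=
    ((he.mul hf).pos).ne'
  have hb : b ≠ 0 := by
    rintro rfl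
    rw [map_zero, zero_pow two_ne_zero] at f2
    exact absurd f2 (not_lt.2 ((fv v).nonneg _))
  have ha : a ≠ 0 := by
    rintro rfl
    rw [map_zero, zero_pow three_ne_zero] at f1
    have := pow_pos ((fv v).pos hb) 2
    linarith
  refine ⟨⟨?_, ?_, ?_, ?_, ?_, ?_⟩, ?_⟩
  · have h5 := fv_over w (2 : K)
    rw [← hv, h2, one_pow, map_ofNat] at h5
    exact h5
  · have h5 := fv_over w (3 : K)
    rw [← hv, h3, one_pow, map_ofNat] at h5
    exact h5
  · rw [fv_over, fv_over, ← hv, ← pow_mul, mul_comm _ 3, pow_mul, f1, ← pow_mul, ← pow_mul,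
      mul_comm 2]
  · rw [dl_map, fv_over, fv_over, ← hv, pow_right_comm]
    exact pow_lt_pow_left₀ f2 ((fv v).nonneg _) hef
  · rw [dl_map]
    exact par_over w he hD f3
  · have h5 := ns_over w he hf (c := 2 * (a * b)) (mul_ne_zero two_ne_zero (mul_ne_zero ha hb)) hns
    intro z
    have h6 := h5 z
    simp only [map_mul, map_ofNat] at h6 ⊢
    exact h6
  · rw [jj_map, fv_over, ← hv, Real.log_pow]

/-- **the sum over the places of the extension** -/
theorem on_ge {a b : K} (hD : dl a b ≠ 0)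
    (h : ∀ w : Pr L, On a b (w.under (𝓞 K)) →
      Odd (w.asIdeal.ramificationIdx (𝓞 K)) ∧ Odd (w.asIdeal.inertiaDeg (𝓞 K))) :
    Module.finrank K L * on a b ≤ on (algebraMap K L a) (algebraMap K L b) := by
  classical
  have hDL : dl (algebraMap K L a) (algebraMap K L b) ≠ 0 := by
    rw [dl_map]
    exact (map_ne_zero _).2 hD
  set S : Finset (Pr K) := (Fin_On hD).toFinset with hS
  have hmem : ∀ v, v ∈ S ↔ On a b v := fun v => by
    rw [hS, Set.Finite.mem_toFinset]
    rfl
  have hns : on a b = ∑ v ∈ S, Real.log (fv v (jj a b)) := by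
    unfold on
    rw [finsum_eq_sum_of_support_subset (s := S)]
    · exact Finset.sum_congr rfl fun v hv => if_pos ((hmem v).1 hv)
    · intro v hv
      rw [Function.mem_support] at hv
      rw [Finset.mem_coe, hmem]
      by_contra hcon
      exact hv (if_neg hcon)
  set g : Pr L → ℝ := fun w => if On (algebraMap K L a) (algebraMap K L b) w then
    Real.log (fv w (jj (algebraMap K L a) (algebraMap K L b))) else 0 with hg
  have hg0 : ∀ w, 0 ≤ g w := by
    intro w
    simp only [hg]
    split_ifs with h1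
    · exact Real.log_nonneg (h1.jj_eq hDL).2.le
    · exact le_rfl
  have hgs : (Function.support g).Finite := Fs_on hDL
  -- the places above
  set T : Finset (Σ v : Pr K, v.asIdeal.primesOver (𝓞 L)) :=
    S.sigma fun v => (Finset.univ : Finset (v.asIdeal.primesOver (𝓞 L))) with hT
  have hunder : ∀ (v : Pr K) (q : v.asIdeal.primesOver (𝓞 L)), (ovr v q).under (𝓞 K) = v := by
    intro v q
    have h1 := q.2.2.over
    apply HeightOneSpectrum.ext
    exact h1.symm
  have hinj : Set.InjOn (fun p : Σ v : Pr K, v.asIdeal.primesOver (𝓞 L) => ovr p.1 p.2)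
      (T : Set _) := by
    rintro ⟨v, q⟩ - ⟨v', q'⟩ - he
    have he' : ovr v q = ovr v' q' := he
    have h1 : v = v' := by rw [← hunder v q, he', hunder v' q']
    subst h1
    have h2 : q = q' := Subtype.ext (congrArg HeightOneSpectrum.asIdeal he')
    rw [h2]
  have hval : ∀ p ∈ T, g (ovr p.1 p.2) =
      ((p.2.1.ramificationIdx (𝓞 K) * p.2.1.inertiaDeg (𝓞 K) : ℕ) : ℝ) *
        Real.log (fv p.1 (jj a b)) := by
    rintro ⟨v, q⟩ hp
    rw [hT, Finset.mem_sigma] at hp
    have hv : On a b v := (hmem v).1 hp.1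
    have hu := hunder v q
    have h1 : On a b ((ovr v q).under (𝓞 K)) := by rw [hu]; exact hv
    obtain ⟨he, hf⟩ := h (ovr v q) h1
    obtain ⟨h2, h3⟩ := on_over hD (ovr v q) h1 he hf
    simp only [hg]
    rw [if_pos h2, h3, hu]
    rfl
  calc Module.finrank K L * on a b = ∑ v ∈ S, (Module.finrank K L : ℝ) * Real.log (fv v (jj a b)) := by
        rw [hns, Finset.mul_sum]
    _ = ∑ v ∈ S, ∑ q : v.asIdeal.primesOver (𝓞 L),
        ((q.1.ramificationIdx (𝓞 K) * q.1.inertiaDeg (𝓞 K) : ℕ) : ℝ) * Real.log (fv v (jj a b)) := by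
        refine Finset.sum_congr rfl fun v _ => ?_
        rw [← Finset.sum_mul, ← Nat.cast_sum, sum_ef L v]
    _ = ∑ p ∈ T, ((p.2.1.ramificationIdx (𝓞 K) * p.2.1.inertiaDeg (𝓞 K) : ℕ) : ℝ) *
        Real.log (fv p.1 (jj a b)) := by
        rw [hT, Finset.sum_sigma]
    _ = ∑ p ∈ T, g (ovr p.1 p.2) := Finset.sum_congr rfl fun p hp => (hval p hp).symm
    _ = ∑ w ∈ T.image (fun p => ovr p.1 p.2), g w := by
        rw [Finset.sum_image hinj]
    _ ≤ ∑ᶠ w, g w := sum_le_fin _ hgs hg0
    _ = on (algebraMap K L a) (algebraMap K L b) := rfl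

end Two

end Pool.Agent.D0H55.ON
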