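import Mathlib
import Pool.Agent.D0H55.ON.Sm
import Pool.Agent.Y733.FF.Str

/-!
# The lower bound over all extensions with odd local degrees
-/

set_option autoImplicit false
set_option linter.unusedSectionVars false

namespace Pool.Agent.D0H55.ON

open NumberField IsDedekindDomain Finset Pool.Agent.H691R3 Pool.Agent.W223.AK
open Pool.Agent.Y733.LS Pool.Agent.TH942 Pool.Agent.TH910.LS

section One

variable {K : Type} [Field K] [NumberField K] [DecidableEq K]

theorem no_two' {a b : K} (hroot : ∀ x : K, x ^ 3 + a * x + b ≠ 0) {P : SPt a b} (hP : P ≠ 0) :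
    ∀ k : ℕ, (2 ^ k : ℕ) • P ≠ 0 := by
  intro k
  induction k with
  | zero => simpa using hP
  | succ k ih =>
    intro h0
    obtain ⟨x, y, h, hxy⟩ := exists_coord _ ih
    rw [pow_succ, mul_comm, mul_smul, hxy] at h0
    have hy : y = 0 := by
      by_contra hy
      obtain ⟨_, y', h', e⟩ := dup_some h hy
      rw [e] at h0
      exact absurd h0 (by intro h9; cases h9)
    have he : y ^ 2 = x ^ 3 + a * x + b := sw_eqn.1 h.1
    apply hroot x
    rw [← he, hy]
    ring

/-- **the lower bound for one curve** -/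
theorem one_curve' {a b : K} (ha : a ≠ 0) (hb : b ≠ 0) (hD : dl a b ≠ 0)
    (hroot : ∀ x : K, x ^ 3 + a * x + b ≠ 0)
    {η : ℝ} (hη0 : 0 ≤ η) (hη : η < 1 / 2) (hsp : (1 - η) * ht (jj a b) ≤ on a b)
    (hht : Module.finrank ℚ K * (600 * (C3 + 1 + C4) / (1 - 2 * η)) ≤ ht (jj a b))
    (S : Finset (Pr K)) (hS : ∀ v ∈ S, BadAt a b v) {P : SPt a b} (hP : P ≠ 0) :
    (1 - 2 * η) / 100 * (Module.finrank ℚ K + ht (jj a b) + ∑ v ∈ S, Real.log (Nv v)) ≤
      chat P := by
  obtain ⟨T, hT, hTS⟩ := bad_sum ha hb hD S hS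
  have h := Pool.Agent.D0H55.ON.chat_ge ha hb hD P (no_two' hroot hP) T hT
  have hn : (0 : ℝ) < Module.finrank ℚ K := by exact_mod_cast Module.finrank_pos
  have hT0 : 0 ≤ ∑ v ∈ T, Real.log (Nv v) := Finset.sum_nonneg fun v _ => (log_Nv_pos v).le
  have h1 : 0 < 1 - 2 * η := by linarith
  have hC4 : 0 ≤ C4 := add_nonneg (Real.log_nonneg (by norm_num)) (Real.log_nonneg (by norm_num))
  have hC4' : Real.log 6 + Real.log 1729 = C4 := rfl
  rw [hC4'] at hTS
  generalize (∑ v ∈ T, Real.log (Nv v)) = sT at *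
  generalize (∑ v ∈ S, Real.log (Nv v)) = sS at *
  generalize ht (jj a b) = H at *
  generalize on a b = p at *
  generalize C3 = c3 at *
  generalize C4 = c4 at *
  generalize (Module.finrank ℚ K : ℝ) = n at *
  have h3 : n * (c3 + 1 + c4) ≤ (1 - 2 * η) / 600 * H := by
    have h4 : (1 - 2 * η) / 600 * (n * (600 * (c3 + 1 + c4) / (1 - 2 * η))) ≤
        (1 - 2 * η) / 600 * H := mul_le_mul_of_nonneg_left hht (by positivity)
    have h5 : (1 - 2 * η) / 600 * (n * (600 * (c3 + 1 + c4) / (1 - 2 * η))) =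
        n * (c3 + 1 + c4) := by
      field_simp
    linarith
  have h6 : (1 - 2 * η) / 100 * (n + H + sS) ≤
      (1 - 2 * η) / 100 * (n + H + (sT + 3 * H + n * c4)) :=
    mul_le_mul_of_nonneg_left (by linarith) (by positivity)
  have h7 : (1 - 2 * η) / 100 * (n + H + (sT + 3 * H + n * c4)) ≤
      (1 - 2 * η) / 25 * H + sT / 4 + n * (1 + c4) := by
    have i1 : (1 - 2 * η) / 100 * (n * (1 + c4)) ≤ n * (1 + c4) := by
      have : 0 ≤ n * (1 + c4) := by positivity
      nlinarith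
    have i2 : (1 - 2 * η) / 100 * sT ≤ sT / 4 := by nlinarith
    nlinarith
  nlinarith

end One

section Two

variable {K L : Type} [Field K] [NumberField K] [Field L] [NumberField L] [Algebra K L]

/-- **no points of order two**: a root of the cubic in a Galois extension gives a square root of the
discriminant -/
theorem no_root [IsGalois K L] {a b : K} (hroot : ∀ x : K, x ^ 3 + a * x + b ≠ 0)
    (hsq : ∀ z : L, z ^ 2 ≠ -algebraMap K L (dl a b)) :
    ∀ x : L, x ^ 3 + algebraMap K L a * x + algebraMap K L b ≠ 0 := by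
  intro x hx
  have hnot : x ∉ (⊥ : IntermediateField K L) := by
    intro h
    obtain ⟨y, rfl⟩ := IntermediateField.mem_bot.1 h
    apply hroot y
    apply (algebraMap K L).injective
    rw [map_zero, map_add, map_add, map_mul, map_pow]
    exact hx
  rw [IsGalois.mem_bot_iff_fixed] at hnot
  push Not at hnot
  obtain ⟨σ, hσ⟩ := hnot
  set x' := σ x with hx'
  have h1 : x' ^ 3 + algebraMap K L a * x' + algebraMap K L b = 0 := by
    have h2 := congrArg σ hx
    rw [map_zero, map_add, map_add, map_mul, map_pow, AlgEquiv.commutes, AlgEquiv.commutes] at h2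
    exact h2
  have hne : x' - x ≠ 0 := sub_ne_zero.2 hσ
  set A := algebraMap K L a with hA
  set B := algebraMap K L b with hB
  have h3 : x' ^ 2 + x' * x + x ^ 2 + A = 0 := by
    have h4 : (x' - x) * (x' ^ 2 + x' * x + x ^ 2 + A) = 0 := by
      linear_combination h1 - hx
    exact (mul_eq_zero.1 h4).resolve_left hne
  apply hsq ((x' - x) * (2 * x + x') * (x + 2 * x'))
  have hdl : algebraMap K L (dl a b) = 4 * A ^ 3 + 27 * B ^ 2 := by
    rw [← dl_map]
    rfl
  rw [hdl]
  have hA' : A = -(x' ^ 2 + x' * x + x ^ 2) := by linear_combination h3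
  have hB' : B = -(x ^ 3 + A * x) := by linear_combination hx
  rw [hB', hA']
  ring

/-- at least one place -/
theorem exists_on {a b : K} {η : ℝ} (hη : η < 1 / 2)
    (hsp : (1 - η) * ht (jj a b) ≤ on a b) (hpos : 0 < ht (jj a b)) : ∃ v, On a b v := by
  have hns : 0 < on a b := lt_of_lt_of_le (mul_pos (by linarith) hpos) hsp
  by_contra hcon
  push Not at hcon
  have : on a b = 0 := by
    unfold on
    simp [hcon]
  linarith

theorem exists_over (v : Pr K) : ∃ w : Pr L, w.under (𝓞 K) = v := by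
  have hmax := v.isMaximal
  obtain ⟨Q, hQ, hQv⟩ :=
    Ideal.exists_maximal_ideal_liesOver_of_isIntegral (S := 𝓞 L) v.asIdeal
  have hQ0 : Q ≠ ⊥ := Ideal.ne_bot_of_liesOver_of_ne_bot v.ne_bot Q
  refine ⟨⟨Q, hQ.isPrime, hQ0⟩, ?_⟩
  apply HeightOneSpectrum.ext
  exact hQv.over.symm

theorem ab_ne {a b : K} {v : Pr K} (h : On a b v) : a ≠ 0 ∧ b ≠ 0 := by
  obtain ⟨h2, h3, f1, f2, f3, hns⟩ := h
  have hb : b ≠ 0 := by
    rintro rfl
    rw [map_zero, zero_pow two_ne_zero] at f2
    exact absurd f2 (not_lt.2 ((fv v).nonneg _))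
  refine ⟨?_, hb⟩
  rintro rfl
  rw [map_zero, zero_pow three_ne_zero] at f1
  have := pow_pos ((fv v).pos hb) 2
  linarith

/-- no points of order two over a Galois extension -/
theorem no_root_gal [IsGalois K L] {a b : K} (hD : dl a b ≠ 0)
    (hroot : ∀ x : K, x ^ 3 + a * x + b ≠ 0) (hex : ∃ v, On a b v)
    (hodd : ∀ w : Pr L, On a b (w.under (𝓞 K)) →
      Odd (w.asIdeal.ramificationIdx (𝓞 K)) ∧ Odd (w.asIdeal.inertiaDeg (𝓞 K))) :
    ∀ x : L, x ^ 3 + algebraMap K L a * x + algebraMap K L b ≠ 0 := by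
  obtain ⟨v, hv⟩ := hex
  obtain ⟨w, hw⟩ := exists_over (L := L) v
  have hvw : On a b (w.under (𝓞 K)) := by rw [hw]; exact hv
  have hOn := (on_over hD w hvw (hodd w hvw).1 (hodd w hvw).2).1
  exact no_root (L := L) hroot (fun z hz => by
    apply hOn.2.2.2.2.1 z
    rw [← map_pow, hz, map_neg_eq_map, dl_map])

/-- the threshold -/
noncomputable def B0 : ℝ := 600 * (C3 + 1 + C4)

theorem B0_pos : 0 < B0 := by
  have hC3 : 0 ≤ C3 := by
    unfold C3
    have h1 : 0 ≤ Real.log 6912 := Real.log_nonneg (by norm_num)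
    have h2 : 0 ≤ Real.log 250 := Real.log_nonneg (by norm_num)
    have h3 : 0 ≤ Real.log ((4 * 6912 * 46656 : ℕ) : ℝ) := Real.log_natCast_nonneg _
    positivity
  have hC4 : 0 ≤ C4 := add_nonneg (Real.log_nonneg (by norm_num)) (Real.log_nonneg (by norm_num))
  unfold B0
  positivity

theorem ht_pos_of {j : K} {η : ℝ} (hη : η < 1 / 2)
    (hht : Module.finrank ℚ K * (B0 / (1 - 2 * η)) ≤ ht j) : 0 < ht j := by
  have hnK : (0 : ℝ) < Module.finrank ℚ K := by exact_mod_cast Module.finrank_pos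
  have h1 : 0 < 1 - 2 * η := by linarith
  have := B0_pos
  exact lt_of_lt_of_le (by positivity) hht

open Classical in
/-- **the lower bound over all extensions of this kind** -/
theorem tower {a b : K} (hD : dl a b ≠ 0)
    {η : ℝ} (hη0 : 0 ≤ η) (hη : η < 1 / 2) (hsp : (1 - η) * ht (jj a b) ≤ on a b)
    (hht : Module.finrank ℚ K * (B0 / (1 - 2 * η)) ≤ ht (jj a b))
    (hrootL : ∀ x : L, x ^ 3 + algebraMap K L a * x + algebraMap K L b ≠ 0)
    (hodd : ∀ w : Pr L, On a b (w.under (𝓞 K)) →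
      Odd (w.asIdeal.ramificationIdx (𝓞 K)) ∧ Odd (w.asIdeal.inertiaDeg (𝓞 K)))
    (S : Finset (Pr L)) (hS : ∀ v ∈ S, BadAt (algebraMap K L a) (algebraMap K L b) v)
    {P : SPt (algebraMap K L a) (algebraMap K L b)} (hP : P ≠ 0) :
    (1 - 2 * η) / 100 * (Module.finrank ℚ L + ht (jj (algebraMap K L a) (algebraMap K L b)) +
      ∑ v ∈ S, Real.log (Nv v)) ≤ chat P := by
  obtain ⟨v, hv⟩ := exists_on hη hsp (ht_pos_of hη hht)
  obtain ⟨ha, hb⟩ := ab_ne hv
  have haL : algebraMap K L a ≠ 0 := (map_ne_zero _).2 ha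
  have hbL : algebraMap K L b ≠ 0 := (map_ne_zero _).2 hb
  have hDL : dl (algebraMap K L a) (algebraMap K L b) ≠ 0 := by
    rw [dl_map]
    exact (map_ne_zero _).2 hD
  have hKL : (0 : ℝ) < Module.finrank K L := by exact_mod_cast Module.finrank_pos
  have hhtL : ht (jj (algebraMap K L a) (algebraMap K L b)) =
      Module.finrank K L * ht (jj a b) := by
    rw [jj_map, ht_over]
  refine one_curve' haL hbL hDL hrootL hη0 hη ?_ ?_ S hS hP
  · refine le_trans ?_ (on_ge hD hodd)
    rw [hhtL]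
    nlinarith
  · rw [hhtL]
    have e : (Module.finrank ℚ L : ℝ) = Module.finrank K L * Module.finrank ℚ K := by
      rw [← Module.finrank_mul_finrank ℚ K L]
      push_cast
      ring
    have e2 : 600 * (C3 + 1 + C4) / (1 - 2 * η) = B0 / (1 - 2 * η) := rfl
    rw [e, e2, mul_assoc]
    exact mul_le_mul_of_nonneg_left hht hKL.le

end Two

open Pool.Agent.TH876.FH (IsPeriod arch) in
open Classical in
/-- **the strong inequality over all extensions of this kind** -/
theorem strong : ∃ c₀ : ℝ, 0 < c₀ ∧ ∀ (K L : Type) [Field K] [NumberField K] [Field L]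
    [NumberField L] [Algebra K L] (a b : K), dl a b ≠ 0 →
    ∀ η : ℝ, 0 ≤ η → η < 1 / 2 →
    (1 - η) * ht (jj a b) ≤ on a b →
    Module.finrank ℚ K * (B0 / (1 - 2 * η)) ≤ ht (jj a b) →
    (∀ x : L, x ^ 3 + algebraMap K L a * x + algebraMap K L b ≠ 0) →
    (∀ w : Pr L, On a b (w.under (𝓞 K)) →
      Odd (w.asIdeal.ramificationIdx (𝓞 K)) ∧ Odd (w.asIdeal.inertiaDeg (𝓞 K))) →
    ∀ τ : InfinitePlace L → UpperHalfPlane,
    IsPeriod (jj (algebraMap K L a) (algebraMap K L b)) τ →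
    ∀ (g : ℕ) (M : Matrix (Fin g) (Fin g) ℤ), (M.map (Int.cast : ℤ → ℝ)).PosDef →
    ∀ P : Fin g → SPt (algebraMap K L a) (algebraMap K L b), P ≠ 0 →
      c₀ * (1 - 2 * η) * (Pool.Agent.Y733.FF.discSum (sw (algebraMap K L a) (algebraMap K L b)) +
        ∑ w : InfinitePlace L, (w.mult : ℝ) * arch (τ w)) ≤ chatM M P ∧
      c₀ * (1 - 2 * η) * Module.finrank ℚ L ≤ chatM M P := by
  obtain ⟨C, hC, h⟩ := Pool.Agent.Y733.FF.fal_le
  refine ⟨1 / (10 + C) / 100, by positivity, ?_⟩
  intro K L _ _ _ _ _ a b hD η hη0 hη hsp hht hroot hodd τ hτ g M hM P hP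
  have hn : (0 : ℝ) < Module.finrank ℚ L := by exact_mod_cast Module.finrank_pos
  have hDL : dl (algebraMap K L a) (algebraMap K L b) ≠ 0 := by
    rw [dl_map]
    exact (map_ne_zero _).2 hD
  obtain ⟨S, hS, h1⟩ := h L _ _ τ hDL hτ
  have h0 : 0 < 1 - 2 * η := by linarith
  have h3 : 0 ≤ ht (jj (algebraMap K L a) (algebraMap K L b)) := ht_nonneg _
  have h4 : 0 ≤ ∑ v ∈ S, Real.log (Nv v) := Finset.sum_nonneg fun v _ => (log_Nv_pos v).le
  have h2 : (1 - 2 * η) / 100 * (Module.finrank ℚ L +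
      ht (jj (algebraMap K L a) (algebraMap K L b)) + ∑ v ∈ S, Real.log (Nv v)) ≤ chatM M P := by
    apply all_powers hDL _ _ M hM hP
    · positivity
    · intro Q hQ
      exact tower hD hη0 hη hsp hht hroot hodd S hS hQ
  have h10 : 0 < 10 + C := by positivity
  generalize ht (jj (algebraMap K L a) (algebraMap K L b)) = H at *
  generalize (∑ v ∈ S, Real.log (Nv v)) = s at *
  generalize (Module.finrank ℚ L : ℝ) = n at *
  generalize chatM M P = cc at *
  generalize Pool.Agent.Y733.FF.discSum (sw (algebraMap K L a) (algebraMap K L b)) +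
        ∑ w : InfinitePlace L, (w.mult : ℝ) * arch (τ w) = F at *
  constructor
  · refine le_trans ?_ h2
    have e : 1 / (10 + C) / 100 * (1 - 2 * η) = (1 - 2 * η) / 100 / (10 + C) := by ring
    rw [e, div_mul_eq_mul_div, div_le_iff₀ h10, mul_assoc]
    apply mul_le_mul_of_nonneg_left _ (by positivity)
    nlinarith
  · refine le_trans ?_ h2
    have e : 1 / (10 + C) / 100 * (1 - 2 * η) = (1 - 2 * η) / 100 / (10 + C) := by ring
    rw [e, div_mul_eq_mul_div, div_le_iff₀ h10, mul_assoc]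
    apply mul_le_mul_of_nonneg_left _ (by positivity)
    nlinarith

end Pool.Agent.D0H55.ON
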