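import Mathlib

/-!
# Points which do not reduce to the node, and the roots of the cubic
-/

set_option autoImplicit false

namespace Pool.Agent.D0H55.ON

variable {L : Type*} [Field L] {w : AbsoluteValue L ℝ}

/-- `x` is not near the double root `e₁ ≈ e₃` if it does not reduce to the node -/
theorem far_root (hw : IsNonarchimedean w) (h2 : w 2 = 1) (h3 : w 3 = 1)
    {a b e₁ e₂ e₃ x : L} (hs : e₁ + e₂ + e₃ = 0) (ha : a = e₁ * e₂ + e₁ * e₃ + e₂ * e₃)
    (hb : b = -(e₁ * e₂ * e₃)) (hlt : w (e₃ - e₁) < w (e₂ - e₁))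
    (hgood : w b ≤ w (2 * a * x + 3 * b)) : w (e₂ - e₁) ≤ w (x - e₁) := by
  by_contra hcon
  push Not at hcon
  set d := e₃ - e₁ with hd
  set D := e₂ - e₁ with hD
  have h3' : (3 : L) ≠ 0 := by
    intro h
    rw [h, map_zero] at h3
    exact zero_ne_one h3
  have hna : ∀ y z : L, w (y + z) ≤ max (w y) (w z) := fun y z => hw y z
  have hadd : ∀ y z : L, w z < w y → w (y + z) = w y := by
    intro y z h
    apply le_antisymm
    · exact (hna y z).trans (max_le le_rfl h.le)
    · by_contra hc
      push Not at hc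
      have h5 := hna (y + z) (-z)
      rw [add_neg_cancel_right, map_neg_eq_map] at h5
      exact absurd h5 (not_le.2 (max_lt hc h))
  have hD0 : 0 < w D := lt_of_le_of_lt (w.nonneg _) hlt
  have e1 : e₁ = -(d + D) / 3 := by
    rw [eq_div_iff h3', hd, hD]
    linear_combination hs
  have e2 : e₂ = (2 * D - d) / 3 := by
    rw [eq_div_iff h3', hd, hD]
    linear_combination hs
  have e3 : e₃ = (2 * d - D) / 3 := by
    rw [eq_div_iff h3', hd, hD]
    linear_combination hs
  have h27 : w (27 : L) = 1 := by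
    have : (27 : L) = 3 ^ 3 := by norm_num
    rw [this, map_pow, h3, one_pow]
  have hdD : w (d + D) = w D := by rw [add_comm]; exact hadd D d hlt
  have h2D : w (2 * D - d) = w D := by
    rw [sub_eq_add_neg, hadd, map_mul, h2, one_mul]
    rw [map_neg_eq_map, map_mul, h2, one_mul]
    exact hlt
  have h2d : w (2 * d - D) = w D := by
    have : 2 * d - D = -D + 2 * d := by ring
    rw [this, hadd, map_neg_eq_map]
    rw [map_neg_eq_map, map_mul, h2, one_mul]
    exact hlt
  have hwb : w b = w D ^ 3 := by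
    have : b * 27 = (d + D) * (2 * D - d) * (2 * d - D) := by
      rw [hb, e1, e2, e3]
      field_simp
      ring
    have h5 := congrArg w this
    rw [map_mul, h27, mul_one, map_mul, map_mul, hdD, h2D, h2d] at h5
    rw [h5]
    ring
  have hwa : w a ≤ w D ^ 2 := by
    have : a * 3 = -(D ^ 2 + -(D * d) + d ^ 2) := by
      rw [ha, e1, e2, e3]
      field_simp
      ring
    have h5 := congrArg w this
    rw [map_mul, h3, mul_one, map_neg_eq_map] at h5
    rw [h5]
    have hdd : w d ≤ w D := hlt.le
    refine (hna _ _).trans (max_le ((hna _ _).trans (max_le ?_ ?_)) ?_)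
    · rw [map_pow]
    · rw [map_neg_eq_map, map_mul, pow_two]
      exact mul_le_mul_of_nonneg_left hdd hD0.le
    · rw [map_pow]
      exact pow_le_pow_left₀ (w.nonneg _) hdd 2
  have hkey : w (2 * a * e₁ + 3 * b) < w D ^ 3 := by
    have : (2 * a * e₁ + 3 * b) * 3 = d * D * (d + D) := by
      rw [ha, hb, e1, e2, e3]
      field_simp
      ring
    have h5 := congrArg w this
    rw [map_mul, h3, mul_one, map_mul, map_mul, hdD] at h5
    rw [h5]
    have : w d * w D * w D < w D * w D * w D := by
      have := mul_lt_mul_of_pos_right hlt (mul_pos hD0 hD0)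
      linarith
    calc w d * w D * w D < w D * w D * w D := this
      _ = w D ^ 3 := by ring
  have hx : w (2 * a * (x - e₁)) < w D ^ 3 := by
    rw [map_mul, map_mul, h2, one_mul]
    calc w a * w (x - e₁) ≤ w D ^ 2 * w (x - e₁) := mul_le_mul_of_nonneg_right hwa (w.nonneg _)
      _ < w D ^ 2 * w D := mul_lt_mul_of_pos_left hcon (pow_pos hD0 2)
      _ = w D ^ 3 := by ring
  have e5 : 2 * a * x + 3 * b = 2 * a * (x - e₁) + (2 * a * e₁ + 3 * b) := by ring
  rw [e5, hwb] at hgood
  have h6 := hna (2 * a * (x - e₁)) (2 * a * e₁ + 3 * b)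
  exact absurd (hgood.trans h6) (not_le.2 (max_lt hx hkey))

end Pool.Agent.D0H55.ON
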