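import Mathlib
import Pool.Agent.Y725.LS.Mult

/-!
# The pairing of two points in the identity component at a place of multiplicative reduction
-/

set_option autoImplicit false

open Real Finset Module NumberField Pool.Agent.H951R3.PB TH951.LS Pool.Agent.Y725.LS
open scoped IntermediateField

namespace Pool.Agent.D0H55.ON

universe u

variable {K : Type u} [Field K] [NumberField K] {W : WeierstrassCurve K} [W.IsElliptic]

/-- **the pairing of two points which do not reduce to the node** -/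
theorem pair_far (v : FinitePlace K) {w : AbsoluteValue (AlgebraicClosure K) ℝ}
    (hvw : Ext v.val w) (h2 : v.val 2 = 1) (hj : 1 < v.val W.j) :
    ∃ e₁ e₂ e₃ : AlgebraicClosure K, Roots (algebraMap K (AlgebraicClosure K) W.b₂)
      (algebraMap K (AlgebraicClosure K) W.b₄) (algebraMap K (AlgebraicClosure K) W.b₆)
      (algebraMap K (AlgebraicClosure K) W.b₈) e₁ e₂ e₃ ∧ w (e₃ - e₁) < w (e₂ - e₁) ∧
      ∀ x y : Fin 2 → K, wd x y ≠ 0 →
        w (e₂ - e₁) * w (vL K x 1) ≤ w (vL K x 0 - e₁ * vL K x 1) →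
        w (e₂ - e₁) * w (vL K y 1) ≤ w (vL K y 0 - e₁ * vL K y 1) →
        log (v.val W.j) / 6 ≤
        gg w (ev (fL K (fW W))) 4 (log (w (rs (fL K (fW W)) 4))) (vL K x) (vL K y) := by
  classical
  have hw := ext_na v w hvw
  have h2w : w (2 : AlgebraicClosure K) = 1 := by
    rw [← map_ofNat (algebraMap K (AlgebraicClosure K)) 2, hvw]; exact h2
  obtain ⟨e₁, e₂, e₃, h, hlt, hΛ⟩ := roots_lt (W := W) v hvw h2 hj
  obtain ⟨h0, h1⟩ := roots_l h
  have n21 : e₂ - e₁ ≠ 0 := sub_ne_zero.2 (Ne.symm h.n12)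
  have hp21 : 0 < w (e₂ - e₁) := w.pos n21
  refine ⟨e₁, e₂, e₃, h, ?_, ?_⟩
  · rw [map_div₀, div_lt_one hp21] at hlt
    exact hlt
  · intro x y hxy hx hy
    set l := (e₃ - e₁) / (e₂ - e₁) with hl
    set Λ := log (v.val W.j) / 2 with hΛdef
    have hΛ0 : 0 < Λ := by
      rw [hΛdef]
      have := Real.log_pos hj
      positivity
    have hab := roots_wd h
    have hfib := F4_fib (by norm_num : 1 ≤ 4) (fW_hom W) (fW_rs h) w
    have hc : ((e₂ - e₁) ^ 3)⁻¹ ≠ 0 := inv_ne_zero (pow_ne_zero 3 n21)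
    have hXY0 : wd (vL K x) (vL K y) ≠ 0 := wd_vL_ne hxy
    have hpos : ∀ X : Fin 2 → AlgebraicClosure K, X ≠ 0 →
        w (e₂ - e₁) * w (X 1) ≤ w (X 0 - e₁ * X 1) →
        pos w Λ (coo ![e₂ - e₁, 0] ![e₁, 1] X) = 0 := by
      intro X hX hXX
      rw [(coo_Psi e₁ e₂ _).resolve_right n21]
      have q0 : Psi e₁ e₂ X 0 = (X 0 - e₁ * X 1) / (e₂ - e₁) := rfl
      have q1 : Psi e₁ e₂ X 1 = X 1 := rfl
      apply pos_zero
      · rw [q0]
        apply div_ne_zero _ n21
        intro hz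
        rw [hz, map_zero] at hXX
        have h5 : X 1 = 0 := by
          by_contra hne
          have := mul_pos hp21 (w.pos hne)
          linarith
        rw [h5, mul_zero, sub_zero] at hz
        apply hX
        funext i
        fin_cases i
        · exact hz
        · exact h5
      · rw [q0, q1, map_div₀, le_div_iff₀ hp21, mul_comm]
        exact hXX
    have hX0 : vL K x ≠ 0 := by
      intro hz
      rw [hz] at hXY0
      simp [wd] at hXY0
    have hY0 : vL K y ≠ 0 := by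
      intro hz
      rw [hz] at hXY0
      simp [wd] at hXY0
    have px := hpos _ hX0 hx
    have py := hpos _ hY0 hy
    have e0 : log (v.val W.j) / 6 = neu Λ 0 0 := by
      unfold neu
      rw [hΛdef]
      simp only [max_self]
      ring
    rw [e0]
    set X := vL K x with hX
    set Y := vL K y with hY
    have hXY : wd X Y ≠ 0 := hXY0
    have hex : emb ![e₂ - e₁, 0] ![e₁, 1] (coo ![e₂ - e₁, 0] ![e₁, 1] X) = X := D2.emb_coo hab X
    have hey : emb ![e₂ - e₁, 0] ![e₁, 1] (coo ![e₂ - e₁, 0] ![e₁, 1] Y) = Y := D2.emb_coo hab Y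
    have hxy' : wd (coo ![e₂ - e₁, 0] ![e₁, 1] X) (coo ![e₂ - e₁, 0] ![e₁, 1] Y) ≠ 0 := by
      intro h0
      have := D2.wd_emb ![e₂ - e₁, 0] ![e₁, 1] (coo ![e₂ - e₁, 0] ![e₁, 1] X)
        (coo ![e₂ - e₁, 0] ![e₁, 1] Y)
      rw [hex, hey, h0, mul_zero] at this
      exact hXY this
    have k1 := gg_cj (by norm_num : 2 ≤ 4) hfib hab hxy'
    have k2 := gg_scale (by norm_num : 2 ≤ 4) (fib_cj hfib hab) hc hxy'
    rw [hex, hey] at k1
    rw [← k1, ← k2.2]
    obtain ⟨hfib', -⟩ := k2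
    have hev := roots_ev h
    rw [← hl] at hev
    rw [← hev] at hfib' ⊢
    have h9 := gg_leg hw h2w h0 hlt hΛ.symm hfib' hxy'
    rw [px, py] at h9
    exact h9

end Pool.Agent.D0H55.ON
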