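import Mathlib
import Pool.Agent.D0H55.ON.PosA
import Pool.Agent.D0H55.ON.PosB
import Pool.Agent.D0H55.ON.Tel

/-!
# Doubled points at the places of the new kind
-/

set_option autoImplicit false
set_option linter.unusedSectionVars false

open NumberField IsDedekindDomain Pool.Agent.H691R3 Pool.Agent.W223.AK
open Pool.Agent.Y733.LS Pool.Agent.TH942 Pool.Agent.TH910.LS
open Pool.Agent.H951R3.PB TH951.LS Pool.Agent.Y725.LS WeierstrassCurve

namespace Pool.Agent.D0H55.ON

variable {K : Type} [Field K] [NumberField K]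

theorem fv_max (v : FinitePlace K) : fv v.maximalIdeal = v.val := by
  unfold fv
  rw [FinitePlace.mk_maximalIdeal]

theorem sw_j {a b : K} (h : (sw a b).IsElliptic) : (sw a b).j = jj a b := by
  have hΔ : (sw a b).Δ ≠ 0 := by rw [← WeierstrassCurve.coe_Δ']; exact Units.ne_zero _
  have h1 : (sw a b).j * (sw a b).Δ = (sw a b).c₄ ^ 3 := by
    rw [WeierstrassCurve.j, ← (sw a b).coe_Δ', mul_comm, ← mul_assoc, Units.mul_inv, one_mul]
  have h2 : (sw a b).c₄ = -48 * a := by
    simp only [WeierstrassCurve.c₄, WeierstrassCurve.b₂, WeierstrassCurve.b₄, sw]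
    ring
  rw [sw_Δ, h2] at h1
  rw [sw_Δ] at hΔ
  have hd : 4 * a ^ 3 + 27 * b ^ 2 ≠ 0 := fun h0 => hΔ (by rw [h0, mul_zero])
  unfold jj
  rw [eq_div_iff hd]
  have h16 : (-16 : K) ≠ 0 := by norm_num
  apply mul_left_cancel₀ h16
  linear_combination h1

variable [DecidableEq K]

/-- a doubled point is far from the double root -/
theorem far_point {a b : K} (hD : dl a b ≠ 0) (v : FinitePlace K) (hOn : On a b v.maximalIdeal)
    {w : AbsoluteValue (AlgebraicClosure K) ℝ} (hvw : Ext v.val w)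
    {e₁ e₂ e₃ : AlgebraicClosure K} (hR : Roots (algebraMap K (AlgebraicClosure K) (sw a b).b₂)
      (algebraMap K (AlgebraicClosure K) (sw a b).b₄)
      (algebraMap K (AlgebraicClosure K) (sw a b).b₆)
      (algebraMap K (AlgebraicClosure K) (sw a b).b₈) e₁ e₂ e₃)
    (hlt : w (e₃ - e₁) < w (e₂ - e₁)) (P : SPt a b) :
    w (e₂ - e₁) * w (vL K ((2 : ℕ) • P).xRep 1) ≤
      w (vL K ((2 : ℕ) • P).xRep 0 - e₁ * vL K ((2 : ℕ) • P).xRep 1) := by
  by_cases hQ : (2 : ℕ) • P = 0
  · rw [hQ]
    simp only [vL, Affine.Point.xRep_zero]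
    simp
  · have hP : P ≠ 0 := by
      rintro rfl
      exact hQ (smul_zero _)
    obtain ⟨x, y, h, rfl⟩ := exists_coord P hP
    have hy : y ≠ 0 := fun h0 => hQ (dup_zero h h0)
    obtain ⟨hG, y', h', e⟩ := dup_some h hy
    rw [e]
    simp only [vL, Affine.Point.xRep_some]
    have hab : a ≠ 0 ∧ b ≠ 0 := by
      obtain ⟨h2, h3, f1, f2, f3, hns⟩ := hOn
      have hb : b ≠ 0 := by
        rintro rfl
        rw [map_zero, zero_pow two_ne_zero] at f2
        exact absurd f2 (not_lt.2 ((fv v.maximalIdeal).nonneg _))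
      refine ⟨?_, hb⟩
      rintro rfl
      rw [map_zero, zero_pow three_ne_zero] at f1
      have := pow_pos ((fv v.maximalIdeal).pos hb) 2
      linarith
    obtain ⟨h2, h3, f1, f2, f3, hns⟩ := hOn
    have hgood := odd_first (fv_Na v.maximalIdeal) h2 h3 hab.1 hab.2 hD f1 f2 f3 hns hy
      (sw_eqn.1 h.1)
    rw [fv_max] at hgood h2 h3
    have hw := ext_na v w hvw
    have h2w : w (2 : AlgebraicClosure K) = 1 := by
      rw [← map_ofNat (algebraMap K (AlgebraicClosure K)) 2, hvw]; exact h2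
    have h3w : w (3 : AlgebraicClosure K) = 1 := by
      rw [← map_ofNat (algebraMap K (AlgebraicClosure K)) 3, hvw]; exact h3
    set A := algebraMap K (AlgebraicClosure K) a with hA
    set B := algebraMap K (AlgebraicClosure K) b with hB
    have b2 : (sw a b).b₂ = 0 := by
      simp [WeierstrassCurve.b₂, sw]
    have b4 : (sw a b).b₄ = 2 * a := by
      simp [WeierstrassCurve.b₄, sw]
    have b6 : (sw a b).b₆ = 4 * b := by
      simp [WeierstrassCurve.b₆, sw]
    have q2 := hR.h2
    have q4 := hR.h4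
    have q6 := hR.h6
    rw [b2, map_zero] at q2
    rw [b4, map_mul, map_ofNat] at q4
    rw [b6, map_mul, map_ofNat] at q6
    have t2 : (2 : AlgebraicClosure K) ≠ 0 := by norm_num
    have t4 : (4 : AlgebraicClosure K) ≠ 0 := by norm_num
    have s1 : e₁ + e₂ + e₃ = 0 := by
      apply mul_left_cancel₀ t4
      linear_combination q2
    have s2 : A = e₁ * e₂ + e₁ * e₃ + e₂ * e₃ := by
      apply mul_left_cancel₀ t2
      linear_combination q4
    have s3 : B = -(e₁ * e₂ * e₃) := by
      apply mul_left_cancel₀ t4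
      linear_combination q6
    have hg : w B ≤ w (2 * A * algebraMap K (AlgebraicClosure K) (pF a b x / pG a b x) + 3 * B) := by
      have h5 : v.val b ≤ v.val (2 * a * (pF a b x / pG a b x) + 3 * b) := hgood
      rw [← hvw, ← hvw] at h5
      simpa only [map_add, map_mul, map_ofNat] using h5
    have := far_root hw h2w h3w s1 s2 s3 hlt hg
    simpa using this

/-- **the pairing of doubled points at the places of the new kind** -/
theorem on_pair {a b : K} (hD : dl a b ≠ 0) [(sw a b).IsElliptic] (v : FinitePlace K)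
    (hOn : On a b v.maximalIdeal)
    {w : AbsoluteValue (AlgebraicClosure K) ℝ} (hvw : Ext v.val w) (P Q : SPt a b)
    (hPQ : wd ((2 : ℕ) • P).xRep ((2 : ℕ) • Q).xRep ≠ 0) :
    Real.log (v.val (sw a b).j) / 6 ≤
        gg w (ev (fL K (fW (sw a b)))) 4 (Real.log (w (rs (fL K (fW (sw a b))) 4)))
          (vL K ((2 : ℕ) • P).xRep) (vL K ((2 : ℕ) • Q).xRep) := by
  have h2 : v.val 2 = 1 := by rw [← fv_max]; exact hOn.1
  have hj : 1 < v.val (sw a b).j := by
    rw [sw_j inferInstance, ← fv_max]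
    exact (hOn.jj_eq hD).2
  obtain ⟨e₁, e₂, e₃, hR, hlt, h⟩ := pair_far (W := sw a b) v hvw h2 hj
  exact h _ _ hPQ (far_point hD v hOn hvw hR hlt P) (far_point hD v hOn hvw hR hlt Q)

end Pool.Agent.D0H55.ON
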