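import Mathlib
import Pool.Agent.Y725.LS.Fam2

/-!
# Families of points with a large pairing at places which contribute a positive proportion of the
height of `j` (adapted from `Y725/LS/Fam2`)
-/

set_option autoImplicit false

open Height NumberField Module Finset Pool.Agent.H951R3.PB Filter Topology TH951.LS TH951
open Pool.Agent.Y725.LS

namespace Pool.Agent.D0H55.ON

universe u

/-- **Families of points.** -/
theorem familyV (D : ℕ) {η : ℝ} (hη : 0 < η) : ∃ (N : ℕ) (c A : ℝ), 0 < c ∧ 0 ≤ A ∧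
    ∀ (K : Type u) [Field K] [NumberField K] [DecidableEq K], finrank ℚ K ≤ D →
    ∀ (W : WeierstrassCurve K) [W.IsElliptic] (F V : Finset (FinitePlace K)),
    (∀ v ∈ F, ¬ GoodRed v.val W) →
    (∀ v ∈ V, v.val ((6 : ℕ) : K) = 1 ∧ 1 < v.val W.j) →
    η * logHeight₁ W.j ≤ ∑ v ∈ V, Real.log (v.val W.j) →
    A < logHeight₁ W.j / finrank ℚ K →
    ∀ ht : W.toAffine.Point → ℝ, (∀ Q : W.toAffine.Point,
      Tendsto (fun n : ℕ => logHeight ((2 ^ n • Q).xRep) / (4 ^ n * finrank ℚ K)) atTop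
        (𝓝 (ht Q))) →
    ∀ Q : Fin N → W.toAffine.Point, (∀ i k, i ≠ k → (Q i).xRep ≠ (Q k).xRep) →
      (∀ v ∈ V, ∀ w : AbsoluteValue (AlgebraicClosure K) ℝ, Ext v.val w → ∀ i k, i ≠ k →
        Real.log (v.val W.j) / 6 ≤ gg w (ev (fL K (fW W))) 4
          (Real.log (w (rs (fL K (fW W)) 4))) (vL K (Q i).xRep) (vL K (Q k).xRep)) →
      ∃ i, c * (logHeight₁ W.j / finrank ℚ K +
        (∑ v ∈ F, Real.log (NF.Nm v)) / finrank ℚ K) ≤ ht (Q i) := by
  classical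
  obtain ⟨N₂, C, hC, hEI⟩ := energy_ineq.{u} D
  have hkap := kap_pos
  obtain ⟨a, ha⟩ : ∃ a : ℝ, a = η / 64 := ⟨_, rfl⟩
  have ha0 : 0 < a := by rw [ha]; positivity
  obtain ⟨k, hk0, hkN, hka⟩ := exists_pow (b := 2 * C) ha0 (N₂ + 2)
  obtain ⟨n, hn⟩ : ∃ n : ℝ, n = (4 : ℝ) ^ k := ⟨_, rfl⟩
  have hn0 : 0 < n := by rw [hn]; positivity
  rw [← hn] at hka
  have hk1 : (1 : ℝ) ≤ k := by exact_mod_cast hk0
  have hn2 : 2 ≤ n := by
    have h1 : (2 : ℕ) ≤ 4 ^ k := by omega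
    rw [hn]; exact_mod_cast h1
  obtain ⟨C₄, hC₄⟩ : ∃ C₄ : ℝ, C₄ = C * (n + k) := ⟨_, rfl⟩
  have hC₄0 : 0 < C₄ := by rw [hC₄]; positivity
  obtain ⟨C₅, hC₅⟩ : ∃ C₅ : ℝ, C₅ = C₄ + C * (n + k) / (n * Pool.Agent.Y725.LS.kap) +
      2 * C * k / (n * Pool.Agent.Y725.LS.kap) * C₄ :=
    ⟨_, rfl⟩
  have hC₅0 : 0 < C₅ := by rw [hC₅]; positivity
  obtain ⟨A₂, hA₂, hEI⟩ := hEI 1 one_ne_zero
  obtain ⟨l, hl⟩ : ∃ l : ℝ, l = Real.log ((6 * 1 : ℕ) : ℝ) := ⟨_, rfl⟩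
  have hlog6 : 0 ≤ l := by rw [hl]; exact Real.log_natCast_nonneg _
  refine ⟨4 ^ k, 1 / (2 * C₄ + C₅), A₂ + l, by positivity, by positivity, ?_⟩
  intro K _ _ _ hKD W _ F V hF hV hSz hAj ht hlim Q hQ hQV
  have hd : (0 : ℝ) < finrank ℚ K := by exact_mod_cast (finrank_pos : 0 < finrank ℚ K)
  have hd1 : (1 : ℝ) ≤ finrank ℚ K := by exact_mod_cast (finrank_pos : 0 < finrank ℚ K)
  obtain ⟨d, hdd⟩ : ∃ d : ℝ, d = finrank ℚ K := ⟨_, rfl⟩
  obtain ⟨H, hH⟩ : ∃ H : ℝ, H = logHeight₁ W.j / finrank ℚ K := ⟨_, rfl⟩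
  have hdH : logHeight₁ W.j = d * H := by rw [hH, hdd]; field_simp
  have hH0 : 0 < H := by rw [hH]; linarith
  have hHA₂ : A₂ ≤ H := by rw [hH]; linarith
  have hH6 : l ≤ H := by rw [hH]; linarith
  haveI : Nonempty (Fin (4 ^ k)) := ⟨⟨0, by positivity⟩⟩
  obtain ⟨i₀, hi₀⟩ := Finite.exists_max (fun i => ht (Q i))
  obtain ⟨μ, hμ⟩ : ∃ μ : ℝ, μ = ht (Q i₀) := ⟨_, rfl⟩
  simp only [← hμ] at hi₀
  have hμ0 : 0 ≤ μ := by
    rw [hμ]
    refine ge_of_tendsto' (hlim (Q i₀)) fun n => ?_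
    have : 0 ≤ logHeight ((2 ^ n • Q i₀).xRep) := by
      rw [logHeight_eq_log_mulHeight]
      exact Real.log_nonneg (one_le_mulHeight _)
    positivity
  refine ⟨i₀, ?_⟩
  rw [← hH, ← hμ, ← hdd]
  rw [← hdd] at hd hd1
  choose wf hwf using fun v : FinitePlace K => exists_ext_fin v
  have hj0 : W.j ≠ 0 := by
    intro h
    rw [hH, h] at hH0
    simp at hH0
  set S : Finset (FinitePlace K) :=
    (F4_finite_ne hj0).toFinset.filter (fun v => v.val ((6 * 1 : ℕ) : K) = 1 ∧ 1 < v.val W.j)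
    with hSd
  have hS : ∀ v, v ∈ S ↔ v.val ((6 * 1 : ℕ) : K) = 1 ∧ 1 < v.val W.j := by
    intro v
    rw [hSd, Finset.mem_filter, Set.Finite.mem_toFinset, Set.mem_ofPred_eq]
    constructor
    · exact fun h => h.2
    · exact fun h => ⟨h.2.ne', h⟩
  obtain ⟨J, hJ⟩ : ∃ J : ℝ, J = ∑ v ∈ S, Real.log (v.val W.j) := ⟨_, rfl⟩
  have hJH : J ≤ d * H := by
    rw [← hdH, hJ]
    refine le_trans ?_ (FE.posLog_sum_le W.j S)
    have h1 : 0 ≤ ∑ v : InfinitePlace K, (v.mult : ℝ) * Real.posLog (v.val W.j) :=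
      Finset.sum_nonneg fun v _ => mul_nonneg (Nat.cast_nonneg _) Real.posLog_nonneg
    have h2 : ∑ v ∈ S, Real.log (v.val W.j) ≤ ∑ v ∈ S, Real.posLog (v.val W.j) :=
      Finset.sum_le_sum fun v _ => le_max_right _ _
    linarith
  have hdμ : 0 ≤ d * μ := by positivity
  have hdHp : 0 < d * H := by positivity
  have hA2H : A₂ ≤ d * H := hHA₂.trans (le_mul_of_one_le_left hH0.le hd1)
  -- conclusions from the energy inequality
  have hHμ : H ≤ C₄ * μ := by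
    have hfin : (d * H ≤ C * (n + k) * (d * μ)) → H ≤ C₄ * μ := by
      intro h
      have h1 : d * H ≤ d * (C * (n + k) * μ) := by linarith
      have h2 := le_of_mul_le_mul_left h1 hd
      rw [hC₄]
      exact h2
    apply hfin
    have hQ' := hEI K hKD W wf hwf ht hlim ∅ S V (fun v => Real.log (v.val W.j) / 32)
      (fun v hv => absurd hv (Finset.notMem_empty v)) hS
      (fun v hv => (hV v hv).1) k hk0
      (by omega) Q hQ (fun v hv i k hik => by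
        refine le_trans ?_ (hQV v hv (wf v) (hwf v) i k hik)
        have := Real.log_pos (hV v hv).2
        linarith) μ hμ0
      (fun i => hi₀ _) 0
    rw [Finset.sum_empty, ← hn, ← hJ, ← hdd, ← Finset.sum_div] at hQ'
    exact num_2 hn2 (by linarith) hC hdHp.le hη (le_of_eq ha) hka hJH hA2H
      (by rw [← hdH]; exact hSz) (by ring) hQ'
  -- all bad places
  have hX : ∑ v ∈ F, Real.log (NF.Nm v) ≤ C₅ * (d * μ) + d * (C₄ * μ) := by
    set X := F.filter (fun v => v.val ((6 * 1 : ℕ) : K) = 1) with hX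
    obtain ⟨x, hx⟩ : ∃ x : ℝ, x = ∑ v ∈ X, Real.log (NF.Nm v) := ⟨_, rfl⟩
    rw [← Finset.sum_filter_add_sum_filter_not F (fun v => v.val ((6 * 1 : ℕ) : K) = 1), ← hX,
      ← hx]
    have hQ' := hEI K hKD W wf hwf ht hlim X S ∅ (fun _ => 0) (fun v hv => by
        obtain ⟨h6, h7⟩ := Finset.mem_filter.1 hv
        exact ⟨hF v h6, h7, Finset.notMem_empty v⟩) hS
      (fun v hv => absurd hv (Finset.notMem_empty v)) k hk0
      (by omega) Q hQ (fun v hv => absurd hv (Finset.notMem_empty v)) μ hμ0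
      (fun i => hi₀ _) 1
    rw [Finset.sum_empty, mul_zero, add_zero, ← hn, ← hJ, ← hx, ← hdd] at hQ'
    refine add_le_add ?_ ?_
    · exact num_3 hn0 (by linarith) hC hkap hJH hA2H (by
        have := mul_le_mul_of_nonneg_left hHμ hd.le
        linarith) hC₅ hQ'
    · have := sum_Nm_le (K := K) (m := 6 * 1) (by positivity)
        (F.filter (fun v => ¬ v.val ((6 * 1 : ℕ) : K) = 1))
        (fun v hv => (Finset.mem_filter.1 hv).2)
      rw [← hdd, ← hl] at this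
      refine this.trans ?_
      exact mul_le_mul_of_nonneg_left (hH6.trans hHμ) hd.le
  have hfin : H + (∑ v ∈ F, Real.log (NF.Nm v)) / d ≤ (2 * C₄ + C₅) * μ := by
    have e1 : (∑ v ∈ F, Real.log (NF.Nm v)) / d ≤ C₅ * μ + C₄ * μ := by
      rw [div_le_iff₀ hd]
      linarith
    have e2 : (2 * C₄ + C₅) * μ = C₄ * μ + (C₅ * μ + C₄ * μ) := by ring
    rw [e2]
    linarith
  rw [one_div_mul_eq_div, div_le_iff₀ (by positivity)]
  linarith

end Pool.Agent.D0H55.ON
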