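import Mathlib
import Pool.Agent.D0H55.ON.PosC
import Pool.Agent.D0H55.ON.PosD
import Pool.Agent.D0H55.ON.Fi

/-!
# The lower bound if the places of the new kind contribute a positive proportion
-/

set_option autoImplicit false
set_option linter.unusedSectionVars false

open NumberField IsDedekindDomain Finset Pool.Agent.H691R3 Pool.Agent.W223.AK
open Pool.Agent.Y733.LS Pool.Agent.TH942 Pool.Agent.TH910.LS
open Pool.Agent.H951R3.PB TH951.LS TH951 Pool.Agent.Y725.LS WeierstrassCurve Filter Topology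

namespace Pool.Agent.D0H55.ON

section One

variable {K : Type} [Field K] [NumberField K] [DecidableEq K]

/-- a family of multiples -/
theorem of_fam {a b : K} (hD : dl a b ≠ 0) {N : ℕ} {C : ℝ} (hC : 0 < C)
    (hmain : ∀ R : Fin N → SPt a b,
      (∀ i k, i ≠ k → ((2 : ℕ) • R i).xRep ≠ ((2 : ℕ) • R k).xRep) →
      ∃ i, C ≤ chat ((2 : ℕ) • R i)) (P : SPt a b) :
    (∃ n : ℕ, 0 < n ∧ n ≤ 4 * N ∧ n • P = 0) ∨ C ≤ 4 * (N : ℝ) ^ 2 * chat P := by
  by_cases hcon : ∃ n : ℕ, 0 < n ∧ n ≤ 4 * N ∧ n • P = 0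
  · exact Or.inl hcon
  right
  push Not at hcon
  obtain ⟨i, hi⟩ := hmain (fun i => ((i : ℕ) + 1) • P) (by
    intro i k hik h
    have h2 := WeierstrassCurve.Affine.Point.xRep_eq_xRep_iff.1 h
    have hi := i.2
    have hk := k.2
    simp only [← mul_smul] at h2
    have key : ∀ a' b' : ℕ, a' < b' → b' ≤ 2 * N → (a' • P = b' • P ∨ a' • P = -(b' • P)) →
        False := by
      intro a' b' hab hbN h3
      rcases h3 with h3 | h3
      · refine hcon (b' - a') (by omega) (by omega) ?_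
        have h4 : b' • P = (b' - a') • P + a' • P := by rw [← add_nsmul]; congr 1; omega
        rw [h3] at h4
        exact (left_eq_add.1 (h4.trans (add_comm _ _)))
      · refine hcon (a' + b') (by omega) (by omega) ?_
        rw [add_nsmul, h3, neg_add_cancel]
    rcases lt_trichotomy (i : ℕ) (k : ℕ) with h3 | h3 | h3
    · exact key (2 * (i + 1)) (2 * (k + 1)) (by omega) (by omega) h2
    · exact hik (Fin.ext h3)
    · refine key (2 * (k + 1)) (2 * (i + 1)) (by omega) (by omega) ?_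
      rcases h2 with h4 | h4
      · exact Or.inl h4.symm
      · right; rw [h4, neg_neg])
  obtain ⟨-, hnn, hpar, -⟩ := chat_spec (a := a) (b := b) hD
  rw [← mul_smul, q_nsmul hpar] at hi
  refine hi.trans (mul_le_mul_of_nonneg_right ?_ (hnn P))
  have h1 : ((i : ℕ) : ℝ) + 1 ≤ N := by exact_mod_cast i.2
  have h2 : (0 : ℝ) ≤ ((i : ℕ) : ℝ) := Nat.cast_nonneg _
  push_cast
  nlinarith

/-- bad reduction -/
theorem bad_not_good {a b : K} (hD : dl a b ≠ 0) (v : Pr K) (h6 : fv v 6 = 1)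
    (hbad : BadAt a b v) : ¬ GoodRed (fv v) (sw a b) := by
  rintro ⟨C, h1, h2, h3, h4, h5, hΔ⟩
  have hna := fv_Na v
  have e2' : fv v (2 : K) ≤ 1 := (fv_Na v).ofNat 2
  have e3' : fv v (3 : K) ≤ 1 := (fv_Na v).ofNat 3
  have e6 : fv v (2 : K) * fv v (3 : K) = 1 := by
    rw [← map_mul, ← h6]
    norm_num
  have p3 : 0 < fv v (3 : K) := (fv v).pos (by norm_num)
  have f2 : fv v (2 : K) = 1 := by
    apply le_antisymm e2'
    nlinarith
  have h16 : fv v (-16 : K) = 1 := by
    have : (-16 : K) = -(2 ^ 4) := by norm_num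
    rw [this, map_neg_eq_map, map_pow, f2, one_pow]
  have hell := sw_ell (a := a) (b := b) hD
  have hΔ0 : (sw a b).Δ ≠ 0 := by rw [← WeierstrassCurve.coe_Δ']; exact Units.ne_zero _
  have hd : fv v (sw a b).Δ = fv v (dl a b) := by
    rw [sw_Δ, map_mul, h16, one_mul]
    rfl
  have hu : fv v (dl a b) = fv v (C.u : K) ^ 12 := by
    rw [WeierstrassCurve.variableChange_Δ, map_mul, map_pow] at hΔ
    rw [← hd, ← map_pow]
    have hu0 : ((C.u : Kˣ) : K) ≠ 0 := Units.ne_zero _
    have h7 : ((C.u⁻¹ : Kˣ) : K) = (C.u : K)⁻¹ := Units.val_inv_eq_inv_val _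
    rw [h7, map_inv₀] at hΔ
    have h8 : fv v (C.u : K) ≠ 0 := ((fv v).pos hu0).ne'
    field_simp at hΔ
    rw [map_pow]
    linarith
  rcases hbad with h | h
  · exact h _ hu
  · -- the invariant is integral
    have hc4 : fv v (C • sw a b).c₄ ≤ 1 := by
      have g : ∀ n : ℕ, fv v (n : K) ≤ 1 := fun n => hna.nat n
      have m : ∀ x y : K, fv v x ≤ 1 → fv v y ≤ 1 → fv v (x * y) ≤ 1 := fun x y hx hy => by
        rw [map_mul]
        exact mul_le_one₀ hx ((fv v).nonneg _) hy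
      have s : ∀ x y : K, fv v x ≤ 1 → fv v y ≤ 1 → fv v (x + y) ≤ 1 := fun x y hx hy =>
        (hna x y).trans (max_le hx hy)
      have o2 : fv v (2 : K) ≤ 1 := f2.le
      have o4 : fv v (4 : K) ≤ 1 := hna.ofNat 4
      have o24 : fv v (24 : K) ≤ 1 := hna.ofNat 24
      have b2 : fv v (C • sw a b).b₂ ≤ 1 := by
        rw [WeierstrassCurve.b₂, pow_two]
        exact s _ _ (m _ _ h1 h1) (m _ _ o4 h2)
      have b4 : fv v (C • sw a b).b₄ ≤ 1 := by
        rw [WeierstrassCurve.b₄]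
        exact s _ _ (m _ _ o2 h4) (m _ _ h1 h3)
      rw [WeierstrassCurve.c₄, sub_eq_add_neg, pow_two]
      refine s _ _ (m _ _ b2 b2) ?_
      rw [map_neg_eq_map]
      exact m _ _ o24 b4
    have hj : (sw a b).j * (sw a b).Δ = (sw a b).c₄ ^ 3 := by
      rw [WeierstrassCurve.j, ← (sw a b).coe_Δ', mul_comm, ← mul_assoc, Units.mul_inv, one_mul]
    have hj2 : fv v (sw a b).j = fv v (C • sw a b).c₄ ^ 3 := by
      have h7 : ((C.u⁻¹ : Kˣ) : K) = (C.u : K)⁻¹ := Units.val_inv_eq_inv_val _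
      have hu0 : 0 < fv v ((C.u : Kˣ) : K) := (fv v).pos (Units.ne_zero _)
      rw [WeierstrassCurve.variableChange_c₄, h7, map_mul, map_pow, map_inv₀, mul_pow,
        ← map_pow (fv v) (sw a b).c₄, ← hj, map_mul, hd, hu]
      field_simp
    rw [sw_j hell] at hj2
    have : fv v (jj a b) ≤ 1 := by
      rw [hj2]
      exact pow_le_one₀ ((fv v).nonneg _) hc4
    linarith

end One

theorem log_ht {K : Type} [Field K] [NumberField K] (j : K) : Height.logHeight₁ j = ht j := by
  rw [logHeight_eq, ht_eq_Sa]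

theorem nm_eq {K : Type} [Field K] [NumberField K] (v : FinitePlace K) :
    (NF.Nm v : ℝ) = Nv v.maximalIdeal := rfl

/-- **the lower bound for one curve** -/
theorem point_bound (D : ℕ) {η : ℝ} (hη : 0 < η) : ∃ (N : ℕ) (c B : ℝ), 0 < c ∧ 0 ≤ B ∧
    ∀ (K : Type) [Field K] [NumberField K] [DecidableEq K], Module.finrank ℚ K ≤ D →
    ∀ a b : K, dl a b ≠ 0 → η * ht (jj a b) ≤ on a b → B ≤ ht (jj a b) →
    ∀ S : Finset (Pr K), (∀ v ∈ S, BadAt a b v) → ∀ P : SPt a b,
      (∃ n : ℕ, 0 < n ∧ n ≤ N ∧ n • P = 0) ∨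
        c * (Module.finrank ℚ K + ht (jj a b) + ∑ v ∈ S, Real.log (Nv v)) ≤ chat P := by
  classical
  obtain ⟨N, c, A, hc, hA, hfam⟩ := familyV.{0} D hη
  have hl6 : 0 < Real.log 6 := Real.log_pos (by norm_num)
  refine ⟨4 * N, c / (8 * ((N : ℝ) + 1) ^ 2), (D + 1) * (A + 1 + Real.log 6), by positivity,
    by positivity, ?_⟩
  intro K _ _ _ hK a b hD hon hB S hS P
  have hn : (0 : ℝ) < Module.finrank ℚ K := by exact_mod_cast Module.finrank_pos
  have hnD : (Module.finrank ℚ K : ℝ) ≤ D := by exact_mod_cast hK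
  haveI hell : (sw a b).IsElliptic := sw_ell hD
  have hj : (sw a b).j = jj a b := sw_j hell
  obtain ⟨nK, hnK⟩ : ∃ nK : ℝ, nK = Module.finrank ℚ K := ⟨_, rfl⟩
  obtain ⟨H, hH⟩ : ∃ H : ℝ, H = ht (jj a b) := ⟨_, rfl⟩
  have hHn : nK * (A + 1 + Real.log 6) ≤ H := by
    rw [hH, hnK]
    refine le_trans ?_ hB
    exact mul_le_mul_of_nonneg_right (by linarith) (by positivity)
  rw [← hnK] at hn
  have hlim : ∀ Q : SPt a b, Tendsto (fun n : ℕ =>
      Height.logHeight ((2 ^ n • Q).xRep) / (4 ^ n * Module.finrank ℚ K)) atTop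
      (𝓝 (chat Q / nK)) := by
    intro Q
    have h := ((chat_spec (a := a) (b := b) hD).1 Q).div_const nK
    refine h.congr fun n => ?_
    rw [div_div, hnK]
    rfl
  -- the bad places outside six
  set S₆ := S.filter (fun v => fv v (6 : K) = 1) with hS₆
  set F : Finset (FinitePlace K) := S₆.image (fun v => FinitePlace.mk v) with hF
  have hmk : ∀ v : Pr K, (FinitePlace.mk v).maximalIdeal = v := fun v =>
    FinitePlace.maximalIdeal_mk v
  have hinj : ∀ T : Finset (Pr K), Set.InjOn (fun v : Pr K => FinitePlace.mk v) (T : Set (Pr K)) := by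
    intro T v _ v' _ h
    rw [← hmk v, ← hmk v']
    exact congrArg _ h
  have hFbad : ∀ v ∈ F, ¬ GoodRed v.val (sw a b) := by
    intro v hv
    rw [hF, Finset.mem_image] at hv
    obtain ⟨u, hu, rfl⟩ := hv
    rw [hS₆, Finset.mem_filter] at hu
    exact bad_not_good hD u hu.2 (hS u hu.1)
  have hFsum : ∑ v ∈ F, Real.log (NF.Nm v) = ∑ v ∈ S₆, Real.log (Nv v) := by
    rw [hF, Finset.sum_image (hinj S₆)]
    refine Finset.sum_congr rfl fun v _ => ?_
    rw [nm_eq, hmk]
  have hSsum : ∑ v ∈ S, Real.log (Nv v) ≤ ∑ v ∈ S₆, Real.log (Nv v) + nK * Real.log 6 := by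
    rw [← Finset.sum_filter_add_sum_filter_not S (fun v => fv v (6 : K) = 1)]
    refine add_le_add le_rfl ?_
    have h1 := sum_Nm_le (K := K) (m := 6) (by norm_num)
      ((S.filter (fun v => ¬ fv v (6 : K) = 1)).image (fun v => FinitePlace.mk v)) (by
        intro v hv
        rw [Finset.mem_image] at hv
        obtain ⟨u, hu, rfl⟩ := hv
        have h2 := (Finset.mem_filter.1 hu).2
        intro h3
        apply h2
        have h4 : ((6 : ℕ) : K) = 6 := by norm_num
        rw [h4] at h3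
        exact h3)
    rw [Finset.sum_image (hinj _), ← hnK] at h1
    refine le_trans (le_of_eq ?_) (h1.trans (le_of_eq ?_))
    · refine Finset.sum_congr rfl fun v _ => ?_
      rw [nm_eq, hmk]
    · norm_num
  -- the places of the new kind
  set V₀ : Finset (Pr K) := (Fin_On hD).toFinset with hV₀
  have hV₀m : ∀ v, v ∈ V₀ ↔ On a b v := fun v => by
    rw [hV₀, Set.Finite.mem_toFinset]
    rfl
  set V : Finset (FinitePlace K) := V₀.image (fun v => FinitePlace.mk v) with hV
  have hVon : ∀ v ∈ V, On a b v.maximalIdeal := by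
    intro v hv
    rw [hV, Finset.mem_image] at hv
    obtain ⟨u, hu, rfl⟩ := hv
    rw [hmk]
    exact (hV₀m u).1 hu
  have hVsum : ∑ v ∈ V, Real.log (v.val (sw a b).j) = on a b := by
    rw [hV, Finset.sum_image (hinj V₀)]
    unfold on
    rw [finsum_eq_sum_of_support_subset (s := V₀)]
    · refine Finset.sum_congr rfl fun v hv => ?_
      rw [if_pos ((hV₀m v).1 hv), hj]
      rfl
    · intro v hv
      rw [Function.mem_support] at hv
      rw [Finset.mem_coe, hV₀m]
      by_contra hcon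
      exact hv (if_neg hcon)
  have hF0 : 0 ≤ ∑ v ∈ S₆, Real.log (Nv v) := Finset.sum_nonneg fun v _ => (log_Nv_pos v).le
  have hH0 : 0 < H := lt_of_lt_of_le (by positivity) hHn
  have hmain : ∀ R : Fin N → SPt a b,
      (∀ i k, i ≠ k → ((2 : ℕ) • R i).xRep ≠ ((2 : ℕ) • R k).xRep) →
      ∃ i, c * (H + ∑ v ∈ S₆, Real.log (Nv v)) ≤ chat ((2 : ℕ) • R i) := by
    intro R hR
    obtain ⟨i, hi⟩ := hfam K hK (sw a b) F V hFbad (fun v hv => by
        have h1 := hVon v hv
        have h2 := (h1.jj_eq hD).2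
        rw [fv_max] at h2
        refine ⟨?_, by rw [hj]; exact h2⟩
        have h3 : ((6 : ℕ) : K) = 2 * 3 := by norm_num
        have h4 := h1.1
        have h5 := h1.2.1
        rw [fv_max] at h4 h5
        rw [h3, map_mul, h4, h5, one_mul]) (by
        rw [hVsum, hj, log_ht]
        exact hon) (by
        rw [hj, log_ht, ← hH, ← hnK, lt_div_iff₀ hn]
        have : 0 < nK * (1 + Real.log 6) := by positivity
        linarith) _ hlim (fun i => (2 : ℕ) • R i) hR (fun v hv w hw i k hik =>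
          on_pair hD v (hVon v hv) hw (R i) (R k) (wd_xRep (sw a b) (hR i k hik)))
    refine ⟨i, ?_⟩
    rw [hj, log_ht, ← hH, ← hnK, hFsum, ← add_div, ← mul_div_assoc,
      div_le_div_iff_of_pos_right hn] at hi
    exact hi
  rcases of_fam hD (mul_pos hc (by linarith)) hmain P with h | h
  · exact Or.inl h
  · right
    rw [← hnK, ← hH, div_mul_eq_mul_div, div_le_iff₀ (by positivity)]
    have hchat : 0 ≤ chat P := (chat_spec (a := a) (b := b) hD).2.1 P
    have h1 : c * (nK + H + ∑ v ∈ S, Real.log (Nv v)) ≤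
        c * (2 * (H + ∑ v ∈ S₆, Real.log (Nv v))) := by
      apply mul_le_mul_of_nonneg_left _ hc.le
      have : 0 ≤ nK * A := by positivity
      linarith
    have h2 : 4 * (N : ℝ) ^ 2 * chat P ≤ 4 * ((N : ℝ) + 1) ^ 2 * chat P := by
      apply mul_le_mul_of_nonneg_right _ hchat
      nlinarith [Nat.cast_nonneg (α := ℝ) N]
    linarith

open Pool.Agent.TH876.FH (IsPeriod arch) in
/-- **the strong form for the powers of the curve** -/
theorem strongV (D : ℕ) {η : ℝ} (hη : 0 < η) : ∃ (N : ℕ) (c B : ℝ), 0 < c ∧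
    ∀ (K : Type) [Field K] [NumberField K] [DecidableEq K], Module.finrank ℚ K ≤ D →
    ∀ a b : K, dl a b ≠ 0 → η * ht (jj a b) ≤ on a b → B ≤ ht (jj a b) →
    ∀ (g : ℕ) (M : Matrix (Fin g) (Fin g) ℤ), (M.map (Int.cast : ℤ → ℝ)).PosDef →
    ∀ P : Fin g → SPt a b, (∃ n : ℕ, 0 < n ∧ n ≤ N ∧ n • P = 0) ∨
      ((∀ τ : InfinitePlace K → UpperHalfPlane, IsPeriod (jj a b) τ →
        c * (Pool.Agent.Y733.FF.discSum (sw a b) +
          ∑ w : InfinitePlace K, (w.mult : ℝ) * arch (τ w)) ≤ chatM M P) ∧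
      c * (Module.finrank ℚ K + ht (jj a b)) ≤ chatM M P) := by
  classical
  obtain ⟨N, c, B, hc, hB, h⟩ := point_bound D hη
  obtain ⟨C, hC, hfal⟩ := Pool.Agent.Y733.FF.fal_le
  refine ⟨N.factorial, c / (10 + C), B, by positivity, ?_⟩
  intro K _ _ _ hK a b hD hon hBH g M hM P
  have hn : (0 : ℝ) < Module.finrank ℚ K := by exact_mod_cast Module.finrank_pos
  have hH : 0 ≤ ht (jj a b) := ht_nonneg _
  have hpos : ∀ S : Finset (Pr K), 0 < c * (Module.finrank ℚ K + ht (jj a b) +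
      ∑ v ∈ S, Real.log (Nv v)) := by
    intro S
    have : 0 ≤ ∑ v ∈ S, Real.log (Nv v) := Finset.sum_nonneg fun v _ => (log_Nv_pos v).le
    positivity
  by_cases hP : IsOfFinAddOrder P
  · left
    refine ⟨N.factorial, Nat.factorial_pos _, le_rfl, ?_⟩
    funext i
    rw [Pi.smul_apply, Pi.zero_apply]
    have hi : IsOfFinAddOrder (P i) := by
      rw [isOfFinAddOrder_iff_nsmul_eq_zero] at hP ⊢
      obtain ⟨m, hm, hm'⟩ := hP
      refine ⟨m, hm, ?_⟩
      have := congrFun hm' i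
      simpa using this
    rcases h K hK a b hD hon hBH ∅ (by simp) (P i) with h1 | h1
    · obtain ⟨m, hm0, hmN, hm⟩ := h1
      obtain ⟨q, hq⟩ := Nat.dvd_factorial hm0 hmN
      rw [hq, mul_comm, mul_smul, hm, smul_zero]
    · rw [tors_zero hD hi] at h1
      exact absurd (hpos ∅) (not_lt.2 h1)
  · right
    obtain ⟨Q, -, hQ, hQM⟩ := reduction (a := a) (b := b) hD M hM P hP
    have hQ0 : ¬ ∃ n : ℕ, 0 < n ∧ n ≤ N ∧ n • Q = 0 := by
      rintro ⟨n, hn0, -, hnQ⟩
      exact hQ (isOfFinAddOrder_iff_nsmul_eq_zero.2 ⟨n, hn0, hnQ⟩)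
    have key : ∀ S : Finset (Pr K), (∀ v ∈ S, BadAt a b v) →
        c * (Module.finrank ℚ K + ht (jj a b) + ∑ v ∈ S, Real.log (Nv v)) ≤ chatM M P := by
      intro S hS
      exact ((h K hK a b hD hon hBH S hS Q).resolve_left hQ0).trans hQM
    have h10 : 0 < 10 + C := by positivity
    constructor
    · intro τ hτ
      obtain ⟨S, hS, h1⟩ := hfal K _ _ τ hD hτ
      refine le_trans ?_ (key S hS)
      have h4 : 0 ≤ ∑ v ∈ S, Real.log (Nv v) := Finset.sum_nonneg fun v _ => (log_Nv_pos v).le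
      rw [div_mul_eq_mul_div, div_le_iff₀ h10, mul_assoc]
      apply mul_le_mul_of_nonneg_left _ hc.le
      nlinarith
    · have h2 := key ∅ (by simp)
      rw [Finset.sum_empty, add_zero] at h2
      refine le_trans ?_ h2
      apply mul_le_mul_of_nonneg_right _ (by positivity)
      rw [div_le_iff₀ h10]
      nlinarith

end Pool.Agent.D0H55.ON
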