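import Mathlib
import Pool.Agent.D0H55.ON.Fi

/-!
# Twists without split multiplicative reduction, and the number of the exceptional invariants
-/

set_option autoImplicit false
set_option linter.unusedSectionVars false

namespace Pool.Agent.D0H55.ON

open NumberField IsDedekindDomain Finset Pool.Agent.H691R3 Pool.Agent.W223.AK
open Pool.Agent.Y733.LS Pool.Agent.Y733.UD Pool.Agent.TH942 Pool.Agent.TH910.LS

section One

variable {K : Type} [Field K] [NumberField K]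

theorem jj_twist {a b d : K} (hd : d ≠ 0) : jj (a * d ^ 2) (b * d ^ 3) = jj a b := by
  have h : (4 : K) * (a * d ^ 2) ^ 3 + 27 * (b * d ^ 3) ^ 2 = (4 * a ^ 3 + 27 * b ^ 2) * d ^ 6 := by
    ring
  unfold jj
  rw [h]
  have h2 : 6912 * (a * d ^ 2) ^ 3 = (6912 * a ^ 3) * d ^ 6 := by ring
  rw [h2, mul_div_mul_right _ _ (pow_ne_zero 6 hd)]

theorem dl_twist (a b d : K) : dl (a * d ^ 2) (b * d ^ 3) = dl a b * d ^ 6 := by
  unfold dl
  ring

theorem root_twist {a b d : K} (hd : d ≠ 0) (h : ∀ x : K, x ^ 3 + a * x + b ≠ 0) :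
    ∀ x : K, x ^ 3 + a * d ^ 2 * x + b * d ^ 3 ≠ 0 := by
  intro x hx
  apply h (x / d)
  have e : (x / d) ^ 3 + a * (x / d) + b = (x ^ 3 + a * d ^ 2 * x + b * d ^ 3) / d ^ 3 := by
    field_simp
  rw [e, hx, zero_div]

/-- an element of odd valuation is not near a square -/
theorem odd_ns (v : Pr K) {c : K} {n : ℤ} (h : fv v c = (Nv v) ^ n) (hn : Odd n) :
    ∀ z : K, fv v c ≤ fv v (z ^ 2 + c) := by
  intro z
  have h1 := (par_iff v h).2 hn z
  have hN := fv_Na v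
  rcases lt_or_gt_of_ne h1 with h2 | h2
  · rw [add_comm, hN.eq]
    rw [map_pow]
    exact h2
  · rw [hN.eq]
    · rw [map_pow]
      exact h2.le
    · rw [map_pow]
      exact h2

/-- members of `v ^ 2` -/
theorem fv_sq (v : Pr K) (r : 𝓞 K) (h : r ∈ v.asIdeal ^ 2) : fv v (r : K) ≤ (Nv v) ^ (-2 : ℤ) := by
  rcases eq_or_ne r 0 with rfl | hr
  · have e : ((0 : 𝓞 K) : K) = 0 := rfl
    rw [e, map_zero]
    exact (zpow_pos (Nv_pos v) _).le
  have h1 := (v.intValuation_le_pow_iff_mem r 2).2 h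
  have h2 : v.valuation K (r : K) ≤ WithZero.exp (-((2 : ℕ) : ℤ)) := by
    have h3 : v.valuation K (r : K) = v.intValuation r := v.valuation_of_algebraMap r
    rw [h3]
    exact h1
  have hr' : (r : K) ≠ 0 := by exact_mod_cast hr
  have hx1 : v.valuation K (r : K) ≠ 0 := (Valuation.ne_zero_iff _).mpr hr'
  obtain ⟨n, hn⟩ : ∃ n : ℤ, v.valuation K (r : K) = WithZero.exp n :=
    ⟨WithZero.log (v.valuation K (r : K)), (WithZero.exp_log hx1).symm⟩
  rw [hn, WithZero.exp_le_exp] at h2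
  rw [fv_exp v hn]
  exact zpow_le_zpow_right₀ (Nv_one_lt v).le (by push_cast at h2; exact h2)

/-- **a full residue class of twists has no split multiplicative reduction at the simple poles** -/
theorem twists {a b : K} (ha : a ≠ 0) (hb : b ≠ 0) (hD : dl a b ≠ 0)
    (hex : ∃ v, Sp (jj a b) v) :
    ∃ (𝔪 : Ideal (𝓞 K)) (d₀ : 𝓞 K), 𝔪 ≠ ⊥ ∧ ∀ d : 𝓞 K, d - d₀ ∈ 𝔪 → (d : K) ≠ 0 ∧
      ∀ v, Sp (jj a b) v → On (a * (d : K) ^ 2) (b * (d : K) ^ 3) v := by
  classical
  have hfin : {v : Pr K | Sp (jj a b) v}.Finite := by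
    refine (ne_sets (one_ne_zero) (one_ne_zero) (jj a b)).subset ?_
    intro v hv
    right
    right
    have h : fv v (jj a b) = Nv v := hv.2.2
    show 1 < fv v (jj a b)
    rw [h]
    exact Nv_one_lt v
  set S : Finset (Pr K) := hfin.toFinset with hS
  have hmem : ∀ v, v ∈ S ↔ Sp (jj a b) v := fun v => by
    rw [hS, Set.Finite.mem_toFinset]
    rfl
  have hab : 2 * (a * b) ≠ 0 := mul_ne_zero two_ne_zero (mul_ne_zero ha hb)
  -- the local choice
  have hloc : ∀ v : Pr K, ∃ ρ : 𝓞 K, ∃ k n : ℤ, fv v (2 * (a * b)) = (Nv v) ^ n ∧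
      fv v (ρ : K) = (Nv v) ^ k ∧ -1 ≤ k ∧ Odd (n + k) := by
    intro v
    obtain ⟨n, hn⟩ := fv_zpow v hab
    rcases Int.even_or_odd n with h | h
    · obtain ⟨π, hπ⟩ := v.intValuation_exists_uniformizer
      refine ⟨π, -1, n, hn, ?_, le_rfl, ?_⟩
      · apply fv_exp
        have h3 : v.valuation K (π : K) = v.intValuation π := v.valuation_of_algebraMap π
        rw [h3, hπ]
      · exact h.add_odd ⟨-1, by norm_num⟩
    · refine ⟨1, 0, n, hn, ?_, by norm_num, by rw [add_zero]; exact h⟩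
      rw [zpow_zero]
      have e : ((1 : 𝓞 K) : K) = 1 := rfl
      rw [e, map_one]
  choose ρ k n hn hk hk1 hodd using hloc
  obtain ⟨d₀, hd₀⟩ := IsDedekindDomain.exists_forall_sub_mem_ideal (s := S)
    (fun v : Pr K => v.asIdeal) (fun _ => 2) (fun v _ => v.prime)
    (fun v _ v' _ hne h => hne (HeightOneSpectrum.ext h)) (fun v => ρ v.1)
  refine ⟨∏ v ∈ S, v.asIdeal ^ 2, d₀, ?_, ?_⟩
  · rw [Ne, ← Ideal.zero_eq_bot, Finset.prod_eq_zero_iff]
    push Not
    intro v _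
    exact pow_ne_zero 2 v.ne_bot
  · intro d hd
    have hval : ∀ v ∈ S, fv v (d : K) = (Nv v) ^ k v := by
      intro v hv
      have h1 : d - d₀ ∈ v.asIdeal ^ 2 :=
        (Ideal.prod_le_inf.trans (Finset.inf_le hv)) hd
      have h2 : d - ρ v ∈ v.asIdeal ^ 2 := by
        have := Ideal.add_mem _ h1 (hd₀ v hv)
        rwa [sub_add_sub_cancel] at this
      have h3 := fv_sq v _ h2
      have e : (d : K) = (ρ v : K) + ((d - ρ v : 𝓞 K) : K) := by
        push_cast
        ring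
      rw [e, (fv_Na v).eq, hk]
      rw [hk]
      refine h3.trans_lt ?_
      exact zpow_lt_zpow_right₀ (Nv_one_lt v) (by have := hk1 v; omega)
    obtain ⟨v₀, hv₀⟩ := hex
    have hd0 : (d : K) ≠ 0 := by
      intro h0
      have h1 := hval v₀ ((hmem v₀).2 hv₀)
      rw [h0, map_zero] at h1
      have := zpow_pos (Nv_pos v₀) (k v₀)
      linarith
    refine ⟨hd0, fun v hv => ?_⟩
    have hbd : b * (d : K) ^ 3 ≠ 0 := mul_ne_zero hb (pow_ne_zero 3 hd0)
    have hDd : dl (a * (d : K) ^ 2) (b * (d : K) ^ 3) ≠ 0 := by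
      rw [dl_twist]
      exact mul_ne_zero hD (pow_ne_zero 6 hd0)
    refine on_of_sp hbd hDd (by rw [jj_twist hd0]; exact hv) ?_
    have e : 2 * (a * (d : K) ^ 2 * (b * (d : K) ^ 3)) = 2 * (a * b) * (d : K) ^ 5 := by ring
    have h1 := hval v ((hmem v).2 hv)
    have h2 : fv v (2 * (a * (d : K) ^ 2 * (b * (d : K) ^ 3))) = (Nv v) ^ (n v + 5 * k v) := by
      rw [e, map_mul, map_pow, h1, hn, zpow_add₀ (Nv_pos v).ne', mul_comm 5, zpow_mul]
      norm_cast
    refine odd_ns v h2 ?_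
    have h3 := hodd v
    obtain ⟨m, hm⟩ := h3
    exact ⟨m + 2 * k v, by linarith⟩

/-- all simple poles count -/
theorem on_twist {a b d : K} (hd : d ≠ 0) (hD : dl a b ≠ 0)
    (h : ∀ v, Sp (jj a b) v → On (a * d ^ 2) (b * d ^ 3) v) :
    sp (jj a b) ≤ on (a * d ^ 2) (b * d ^ 3) := by
  classical
  have hDd : dl (a * d ^ 2) (b * d ^ 3) ≠ 0 := by
    rw [dl_twist]
    exact mul_ne_zero hD (pow_ne_zero 6 hd)
  unfold sp on
  refine finsum_le_finsum' (Fs_sp (jj a b)) (Fs_on hDd) fun v => ?_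
  by_cases h1 : Sp (jj a b) v
  · rw [if_pos h1, if_pos (h v h1), jj_twist hd, h1.2.2]
  · rw [if_neg h1]
    split_ifs with h2
    · exact Real.log_nonneg (h2.jj_eq hDd).2.le
    · exact le_rfl

/-- the conditions on the curve -/
def Fine (η : ℝ) (j : K) : Prop :=
  ¬ Two j ∧ (1 - η) * ht j ≤ sp j ∧
    Module.finrank ℚ K * (B0 / (1 - 2 * η)) ≤ ht j

end One

/-- **the exceptional invariants** -/
theorem exc_count' {η ε : ℝ} (hη0 : 0 < η) (hη : η < 1 / 2) (hε : 0 < ε) : ∃ A : ℝ, 0 ≤ A ∧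
    ∀ (K : Type) [Field K] [NumberField K] (X : ℝ) (E : Finset K), 0 ≤ X →
      (∀ j ∈ E, j ≠ 0 ∧ j ≠ 1728 ∧ ht j ≤ X ∧ ¬ Fine η j) →
        (E.card : ℝ) ≤ Real.exp (Module.finrank ℚ K * A + (2 - η / 2 + ε) * X) := by
  classical
  obtain ⟨A1, hA1, hall⟩ := all_card (ε := 1) one_pos
  obtain ⟨A2, hA2, hspc⟩ := sp_count hε
  obtain ⟨A3, hA3, htwo⟩ := two_count hε
  set L0 : ℝ := B0 / (1 - 2 * η) with hL0
  have hB0 := B0_pos
  have hL00 : 0 ≤ L0 := by
    have : 0 < 1 - 2 * η := by linarith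
    positivity
  have hl4 : 0 ≤ Real.log 4 := Real.log_nonneg (by norm_num)
  refine ⟨Real.log 4 + A1 + 3 * L0 + A2 + A3, by positivity, ?_⟩
  intro K _ _ X E hX hE
  set n := Module.finrank ℚ K with hn
  have hn1 : (1 : ℝ) ≤ n := by exact_mod_cast Module.finrank_pos (R := ℚ) (M := K)
  have hn0 : (0 : ℝ) ≤ n := by linarith
  set E2 := E.filter fun j => j ≠ -1 ∧ ht j ≤ n * L0 with hE2
  set E3 := E.filter fun j => j ≠ -1 ∧ sp j ≤ (1 - η) * ht j with hE3
  set E4 := E.filter fun j => Two j with hE4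
  have hsub : E ⊆ (E2 ∪ E3 ∪ E4) ∪ {-1} := by
    intro j hj
    rw [Finset.mem_union, Finset.mem_singleton, Finset.mem_union, Finset.mem_union]
    by_cases h1 : j = -1
    · exact Or.inr h1
    · left
      obtain ⟨h2, h3, h4, h5⟩ := hE j hj
      by_contra hcon
      push Not at hcon
      obtain ⟨⟨c1, c2⟩, c3⟩ := hcon
      rw [hE2, Finset.mem_filter] at c1
      rw [hE3, Finset.mem_filter] at c2
      rw [hE4, Finset.mem_filter] at c3
      push Not at c1 c2 c3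
      exact h5 ⟨c3 hj, (c2 hj h1).le, (c1 hj h1).le⟩
  have hPt : ∀ j ∈ E, j ≠ -1 → Pt j := by
    intro j hj h1
    refine ⟨(hE j hj).1, fun h2 => h1 ?_⟩
    linear_combination h2
  have b2 : (E2.card : ℝ) ≤ Real.exp (n * (A1 + 3 * L0)) := by
    refine (hall K (n * L0) E2 ?_).trans (le_of_eq (by congr 1; ring))
    intro j hj
    rw [hE2, Finset.mem_filter] at hj
    exact ⟨hPt j hj.1 hj.2.1, hj.2.2⟩
  have b3 : (E3.card : ℝ) ≤ Real.exp (n * A2 + (2 - η / 2 + ε) * X) := by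
    refine hspc K η X E3 (by linarith) ?_
    intro j hj
    rw [hE3, Finset.mem_filter] at hj
    exact ⟨hPt j hj.1 hj.2.1, (hE j hj.1).2.2.1, hj.2.2⟩
  have b4 : (E4.card : ℝ) ≤ Real.exp (n * A3 + (2 + ε) / 3 * X) := by
    refine htwo K X E4 ?_
    intro j hj
    rw [hE4, Finset.mem_filter] at hj
    obtain ⟨α, h1, h2, h3, h4⟩ := hj.2
    exact ⟨(hE j hj.1).2.2.1, α, ⟨h1, h2⟩, h3, h4⟩
  have hcard : (E.card : ℝ) ≤ E2.card + E3.card + E4.card + 1 := by
    have h1 := Finset.card_le_card hsub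
    have h2 := Finset.card_union_le (E2 ∪ E3 ∪ E4) ({-1} : Finset K)
    have h3 := Finset.card_union_le (E2 ∪ E3) E4
    have h4 := Finset.card_union_le E2 E3
    rw [Finset.card_singleton] at h2
    exact_mod_cast (by omega : E.card ≤ E2.card + E3.card + E4.card + 1)
  set M0 : ℝ := n * (A1 + 3 * L0 + A2 + A3) + (2 - η / 2 + ε) * X with hM0
  have m2 : Real.exp (n * (A1 + 3 * L0)) ≤ Real.exp M0 := by
    apply Real.exp_le_exp.2
    have h1 : 0 ≤ (2 - η / 2 + ε) * X := mul_nonneg (by linarith) hX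
    have h2 : 0 ≤ n * (A2 + A3) := by positivity
    rw [hM0]
    nlinarith
  have m3 : Real.exp (n * A2 + (2 - η / 2 + ε) * X) ≤ Real.exp M0 := by
    apply Real.exp_le_exp.2
    have h2 : 0 ≤ n * (A1 + 3 * L0 + A3) := by positivity
    rw [hM0]
    nlinarith
  have m4 : Real.exp (n * A3 + (2 + ε) / 3 * X) ≤ Real.exp M0 := by
    apply Real.exp_le_exp.2
    have h2 : 0 ≤ n * (A1 + 3 * L0 + A2) := by positivity
    have h3 : (2 + ε) / 3 * X ≤ (2 - η / 2 + ε) * X :=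
      mul_le_mul_of_nonneg_right (by linarith) hX
    rw [hM0]
    nlinarith
  have m1 : 1 ≤ Real.exp M0 := by
    apply Real.one_le_exp
    have h1 : 0 ≤ (2 - η / 2 + ε) * X := mul_nonneg (by linarith) hX
    rw [hM0]
    positivity
  have hfin : (E.card : ℝ) ≤ 4 * Real.exp M0 := by linarith
  refine hfin.trans ?_
  have h4 : (4 : ℝ) ≤ Real.exp (n * Real.log 4) := by
    calc (4 : ℝ) = Real.exp (Real.log 4) := (Real.exp_log (by norm_num)).symm
      _ ≤ Real.exp (n * Real.log 4) := Real.exp_le_exp.2 (by nlinarith)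
  calc 4 * Real.exp M0 ≤ Real.exp (n * Real.log 4) * Real.exp M0 :=
        mul_le_mul_of_nonneg_right h4 (Real.exp_pos _).le
    _ = _ := by
        rw [← Real.exp_add, hM0]
        congr 1
        ring

end Pool.Agent.D0H55.ON
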