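import Mathlib
import Pool.Agent.D0H55.ON.Tw

/-!
# Pairs of twists
-/

set_option autoImplicit false
set_option linter.unusedSectionVars false

open NumberField IsDedekindDomain Finset Pool.Agent.H691R3 Pool.Agent.W223.AK
open Pool.Agent.Y733.LS Pool.Agent.Y733.UD Pool.Agent.TH942 Pool.Agent.TH910.LS

namespace Pool.Agent.D0H55.ON

variable {K : Type} [Field K] [NumberField K]

/-- `v` does not divide `6` and `j` has a pole of odd order at `v` -/
def OddPole (a b : K) (v : Pr K) : Prop :=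
  fv v 2 = 1 ∧ fv v 3 = 1 ∧ fv v a ^ 3 = fv v b ^ 2 ∧ fv v (dl a b) < fv v b ^ 2 ∧
    ∀ z : K, fv v z ^ 2 ≠ fv v (dl a b)

theorem OddPole.twist {a b d : K} (hd : d ≠ 0) {v : Pr K} (h : OddPole a b v) :
    OddPole (a * d ^ 2) (b * d ^ 3) v := by
  obtain ⟨h2, h3, h4, h5, h6⟩ := h
  have hdp : 0 < fv v d := (fv v).pos hd
  refine ⟨h2, h3, ?_, ?_, ?_⟩
  · rw [map_mul, map_mul, map_pow, map_pow, mul_pow, mul_pow, h4]
    ring
  · rw [dl_twist, map_mul, map_mul, map_pow, map_pow]
    have h7 := mul_lt_mul_of_pos_right h5 (pow_pos hdp 6)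
    calc fv v (dl a b) * fv v d ^ 6 < fv v b ^ 2 * fv v d ^ 6 := h7
      _ = _ := by ring
  · intro z hz
    apply h6 (z / d ^ 3)
    rw [dl_twist, map_mul, map_pow] at hz
    rw [map_div₀, div_pow, hz, map_pow]
    field_simp

theorem OddPole.on {a b : K} {v : Pr K} (h : OddPole a b v)
    (hns : ∀ z : K, fv v (2 * (a * b)) ≤ fv v (z ^ 2 + 2 * (a * b))) : On a b v :=
  ⟨h.1, h.2.1, h.2.2.1, h.2.2.2.1, h.2.2.2.2, hns⟩

/-- the norm of two near elements -/
theorem near_eq {w : AbsoluteValue K ℝ} (hw : Na w) {z u : K} (h : w (z + u) < w u) :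
    w z = w u := by
  have e : z = -u + (z + u) := by ring
  rw [e, hw.eq, map_neg_eq_map]
  rw [map_neg_eq_map]
  exact h

/-- one of two twists has no split multiplicative reduction -/
theorem pair_on {a b d e : K} (ha : a ≠ 0) (hb : b ≠ 0) (hd : d ≠ 0) (he : e ≠ 0) {v : Pr K}
    (h : OddPole a b v) (hns : ∀ z : K, fv v e ≤ fv v (z ^ 2 - e)) :
    On (a * d ^ 2) (b * d ^ 3) v ∨ On (a * (d * e) ^ 2) (b * (d * e) ^ 3) v := by
  by_contra hcon
  push Not at hcon
  obtain ⟨c1, c2⟩ := hcon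
  have g1 : ∃ z : K, fv v (z ^ 2 + 2 * (a * d ^ 2 * (b * d ^ 3))) <
      fv v (2 * (a * d ^ 2 * (b * d ^ 3))) := by
    by_contra hc
    push Not at hc
    exact c1 ((h.twist hd).on hc)
  have g2 : ∃ z : K, fv v (z ^ 2 + 2 * (a * (d * e) ^ 2 * (b * (d * e) ^ 3))) <
      fv v (2 * (a * (d * e) ^ 2 * (b * (d * e) ^ 3))) := by
    by_contra hc
    push Not at hc
    exact c2 ((h.twist (mul_ne_zero hd he)).on hc)
  obtain ⟨z, hz⟩ := g1
  obtain ⟨z', hz'⟩ := g2
  set u := 2 * (a * d ^ 2 * (b * d ^ 3)) with hu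
  have hu' : 2 * (a * (d * e) ^ 2 * (b * (d * e) ^ 3)) = u * e ^ 5 := by
    rw [hu]; ring
  rw [hu'] at hz'
  have hna := fv_Na v
  have hzz : fv v z ^ 2 = fv v u := by
    rw [← map_pow]
    exact near_eq hna hz
  have hu0 : u ≠ 0 := by
    rw [hu]
    exact mul_ne_zero two_ne_zero (mul_ne_zero (mul_ne_zero ha (pow_ne_zero 2 hd))
      (mul_ne_zero hb (pow_ne_zero 3 hd)))
  have hup : 0 < fv v u := (fv v).pos hu0
  have hep : 0 < fv v e := (fv v).pos he
  have hz0 : z ≠ 0 := by
    rintro rfl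
    rw [map_zero, zero_pow two_ne_zero] at hzz
    linarith
  have h1 := hns (z' / (z * e ^ 2))
  have e1 : (z' / (z * e ^ 2)) ^ 2 - e =
      ((z' ^ 2 + u * e ^ 5) + -(e ^ 5 * (z ^ 2 + u))) / (z ^ 2 * e ^ 4) := by
    field_simp
    ring
  have h2 : fv v ((z' ^ 2 + u * e ^ 5) + -(e ^ 5 * (z ^ 2 + u))) < fv v u * fv v e ^ 5 := by
    apply hna.lt_add
    · rw [← map_pow, ← map_mul]
      exact hz'
    · rw [map_neg_eq_map, map_mul, map_pow, mul_comm]
      exact mul_lt_mul_of_pos_right hz (pow_pos hep 5)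
  rw [e1, map_div₀, map_mul, map_pow, map_pow, hzz, le_div_iff₀ (by positivity)] at h1
  have e2 : fv v e * (fv v u * fv v e ^ 4) = fv v u * fv v e ^ 5 := by ring
  rw [e2] at h1
  exact absurd h2 (not_lt.2 h1)

theorem OddPole.jj_gt {a b : K} (hD : dl a b ≠ 0) {v : Pr K} (h : OddPole a b v) :
    1 < fv v (jj a b) := by
  obtain ⟨h2, h3, h4, h5, -⟩ := h
  have h6912 : fv v (6912 : K) = 1 := by
    have : (6912 : K) = 2 ^ 8 * 3 ^ 3 := by norm_num
    rw [this, map_mul, map_pow, map_pow, h2, h3]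
    norm_num
  have hd : 0 < fv v (dl a b) := (fv v).pos hD
  rw [w_jj, h6912, one_mul, h4, lt_div_iff₀ hd, one_mul]
  exact h5

open Classical in
/-- the contribution of the poles of odd order outside `6` to the height of `j` -/
noncomputable def oddw (a b : K) : ℝ :=
  ∑ᶠ v : Pr K, if OddPole a b v then Real.log (fv v (jj a b)) else 0

/-- **of two twists at least one has at least one half of the poles of odd order** -/
theorem pair_le {a b d e : K} (hD : dl a b ≠ 0) (hd : d ≠ 0) (he : e ≠ 0)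
    (hns : ∀ v, OddPole a b v → ∀ z : K, fv v e ≤ fv v (z ^ 2 - e)) :
    oddw a b ≤ on (a * d ^ 2) (b * d ^ 3) + on (a * (d * e) ^ 2) (b * (d * e) ^ 3) := by
  classical
  have hD1 : dl (a * d ^ 2) (b * d ^ 3) ≠ 0 := by
    rw [dl_twist]; exact mul_ne_zero hD (pow_ne_zero 6 hd)
  have hde : d * e ≠ 0 := mul_ne_zero hd he
  have hD2 : dl (a * (d * e) ^ 2) (b * (d * e) ^ 3) ≠ 0 := by
    rw [dl_twist]; exact mul_ne_zero hD (pow_ne_zero 6 hde)
  have hs1 := Fs_on hD1
  have hs2 := Fs_on hD2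
  have hs0 : (Function.support fun v : Pr K =>
      if OddPole a b v then Real.log (fv v (jj a b)) else 0).Finite := by
    refine (ne_sets (one_ne_zero) (one_ne_zero) (jj a b)).subset ?_
    intro v hv
    rw [Function.mem_support] at hv
    right
    right
    by_contra hcon
    apply hv
    rw [if_neg]
    intro h
    exact hcon (h.jj_gt hD)
  unfold oddw on
  rw [← finsum_add_distrib hs1 hs2]
  set S : Finset (Pr K) := hs0.toFinset ∪ (hs1.toFinset ∪ hs2.toFinset) with hS
  rw [finsum_eq_sum_of_support_subset (s := S) _ (by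
      intro v hv
      rw [hS, Finset.coe_union]
      left
      rwa [Set.Finite.coe_toFinset]),
    finsum_eq_sum_of_support_subset (s := S) _ (by
      intro v hv
      rw [hS, Finset.coe_union]
      right
      have h5 := Function.support_add _ _ hv
      rw [Finset.coe_union, Set.Finite.coe_toFinset, Set.Finite.coe_toFinset]
      exact h5)]
  refine Finset.sum_le_sum fun v _ => ?_
  have hj1 : jj (a * d ^ 2) (b * d ^ 3) = jj a b := jj_twist hd
  have hj2 : jj (a * (d * e) ^ 2) (b * (d * e) ^ 3) = jj a b := jj_twist hde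
  have n1 : 0 ≤ (if On (a * d ^ 2) (b * d ^ 3) v then
      Real.log (fv v (jj (a * d ^ 2) (b * d ^ 3))) else 0) := by
    split_ifs with h1
    · exact Real.log_nonneg (h1.jj_eq hD1).2.le
    · exact le_rfl
  have n2 : 0 ≤ (if On (a * (d * e) ^ 2) (b * (d * e) ^ 3) v then
      Real.log (fv v (jj (a * (d * e) ^ 2) (b * (d * e) ^ 3))) else 0) := by
    split_ifs with h1
    · exact Real.log_nonneg (h1.jj_eq hD2).2.le
    · exact le_rfl
  show (if OddPole a b v then Real.log (fv v (jj a b)) else 0) ≤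
    (if On (a * d ^ 2) (b * d ^ 3) v then Real.log (fv v (jj (a * d ^ 2) (b * d ^ 3))) else 0) +
    (if On (a * (d * e) ^ 2) (b * (d * e) ^ 3) v then
      Real.log (fv v (jj (a * (d * e) ^ 2) (b * (d * e) ^ 3))) else 0)
  by_cases h : OddPole a b v
  · rw [if_pos h]
    have hb : b ≠ 0 := by
      rintro rfl
      have h5 := h.2.2.2.1
      rw [map_zero, zero_pow two_ne_zero] at h5
      exact absurd h5 (not_lt.2 ((fv v).nonneg _))
    have ha : a ≠ 0 := by
      rintro rfl
      have h5 := h.2.2.1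
      rw [map_zero, zero_pow three_ne_zero] at h5
      have := pow_pos ((fv v).pos hb) 2
      linarith
    rcases pair_on ha hb hd he h (hns v h) with h1 | h1
    · rw [if_pos h1, hj1]
      linarith
    · rw [if_pos h1, hj2]
      linarith
  · rw [if_neg h]
    linarith

/-- **an element of valuation one at the poles of odd order** -/
theorem exists_e {a b : K} (hD : dl a b ≠ 0) :
    ∃ e : K, e ≠ 0 ∧ ∀ v, OddPole a b v → ∀ z : K, fv v e ≤ fv v (z ^ 2 - e) := by
  classical
  have hfin : {v : Pr K | OddPole a b v}.Finite := by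
    refine (ne_sets (one_ne_zero) (one_ne_zero) (jj a b)).subset ?_
    intro v hv
    right
    right
    exact OddPole.jj_gt hD hv
  set S : Finset (Pr K) := hfin.toFinset with hS
  have hmem : ∀ v, v ∈ S ↔ OddPole a b v := fun v => by
    rw [hS, Set.Finite.mem_toFinset]
    rfl
  by_cases hne : S.Nonempty
  · have hloc : ∀ v : Pr K, ∃ ρ : 𝓞 K, fv v (ρ : K) = (Nv v) ^ (-1 : ℤ) := by
      intro v
      obtain ⟨π, hπ⟩ := v.intValuation_exists_uniformizer
      refine ⟨π, fv_exp v ?_⟩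
      have h3 : v.valuation K (π : K) = v.intValuation π := v.valuation_of_algebraMap π
      rw [h3, hπ]
    choose ρ hρ using hloc
    obtain ⟨e, he⟩ := IsDedekindDomain.exists_forall_sub_mem_ideal (s := S)
      (fun v : Pr K => v.asIdeal) (fun _ => 2) (fun v _ => v.prime)
      (fun v _ v' _ hne h => hne (HeightOneSpectrum.ext h)) (fun v => ρ v.1)
    have hval : ∀ v ∈ S, fv v (e : K) = (Nv v) ^ (-1 : ℤ) := by
      intro v hv
      have h3 := fv_sq v _ (he v hv)
      have e1 : (e : K) = (ρ v : K) + ((e - ρ v : 𝓞 K) : K) := by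
        push_cast
        ring
      rw [e1, (fv_Na v).eq, hρ]
      rw [hρ]
      refine h3.trans_lt ?_
      exact zpow_lt_zpow_right₀ (Nv_one_lt v) (by norm_num)
    obtain ⟨v₀, hv₀⟩ := hne
    have he0 : (e : K) ≠ 0 := by
      intro h0
      have h1 := hval v₀ hv₀
      rw [h0, map_zero] at h1
      have := zpow_pos (Nv_pos v₀) (-1 : ℤ)
      linarith
    refine ⟨e, he0, fun v hv z => ?_⟩
    have h1 := odd_ns v (c := -(e : K)) (n := -1) (by
      rw [map_neg_eq_map]
      exact hval v ((hmem v).2 hv)) (by decide) z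
    rw [map_neg_eq_map] at h1
    rw [sub_eq_add_neg]
    exact h1
  · refine ⟨1, one_ne_zero, fun v hv => ?_⟩
    exact absurd ⟨v, (hmem v).2 hv⟩ hne

end Pool.Agent.D0H55.ON
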