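import Mathlib
import Pool.Agent.D0H55.ON.PosC

/-!
# The poles of `j`, of any order, at which the curve has no split multiplicative reduction
-/

set_option autoImplicit false
set_option linter.unusedSectionVars false

open NumberField IsDedekindDomain Pool.Agent.H691R3 Pool.Agent.W223.AK
open Pool.Agent.Y733.LS Pool.Agent.TH942 Pool.Agent.TH910.LS
open Pool.Agent.H951R3.PB TH951.LS Pool.Agent.Y725.LS WeierstrassCurve

namespace Pool.Agent.D0H55.ON

section Loc

variable {K : Type} [Field K] {w : AbsoluteValue K ℝ}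

/-- one duplication leads away from the node if the point is nearly singular -/
theorem start_of_le [CharZero K] (h : Na w) (h2 : w 2 = 1) (h3 : w 3 = 1) {t X : K}
    (hr : w (4 * t + 27) < 1) (hr0 : 4 * t + 27 ≠ 0) (hX : w (2 * X + 3) < 1)
    (hle : w (2 * X + 3) ^ 2 ≤ w (4 * t + 27)) (hG : pG t t X ≠ 0) :
    1 ≤ w (2 * (pF t t X / pG t t X) + 3) := by
  set Z := 2 * X + 3 with hZ
  set r := 4 * t + 27 with hr'
  have hrpos : 0 < w r := w.pos hr0
  have h8 : w (8 : K) = 1 := by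
    have : (8 : K) = 2 ^ 3 := by norm_num
    rw [this, map_pow, h2, one_pow]
  have h36 : w (36 : K) = 1 := by
    have : (36 : K) = 2 ^ 2 * 3 ^ 2 := by norm_num
    rw [this, map_mul, map_pow, map_pow, h2, h3]
    norm_num
  have hX1 : w X ≤ 1 := by
    by_contra hcon
    push Not at hcon
    rw [hZ, lin_big h h2 hcon] at hX
    linarith
  have hX3 : w (X - 3) ≤ 1 := h.le_sub hX1 (h.ofNat 3)
  have hXp : w (X + 1) ≤ 1 := h.le_add hX1 (by rw [map_one])
  have hGr : w (pG t t X) ≤ w r := by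
    have e : pG t t X = Z ^ 2 * (X - 3) + r * (X + 1) := eG t X
    rw [e]
    apply h.le_add
    · have hz2 : w (Z ^ 2) ≤ w r := by
        rw [map_pow]
        exact hle
      exact (Na.le_mul_of hz2 hX3).trans (by rw [mul_one])
    · exact (Na.le_mul_of (le_refl (w r)) hXp).trans (by rw [mul_one])
  have hk : w (16 * pF t t X + 24 * pG t t X) = w r := by
    have e2 : 16 * pF t t X + 24 * pG t t X =
        -(36 * r) + (Z ^ 2 * Z ^ 2 - 2 * (r * Z ^ 2) + 8 * (r * Z) + r * r) := by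
      rw [key1, hZ, hr']
      ring
    have e3 : w (-(36 * r)) = w r := by
      rw [map_neg_eq_map, map_mul, h36, one_mul]
    rw [e2, h.eq, e3]
    rw [e3]
    have hZ0 := w.nonneg Z
    have hrr : w r * w r < w r := by nlinarith
    have hZr : w Z * w r < w r := by nlinarith
    have hzz : w Z ^ 2 < 1 := lt_of_le_of_lt hle hr
    have g1 : w (Z ^ 2 * Z ^ 2) < w r := by
      rw [map_mul, map_pow]
      have h0 : 0 ≤ w Z ^ 2 := sq_nonneg _
      calc w Z ^ 2 * w Z ^ 2 ≤ w r * w r := mul_le_mul hle hle h0 hrpos.le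
        _ < w r := hrr
    have g2 : w (2 * (r * Z ^ 2)) < w r := by
      rw [map_mul, h2, one_mul, map_mul, map_pow]
      nlinarith
    have g3 : w (8 * (r * Z)) < w r := by
      rw [map_mul, h8, one_mul, map_mul]
      nlinarith
    have g4 : w (r * r) < w r := by
      rw [map_mul]
      exact hrr
    exact h.lt_add (h.lt_add (h.lt_sub g1 g2) g3) g4
  have e5 : 2 * (pF t t X / pG t t X) + 3 =
      (16 * pF t t X + 24 * pG t t X) / (8 * pG t t X) := by
    field_simp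
    ring
  rw [e5, map_div₀, hk, map_mul, h8, one_mul]
  have hpos : 0 < w (pG t t X) := w.pos hG
  rw [le_div_iff₀ hpos, one_mul]
  exact hGr

/-- a point near the node is nearly singular if the reduction is not split multiplicative -/
theorem near_ns [CharZero K] (h : Na w) (h2 : w 2 = 1) (h3 : w 3 = 1) {t X κ s : K}
    (hns : ∀ z : K, w (2 * κ) ≤ w (z ^ 2 + 2 * κ)) (hcurve : pG t t X = 4 * (κ * s ^ 2))
    (hX : w (2 * X + 3) < 1) : w (2 * X + 3) ^ 2 ≤ w (4 * t + 27) := by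
  by_contra hcon
  push Not at hcon
  have hlt : w (4 * t + 27) < w (2 * X + 3) ^ 2 := hcon
  set Z := 2 * X + 3 with hZ
  set r := 4 * t + 27 with hr'
  have h9 : w (9 : K) = 1 := by
    have : (9 : K) = 3 ^ 2 := by norm_num
    rw [this, map_pow, h3, one_pow]
  have hZ0 : Z ≠ 0 := by
    intro e
    rw [e, map_zero] at hlt
    have := w.nonneg r
    nlinarith
  -- the equation
  have e1 : 8 * (κ * s ^ 2) = Z ^ 2 * (Z - 9) + r * (Z - 1) := by
    have h4 : pG t t X = Z ^ 2 * (X - 3) + r * (X + 1) := eG t X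
    rw [hcurve] at h4
    have hXZ : 2 * X = Z - 3 := by rw [hZ]; ring
    linear_combination 2 * h4 + (Z ^ 2 + r) * hXZ
  have e2 : 8 * (κ * s ^ 2) + 9 * Z ^ 2 = Z ^ 2 * Z + r * (Z - 1) := by
    rw [e1]; ring
  have hZpos : 0 < w Z := w.pos hZ0
  have hZ2 : w (Z ^ 2) = w Z ^ 2 := map_pow _ _ _
  have hb : w (Z ^ 2 * Z + r * (Z - 1)) < w Z ^ 2 := by
    apply h.lt_add
    · rw [map_mul, hZ2]
      have : 0 < w Z ^ 2 := by positivity
      nlinarith
    · rw [map_mul]
      have h5 : w (Z - 1) ≤ 1 := h.le_sub hX.le (by rw [map_one])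
      have h6 := w.nonneg r
      nlinarith
  have hs0 : s ≠ 0 := by
    rintro rfl
    rw [← e2] at hb
    have : w (8 * (κ * 0 ^ 2) + 9 * Z ^ 2) = w Z ^ 2 := by
      have e3 : 8 * (κ * 0 ^ 2) + 9 * Z ^ 2 = 9 * Z ^ 2 := by ring
      rw [e3, map_mul, h9, one_mul, hZ2]
    rw [this] at hb
    exact lt_irrefl _ hb
  rw [← e2] at hb
  have h8 : w (8 * (κ * s ^ 2)) = w Z ^ 2 := by
    have e3 : 8 * (κ * s ^ 2) = -(9 * Z ^ 2) + (8 * (κ * s ^ 2) + 9 * Z ^ 2) := by ring
    have e4 : w (-(9 * Z ^ 2)) = w Z ^ 2 := by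
      rw [map_neg_eq_map, map_mul, h9, one_mul, hZ2]
    rw [e3, h.eq, e4]
    rw [e4]
    exact hb
  have w2n : ∀ n : ℕ, w ((2 : K) ^ n) = 1 := fun n => by rw [map_pow, h2, one_pow]
  have h8' : w (2 * κ) * w s ^ 2 = w Z ^ 2 := by
    rw [← h8]
    have e3 : 8 * (κ * s ^ 2) = 2 ^ 2 * (2 * κ) * s ^ 2 := by ring
    rw [e3, map_mul w (2 ^ 2 * (2 * κ)) (s ^ 2), map_mul w (2 ^ 2) (2 * κ), w2n, one_mul, map_pow]
  have hs : 0 < w s := w.pos hs0
  have h9' := hns (3 * Z / (2 * s))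
  have e5 : (3 * Z / (2 * s)) ^ 2 + 2 * κ = (8 * (κ * s ^ 2) + 9 * Z ^ 2) / (2 ^ 2 * s ^ 2) := by
    field_simp
    ring
  have e6 : w (2 ^ 2 * s ^ 2) = w s ^ 2 := by
    rw [map_mul w (2 ^ 2) (s ^ 2), w2n, one_mul, map_pow]
  rw [e5, map_div₀, e6, le_div_iff₀ (by positivity), h8'] at h9'
  exact absurd hb (not_lt.2 h9')

/-- the same in the coordinates of the curve -/
theorem ns_first [CharZero K] (h : Na w) (h2 : w 2 = 1) (h3 : w 3 = 1) {a b x y : K} (ha : a ≠ 0)
    (hb : b ≠ 0) (hD : dl a b ≠ 0) (hab : w a ^ 3 = w b ^ 2) (hr : w (dl a b) < w b ^ 2)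
    (hns : ∀ z : K, w (2 * (a * b)) ≤ w (z ^ 2 + 2 * (a * b)))
    (hy : y ≠ 0) (hxy : y ^ 2 = x ^ 3 + a * x + b) : Good w a b (pF a b x / pG a b x) := by
  have hG : pG a b x ≠ 0 := by
    unfold pG
    rw [← hxy]
    exact mul_ne_zero (by norm_num) (pow_ne_zero 2 hy)
  have hbp : 0 < w b := w.pos hb
  have hdl : w (4 * (a ^ 3 / b ^ 2) + 27) = w (dl a b) / w b ^ 2 := by
    rw [dl_scale hb, map_div₀, map_pow]
  have hr1 : w (4 * (a ^ 3 / b ^ 2) + 27) < 1 := by
    rw [hdl, div_lt_one (by positivity)]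
    exact hr
  have hr0 : 4 * (a ^ 3 / b ^ 2) + 27 ≠ 0 := by
    rw [dl_scale hb]
    exact div_ne_zero hD (pow_ne_zero 2 hb)
  rw [good_iff hb, quot_scale ha hb]
  have hG' := pG_ne ha hb hG
  rcases le_or_gt 1 (w (2 * (x * a / b) + 3)) with hX | hX
  · exact (good1 h h2 (t_unit hb hab) hr1 hX).2 hG'
  · refine start_of_le h h2 h3 hr1 hr0 hX ?_ hG'
    refine near_ns (κ := a / b) (s := y * a / b) h h2 h3 ?_ ?_ hX
    · intro z
      have h5 := hns (z * b)
      have e1 : z ^ 2 + 2 * (a / b) = ((z * b) ^ 2 + 2 * (a * b)) / b ^ 2 := by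
        field_simp
      have e2 : 2 * (a / b) = (2 * (a * b)) / b ^ 2 := by
        field_simp
      rw [e1, e2, map_div₀, map_div₀]
      exact div_le_div_of_nonneg_right h5 (w.nonneg _)
    · have h4 := pG_scale ha hb x
      have hba : (b / a) ^ 3 ≠ 0 := pow_ne_zero 3 (div_ne_zero hb ha)
      have h6 : pG a b x = 4 * y ^ 2 := by
        unfold pG
        rw [hxy]
      rw [h6] at h4
      have h7 : pG (a ^ 3 / b ^ 2) (a ^ 3 / b ^ 2) (x * a / b) = 4 * y ^ 2 / (b / a) ^ 3 := by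
        rw [eq_div_iff hba, mul_comm]
        exact h4.symm
      rw [h7]
      field_simp

/-- an element of odd valuation is no square -/
theorem ns_of_odd (h : Na w) {x : K} (hodd : ∀ z : K, w z ^ 2 ≠ w x) (z : K) :
    w x ≤ w (z ^ 2 - x) := by
  by_contra hcon
  push Not at hcon
  apply hodd z
  have e : z ^ 2 = x + (z ^ 2 - x) := by ring
  rw [← map_pow, e, h.eq]
  exact hcon

end Loc

variable {K : Type} [Field K] [NumberField K]

/-- `v` does not divide `6` and is a pole of `j` -/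
def Pole (a b : K) (v : Pr K) : Prop :=
  fv v 2 = 1 ∧ fv v 3 = 1 ∧ fv v a ^ 3 = fv v b ^ 2 ∧ fv v (dl a b) < fv v b ^ 2

/-- `v` does not divide `6`, `j` has a pole at `v`, and the curve has no split multiplicative
reduction -/
def Bn (a b : K) (v : Pr K) : Prop :=
  Pole a b v ∧ ∀ z : K, fv v (2 * (a * b)) ≤ fv v (z ^ 2 + 2 * (a * b))

theorem Pole.jj_eq {a b : K} (hD : dl a b ≠ 0) {v : Pr K} (h : Pole a b v) :
    fv v (jj a b) = fv v b ^ 2 / fv v (dl a b) ∧ 1 < fv v (jj a b) := by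
  obtain ⟨h2, h3, h4, h5⟩ := h
  have h6912 : fv v (6912 : K) = 1 := by
    have : (6912 : K) = 2 ^ 8 * 3 ^ 3 := by norm_num
    rw [this, map_mul, map_pow, map_pow, h2, h3]
    norm_num
  have hd : 0 < fv v (dl a b) := (fv v).pos hD
  have e : fv v (jj a b) = fv v b ^ 2 / fv v (dl a b) := by
    rw [w_jj, h6912, one_mul, h4]
  refine ⟨e, ?_⟩
  rw [e, lt_div_iff₀ hd, one_mul]
  exact h5

/-- a pole outside `6` -/
theorem pole_of {a b : K} (hD : dl a b ≠ 0) {v : Pr K} (h2 : fv v 2 = 1) (h3 : fv v 3 = 1)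
    (hj : 1 < fv v (jj a b)) : Pole a b v := by
  have hd : 0 < fv v (dl a b) := (fv v).pos hD
  have h6912 : fv v (6912 : K) = 1 := by
    have : (6912 : K) = 2 ^ 8 * 3 ^ 3 := by norm_num
    rw [this, map_mul, map_pow, map_pow, h2, h3]
    norm_num
  have h27 : fv v (27 : K) = 1 := by
    have : (27 : K) = 3 ^ 3 := by norm_num
    rw [this, map_pow, h3]
    norm_num
  have h4 : fv v (4 : K) = 1 := by
    have : (4 : K) = 2 ^ 2 := by norm_num
    rw [this, map_pow, h2]
    norm_num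
  have hjj := w_jj (fv v) a b
  rw [h6912, one_mul] at hjj
  have hlt : fv v (dl a b) < fv v a ^ 3 := by
    rw [hjj, one_lt_div hd] at hj
    exact hj
  have e : 27 * b ^ 2 = -(4 * a ^ 3) + dl a b := by unfold dl; ring
  have e1 : fv v (27 * b ^ 2) = fv v b ^ 2 := by rw [map_mul, h27, one_mul, map_pow]
  have e2 : fv v (-(4 * a ^ 3)) = fv v a ^ 3 := by
    rw [map_neg_eq_map, map_mul, h4, one_mul, map_pow]
  have e3 : fv v b ^ 2 = fv v a ^ 3 := by
    rw [← e1, e, (fv_Na v).eq, e2]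
    rw [e2]
    exact hlt
  exact ⟨h2, h3, e3.symm, by rw [e3]; exact hlt⟩

theorem Pole.ne {a b : K} {v : Pr K} (h : Pole a b v) : a ≠ 0 ∧ b ≠ 0 := by
  obtain ⟨h2, h3, f1, f2⟩ := h
  have hb : b ≠ 0 := by
    rintro rfl
    rw [map_zero, zero_pow two_ne_zero] at f2
    exact absurd f2 (not_lt.2 ((fv v).nonneg _))
  refine ⟨?_, hb⟩
  rintro rfl
  rw [map_zero, zero_pow three_ne_zero] at f1
  have := pow_pos ((fv v).pos hb) 2
  linarith

variable [DecidableEq K]

/-- **one duplication leads away from the node** -/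
theorem Bn.good {a b : K} (hD : dl a b ≠ 0) {v : Pr K} (h : Bn a b v) {x y : K} (hy : y ≠ 0)
    (hxy : y ^ 2 = x ^ 3 + a * x + b) : Good (fv v) a b (pF a b x / pG a b x) := by
  obtain ⟨ha, hb⟩ := h.1.ne
  obtain ⟨⟨h2, h3, f1, f2⟩, h4⟩ := h
  exact ns_first (fv_Na v) h2 h3 ha hb hD f1 f2 h4 hy hxy

/-- a doubled point is far from the double root -/
theorem far_point2 {a b : K} (hD : dl a b ≠ 0) (v : FinitePlace K) (hOn : Bn a b v.maximalIdeal)
    {w : AbsoluteValue (AlgebraicClosure K) ℝ} (hvw : Ext v.val w)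
    {e₁ e₂ e₃ : AlgebraicClosure K} (hR : Roots (algebraMap K (AlgebraicClosure K) (sw a b).b₂)
      (algebraMap K (AlgebraicClosure K) (sw a b).b₄)
      (algebraMap K (AlgebraicClosure K) (sw a b).b₆)
      (algebraMap K (AlgebraicClosure K) (sw a b).b₈) e₁ e₂ e₃)
    (hlt : w (e₃ - e₁) < w (e₂ - e₁)) (P : SPt a b) :
    w (e₂ - e₁) * w (vL K ((2 : ℕ) • P).xRep 1) ≤
      w (vL K ((2 : ℕ) • P).xRep 0 - e₁ * vL K ((2 : ℕ) • P).xRep 1) := by
  by_cases hQ : (2 : ℕ) • P = 0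
  · rw [hQ]
    simp only [vL, Affine.Point.xRep_zero]
    simp
  · have hP : P ≠ 0 := by
      rintro rfl
      exact hQ (smul_zero _)
    obtain ⟨x, y, h, rfl⟩ := exists_coord P hP
    have hy : y ≠ 0 := fun h0 => hQ (dup_zero h h0)
    obtain ⟨hG, y', h', e⟩ := dup_some h hy
    rw [e]
    simp only [vL, Affine.Point.xRep_some]
    have hgood := hOn.good hD hy (sw_eqn.1 h.1)
    obtain ⟨⟨h2, h3, f1, f2⟩, -⟩ := hOn
    rw [fv_max] at hgood h2 h3
    have hw := ext_na v w hvw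
    have h2w : w (2 : AlgebraicClosure K) = 1 := by
      rw [← map_ofNat (algebraMap K (AlgebraicClosure K)) 2, hvw]; exact h2
    have h3w : w (3 : AlgebraicClosure K) = 1 := by
      rw [← map_ofNat (algebraMap K (AlgebraicClosure K)) 3, hvw]; exact h3
    set A := algebraMap K (AlgebraicClosure K) a with hA
    set B := algebraMap K (AlgebraicClosure K) b with hB
    have b2 : (sw a b).b₂ = 0 := by
      simp [WeierstrassCurve.b₂, sw]
    have b4 : (sw a b).b₄ = 2 * a := by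
      simp [WeierstrassCurve.b₄, sw]
    have b6 : (sw a b).b₆ = 4 * b := by
      simp [WeierstrassCurve.b₆, sw]
    have q2 := hR.h2
    have q4 := hR.h4
    have q6 := hR.h6
    rw [b2, map_zero] at q2
    rw [b4, map_mul, map_ofNat] at q4
    rw [b6, map_mul, map_ofNat] at q6
    have t2 : (2 : AlgebraicClosure K) ≠ 0 := by norm_num
    have t4 : (4 : AlgebraicClosure K) ≠ 0 := by norm_num
    have s1 : e₁ + e₂ + e₃ = 0 := by
      apply mul_left_cancel₀ t4
      linear_combination q2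
    have s2 : A = e₁ * e₂ + e₁ * e₃ + e₂ * e₃ := by
      apply mul_left_cancel₀ t2
      linear_combination q4
    have s3 : B = -(e₁ * e₂ * e₃) := by
      apply mul_left_cancel₀ t4
      linear_combination q6
    have hg : w B ≤ w (2 * A * algebraMap K (AlgebraicClosure K) (pF a b x / pG a b x) + 3 * B) := by
      have h5 : v.val b ≤ v.val (2 * a * (pF a b x / pG a b x) + 3 * b) := hgood
      rw [← hvw, ← hvw] at h5
      simpa only [map_add, map_mul, map_ofNat] using h5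
    have := far_root hw h2w h3w s1 s2 s3 hlt hg
    simpa using this

/-- **the pairing of doubled points** -/
theorem bn_pair {a b : K} (hD : dl a b ≠ 0) [(sw a b).IsElliptic] (v : FinitePlace K)
    (hOn : Bn a b v.maximalIdeal)
    {w : AbsoluteValue (AlgebraicClosure K) ℝ} (hvw : Ext v.val w) (P Q : SPt a b)
    (hPQ : wd ((2 : ℕ) • P).xRep ((2 : ℕ) • Q).xRep ≠ 0) :
    Real.log (v.val (sw a b).j) / 6 ≤
        gg w (ev (fL K (fW (sw a b)))) 4 (Real.log (w (rs (fL K (fW (sw a b))) 4)))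
          (vL K ((2 : ℕ) • P).xRep) (vL K ((2 : ℕ) • Q).xRep) := by
  have h2 : v.val 2 = 1 := by rw [← fv_max]; exact hOn.1.1
  have hj : 1 < v.val (sw a b).j := by
    rw [sw_j inferInstance, ← fv_max]
    exact (hOn.1.jj_eq hD).2
  obtain ⟨e₁, e₂, e₃, hR, hlt, h⟩ := pair_far (W := sw a b) v hvw h2 hj
  exact h _ _ hPQ (far_point2 hD v hOn hvw hR hlt P) (far_point2 hD v hOn hvw hR hlt Q)

end Pool.Agent.D0H55.ON
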