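import Mathlib
import Pool.Agent.D0H55.ON.PosE
import Pool.Agent.D0H55.ON.PosG
import Pool.Agent.D0H55.ON.PosH
import Pool.Agent.TH910.LS.Main

/-!
# The alternative for the curves with a positive proportion of such poles
-/

set_option autoImplicit false
set_option linter.unusedSectionVars false

open NumberField IsDedekindDomain Finset Pool.Agent.H691R3 Pool.Agent.W223.AK
open Pool.Agent.Y733.LS Pool.Agent.TH942 Pool.Agent.TH910.LS
open Pool.Agent.H951R3.PB TH951.LS TH951 Pool.Agent.Y725.LS WeierstrassCurve Filter Topology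

namespace Pool.Agent.D0H55.ON

section Defs

variable {K : Type} [Field K] [NumberField K]

open Classical in
/-- the contribution of the poles outside `6` to the height of `j` -/
noncomputable def polw (a b : K) : ℝ :=
  ∑ᶠ v : Pr K, if Pole a b v then Real.log (fv v (jj a b)) else 0

open Classical in
/-- the part of the places `Bn` -/
noncomputable def bnw (a b : K) : ℝ :=
  ∑ᶠ v : Pr K, if Bn a b v then Real.log (fv v (jj a b)) else 0

theorem Fin_Pole {a b : K} (hD : dl a b ≠ 0) : {v : Pr K | Pole a b v}.Finite := by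
  refine (ne_sets (one_ne_zero) (one_ne_zero) (jj a b)).subset ?_
  intro v hv
  right
  right
  exact (Pole.jj_eq hD hv).2

theorem Fin_Bn {a b : K} (hD : dl a b ≠ 0) : {v : Pr K | Bn a b v}.Finite :=
  (Fin_Pole hD).subset fun _ h => h.1

theorem Fs_polw {a b : K} (hD : dl a b ≠ 0) [∀ v, Decidable (Pole a b v)] :
    (Function.support fun v : Pr K =>
    if Pole a b v then Real.log (fv v (jj a b)) else 0).Finite := by
  refine (Fin_Pole hD).subset ?_
  intro v hv
  rw [Function.mem_support] at hv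
  by_contra hcon
  exact hv (if_neg hcon)

theorem Fs_bnw {a b : K} (hD : dl a b ≠ 0) [∀ v, Decidable (Bn a b v)] :
    (Function.support fun v : Pr K =>
    if Bn a b v then Real.log (fv v (jj a b)) else 0).Finite := by
  refine (Fin_Bn hD).subset ?_
  intro v hv
  rw [Function.mem_support] at hv
  by_contra hcon
  exact hv (if_neg hcon)

variable [DecidableEq K]

/-- the alternative for the points of one curve -/
def Alt (N : ℕ) (c : ℝ) (a b : K) : Prop :=
  ∀ S : Finset (Pr K), (∀ v ∈ S, BadAt a b v) → ∀ P : SPt a b,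
    (∃ n : ℕ, 0 < n ∧ n ≤ N ∧ n • P = 0) ∨
      c * (Module.finrank ℚ K + ht (jj a b) + ∑ v ∈ S, Real.log (Nv v)) ≤ chat P

theorem Alt.mono {N N' : ℕ} {c c' : ℝ} {a b : K} (h : Alt N c a b) (hN : N ≤ N') (hc : c' ≤ c) :
    Alt N' c' a b := by
  intro S hS P
  rcases h S hS P with ⟨n, h1, h2, h3⟩ | h1
  · exact Or.inl ⟨n, h1, h2.trans hN, h3⟩
  · right
    refine le_trans (mul_le_mul_of_nonneg_right hc ?_) h1
    have h4 : 0 ≤ ∑ v ∈ S, Real.log (Nv v) := Finset.sum_nonneg fun v _ => (log_Nv_pos v).le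
    have h5 : 0 ≤ ht (jj a b) := ht_nonneg _
    positivity

end Defs

/-- **curves of large height** -/
theorem alt_large (D : ℕ) {η : ℝ} (hη : 0 < η) : ∃ (N : ℕ) (c B : ℝ), 0 < c ∧ 0 ≤ B ∧
    ∀ (K : Type) [Field K] [NumberField K] [DecidableEq K], Module.finrank ℚ K ≤ D →
    ∀ a b : K, dl a b ≠ 0 → η * polw a b ≤ bnw a b → B ≤ ht (jj a b) → Alt N c a b := by
  classical
  obtain ⟨N, c, A, hc, hA, hfam⟩ := familyH.{0} D hη
  have hl6 : 0 < Real.log 6 := Real.log_pos (by norm_num)
  refine ⟨4 * N, c / (8 * ((N : ℝ) + 1) ^ 2), (D + 1) * (A + 1 + Real.log 6), by positivity,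
    by positivity, ?_⟩
  intro K _ _ _ hK a b hD hon hB S hS P
  have hn : (0 : ℝ) < Module.finrank ℚ K := by exact_mod_cast Module.finrank_pos
  have hnD : (Module.finrank ℚ K : ℝ) ≤ D := by exact_mod_cast hK
  haveI hell : (sw a b).IsElliptic := sw_ell hD
  have hj : (sw a b).j = jj a b := sw_j hell
  obtain ⟨nK, hnK⟩ : ∃ nK : ℝ, nK = Module.finrank ℚ K := ⟨_, rfl⟩
  obtain ⟨H, hH⟩ : ∃ H : ℝ, H = ht (jj a b) := ⟨_, rfl⟩
  have hHn : nK * (A + 1 + Real.log 6) ≤ H := by
    rw [hH, hnK]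
    refine le_trans ?_ hB
    exact mul_le_mul_of_nonneg_right (by linarith) (by positivity)
  rw [← hnK] at hn
  have hlim : ∀ Q : SPt a b, Tendsto (fun n : ℕ =>
      Height.logHeight ((2 ^ n • Q).xRep) / (4 ^ n * Module.finrank ℚ K)) atTop
      (𝓝 (chat Q / nK)) := by
    intro Q
    have h := ((chat_spec (a := a) (b := b) hD).1 Q).div_const nK
    refine h.congr fun n => ?_
    rw [div_div, hnK]
    rfl
  -- the bad places outside six
  set S₆ := S.filter (fun v => fv v (6 : K) = 1) with hS₆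
  set F : Finset (FinitePlace K) := S₆.image (fun v => FinitePlace.mk v) with hF
  have hmk : ∀ v : Pr K, (FinitePlace.mk v).maximalIdeal = v := fun v =>
    FinitePlace.maximalIdeal_mk v
  have hinj : ∀ T : Finset (Pr K), Set.InjOn (fun v : Pr K => FinitePlace.mk v) (T : Set (Pr K)) := by
    intro T v _ v' _ h
    rw [← hmk v, ← hmk v']
    exact congrArg _ h
  have hFbad : ∀ v ∈ F, ¬ GoodRed v.val (sw a b) := by
    intro v hv
    rw [hF, Finset.mem_image] at hv
    obtain ⟨u, hu, rfl⟩ := hv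
    rw [hS₆, Finset.mem_filter] at hu
    exact bad_not_good hD u hu.2 (hS u hu.1)
  have hFsum : ∑ v ∈ F, Real.log (NF.Nm v) = ∑ v ∈ S₆, Real.log (Nv v) := by
    rw [hF, Finset.sum_image (hinj S₆)]
    refine Finset.sum_congr rfl fun v _ => ?_
    rw [nm_eq, hmk]
  have hSsum : ∑ v ∈ S, Real.log (Nv v) ≤ ∑ v ∈ S₆, Real.log (Nv v) + nK * Real.log 6 := by
    rw [← Finset.sum_filter_add_sum_filter_not S (fun v => fv v (6 : K) = 1)]
    refine add_le_add le_rfl ?_
    have h1 := sum_Nm_le (K := K) (m := 6) (by norm_num)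
      ((S.filter (fun v => ¬ fv v (6 : K) = 1)).image (fun v => FinitePlace.mk v)) (by
        intro v hv
        rw [Finset.mem_image] at hv
        obtain ⟨u, hu, rfl⟩ := hv
        have h2 := (Finset.mem_filter.1 hu).2
        intro h3
        apply h2
        have h4 : ((6 : ℕ) : K) = 6 := by norm_num
        rw [h4] at h3
        exact h3)
    rw [Finset.sum_image (hinj _), ← hnK] at h1
    refine le_trans (le_of_eq ?_) (h1.trans (le_of_eq ?_))
    · refine Finset.sum_congr rfl fun v _ => ?_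
      rw [nm_eq, hmk]
    · norm_num
  -- the places of the new kind
  set V₀ : Finset (Pr K) := (Fin_Bn hD).toFinset with hV₀
  have hV₀m : ∀ v, v ∈ V₀ ↔ Bn a b v := fun v => by
    rw [hV₀, Set.Finite.mem_toFinset]
    rfl
  set V : Finset (FinitePlace K) := V₀.image (fun v => FinitePlace.mk v) with hV
  have hVon : ∀ v ∈ V, Bn a b v.maximalIdeal := by
    intro v hv
    rw [hV, Finset.mem_image] at hv
    obtain ⟨u, hu, rfl⟩ := hv
    rw [hmk]
    exact (hV₀m u).1 hu
  have hVsum : ∑ v ∈ V, Real.log (v.val (sw a b).j) = bnw a b := by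
    rw [hV, Finset.sum_image (hinj V₀)]
    unfold bnw
    rw [finsum_eq_sum_of_support_subset (s := V₀)]
    · refine Finset.sum_congr rfl fun v hv => ?_
      rw [if_pos ((hV₀m v).1 hv), hj]
      rfl
    · intro v hv
      rw [Function.mem_support] at hv
      rw [Finset.mem_coe, hV₀m]
      by_contra hcon
      exact hv (if_neg hcon)
  have hF0 : 0 ≤ ∑ v ∈ S₆, Real.log (Nv v) := Finset.sum_nonneg fun v _ => (log_Nv_pos v).le
  have hH0 : 0 < H := lt_of_lt_of_le (by positivity) hHn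
  have hpole : ∀ v : FinitePlace K, v.val ((6 : ℕ) : K) = 1 → 1 < v.val (jj a b) →
      Pole a b v.maximalIdeal := by
    intro v h6 hjv
    have e2' : fv v.maximalIdeal (2 : K) ≤ 1 := (fv_Na v.maximalIdeal).ofNat 2
    have e3' : fv v.maximalIdeal (3 : K) ≤ 1 := (fv_Na v.maximalIdeal).ofNat 3
    have e6 : fv v.maximalIdeal (2 : K) * fv v.maximalIdeal (3 : K) = 1 := by
      rw [← map_mul, fv_max, ← h6]
      norm_num
    have p2 : 0 < fv v.maximalIdeal (2 : K) := (fv v.maximalIdeal).pos (by norm_num)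
    have p3 : 0 < fv v.maximalIdeal (3 : K) := (fv v.maximalIdeal).pos (by norm_num)
    have f2 : fv v.maximalIdeal (2 : K) = 1 := by
      apply le_antisymm e2'
      nlinarith
    have f3 : fv v.maximalIdeal (3 : K) = 1 := by
      apply le_antisymm e3'
      nlinarith
    refine pole_of hD f2 f3 ?_
    rw [fv_max]
    exact hjv
  have hmain : ∀ R : Fin N → SPt a b,
      (∀ i k, i ≠ k → ((2 : ℕ) • R i).xRep ≠ ((2 : ℕ) • R k).xRep) →
      ∃ i, c * (H + ∑ v ∈ S₆, Real.log (Nv v)) ≤ chat ((2 : ℕ) • R i) := by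
    intro R hR
    obtain ⟨i, hi⟩ := hfam K hK (sw a b) F V hFbad (fun v hv => by
        have h1 := hVon v hv
        have h2 := (h1.1.jj_eq hD).2
        rw [fv_max] at h2
        refine ⟨?_, by rw [hj]; exact h2⟩
        have h3 : ((6 : ℕ) : K) = 2 * 3 := by norm_num
        have h4 := h1.1.1
        have h5 := h1.1.2.1
        rw [fv_max] at h4 h5
        rw [h3, map_mul, h4, h5, one_mul]) (by
        intro T hT
        rw [hVsum]
        refine le_trans (mul_le_mul_of_nonneg_left ?_ hη.le) hon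
        have hinj2 : Set.InjOn (fun v : FinitePlace K => v.maximalIdeal) (T : Set (FinitePlace K)) := by
          intro v _ v' _ h
          rw [← FinitePlace.mk_maximalIdeal v, ← FinitePlace.mk_maximalIdeal v']
          exact congrArg _ h
        have h1 : ∑ v ∈ T, Real.log (v.val (sw a b).j) =
            ∑ v ∈ T.image (fun v => v.maximalIdeal),
              (if Pole a b v then Real.log (fv v (jj a b)) else 0) := by
          rw [Finset.sum_image hinj2]
          refine Finset.sum_congr rfl fun v hv => ?_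
          obtain ⟨h6, hjv⟩ := hT v hv
          rw [hj] at hjv
          rw [if_pos (hpole v h6 hjv), hj, fv_max]
        rw [h1]
        refine sum_le_fin _ (Fs_polw hD) fun v => ?_
        split_ifs with h2
        · exact Real.log_nonneg (h2.jj_eq hD).2.le
        · exact le_rfl) (by
        rw [hj, log_ht, ← hH, ← hnK, lt_div_iff₀ hn]
        have : 0 < nK * (1 + Real.log 6) := by positivity
        linarith) _ hlim (fun i => (2 : ℕ) • R i) hR (fun v hv w hw i k hik =>
          bn_pair hD v (hVon v hv) hw (R i) (R k) (wd_xRep (sw a b) (hR i k hik)))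
    refine ⟨i, ?_⟩
    rw [hj, log_ht, ← hH, ← hnK, hFsum, ← add_div, ← mul_div_assoc,
      div_le_div_iff_of_pos_right hn] at hi
    exact hi
  rcases of_fam hD (mul_pos hc (by linarith)) hmain P with h | h
  · exact Or.inl h
  · right
    rw [← hnK, ← hH, div_mul_eq_mul_div, div_le_iff₀ (by positivity)]
    have hchat : 0 ≤ chat P := (chat_spec (a := a) (b := b) hD).2.1 P
    have h1 : c * (nK + H + ∑ v ∈ S, Real.log (Nv v)) ≤
        c * (2 * (H + ∑ v ∈ S₆, Real.log (Nv v))) := by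
      apply mul_le_mul_of_nonneg_left _ hc.le
      have : 0 ≤ nK * A := by positivity
      linarith
    have h2 : 4 * (N : ℝ) ^ 2 * chat P ≤ 4 * ((N : ℝ) + 1) ^ 2 * chat P := by
      apply mul_le_mul_of_nonneg_right _ hchat
      nlinarith [Nat.cast_nonneg (α := ℝ) N]
    linarith

/-- **curves of bounded height** -/
theorem alt_small (K : Type) [Field K] [NumberField K] [DecidableEq K] (B : ℝ) :
    ∃ (N : ℕ) (c : ℝ), 0 < c ∧ ∀ a b : K, dl a b ≠ 0 → ht (jj a b) ≤ B → Alt N c a b := by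
  classical
  obtain ⟨c, hc, n, h⟩ := good_height (K := K) B
  have hn : (0 : ℝ) < Module.finrank ℚ K := by exact_mod_cast Module.finrank_pos
  obtain ⟨nK, hnK⟩ : ∃ nK : ℝ, nK = Module.finrank ℚ K := ⟨_, rfl⟩
  rw [← hnK] at hn
  refine ⟨n, c / (nK + 2 * |B| + 1), by positivity, ?_⟩
  intro a b hD hB S hS P
  have hjj : jinv a b = jj a b := rfl
  obtain ⟨h1, h2⟩ := h a b hD (by rw [hjj, log_ht]; exact hB)
  by_cases hP : IsOfFinAddOrder P
  · exact Or.inl ⟨addOrderOf P, hP.addOrderOf_pos, h1 P hP, addOrderOf_nsmul_eq_zero P⟩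
  right
  set S₁ := S.filter (fun v => ∀ u : K, fv v (dl a b) ≠ fv v u ^ 12) with hS₁
  have hram : Ram a b S₁ := by
    intro v hv u hu
    have h3 := (Finset.mem_filter.1 hv).2 u
    apply h3
    have e : v.valuation K (dl a b) = v.valuation K (u ^ 12) := by
      rw [map_pow]
      exact hu
    rw [← map_pow]
    have hval : ∀ x y : K, v.valuation K x = v.valuation K y → fv v x = fv v y := by
      intro x y hxy
      by_cases hx : x = 0
      · subst hx
        rw [map_zero] at hxy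
        have hy : y = 0 := by
          by_contra hy
          exact (Valuation.ne_zero_iff _).mpr hy hxy.symm
        rw [hy]
      · have hx1 : v.valuation K x ≠ 0 := (Valuation.ne_zero_iff _).mpr hx
        obtain ⟨m, hm⟩ : ∃ m : ℤ, v.valuation K x = WithZero.exp m :=
          ⟨WithZero.log (v.valuation K x), (WithZero.exp_log hx1).symm⟩
        rw [fv_exp v hm, fv_exp v (hxy ▸ hm)]
    exact hval _ _ e
  have h3 := h2 S₁ hram P hP
  have h4 : ∑ v ∈ S₁, Real.log (Ideal.absNorm v.asIdeal) = ∑ v ∈ S₁, Real.log (Nv v) := rfl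
  rw [h4] at h3
  have h5 : ∑ v ∈ S, Real.log (Nv v) ≤ ∑ v ∈ S₁, Real.log (Nv v) + ht (jj a b) := by
    rw [← Finset.sum_filter_add_sum_filter_not S (fun v => ∀ u : K, fv v (dl a b) ≠ fv v u ^ 12)]
    refine add_le_add le_rfl (le_trans (Finset.sum_le_sum fun v hv => ?_) (sum_max_le (jj a b) _))
    obtain ⟨h6, h7⟩ := Finset.mem_filter.1 hv
    have h8 : 1 < fv v (jj a b) := (hS v h6).resolve_left h7
    have hj0 : jj a b ≠ 0 := by
      intro h0
      rw [h0, map_zero] at h8
      linarith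
    obtain ⟨m, hm⟩ := fv_zpow v hj0
    have hm1 : 1 ≤ m := by
      by_contra hcon
      push Not at hcon
      rw [hm] at h8
      exact absurd h8 (not_lt.2 (zpow_le_one_of_nonpos₀ (Nv_one_lt v).le (by omega)))
    apply Real.log_le_log (Nv_pos v)
    rw [max_eq_left h8.le, hm]
    calc Nv v = (Nv v) ^ (1 : ℤ) := (zpow_one _).symm
      _ ≤ _ := zpow_le_zpow_right₀ (Nv_one_lt v).le hm1
  have h6 : 0 ≤ ∑ v ∈ S₁, Real.log (Nv v) := Finset.sum_nonneg fun v _ => (log_Nv_pos v).le
  have h7 : B ≤ |B| := le_abs_self B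
  have h8 : 0 ≤ |B| := abs_nonneg B
  rw [← hnK, div_mul_eq_mul_div, div_le_iff₀ (by positivity)]
  have h9 : nK + ht (jj a b) + ∑ v ∈ S, Real.log (Nv v) ≤
      (1 + ∑ v ∈ S₁, Real.log (Nv v)) * (nK + 2 * |B| + 1) := by
    nlinarith
  calc c * (nK + ht (jj a b) + ∑ v ∈ S, Real.log (Nv v))
      ≤ c * ((1 + ∑ v ∈ S₁, Real.log (Nv v)) * (nK + 2 * |B| + 1)) :=
        mul_le_mul_of_nonneg_left h9 hc.le
    _ = c * (1 + ∑ v ∈ S₁, Real.log (Nv v)) * (nK + 2 * |B| + 1) := by ring
    _ ≤ chat P * (nK + 2 * |B| + 1) := mul_le_mul_of_nonneg_right h3 (by positivity)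

/-- **all curves over one field** -/
theorem alt_all (K : Type) [Field K] [NumberField K] [DecidableEq K] {η : ℝ} (hη : 0 < η) :
    ∃ (N : ℕ) (c : ℝ), 0 < c ∧ ∀ a b : K, dl a b ≠ 0 → η * polw a b ≤ bnw a b →
      Alt N c a b := by
  obtain ⟨N₁, c₁, B, hc₁, -, h1⟩ := alt_large (Module.finrank ℚ K) hη
  obtain ⟨N₂, c₂, hc₂, h2⟩ := alt_small K B
  refine ⟨max N₁ N₂, min c₁ c₂, lt_min hc₁ hc₂, fun a b hD hw => ?_⟩
  rcases le_total B (ht (jj a b)) with h | h
  · exact (h1 K le_rfl a b hD hw h).mono (le_max_left _ _) (min_le_left _ _)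
  · exact (h2 a b hD h).mono (le_max_right _ _) (min_le_right _ _)

open Pool.Agent.TH876.FH (IsPeriod arch) in
/-- **the strong form for the powers of the curve** -/
theorem alt_strong : ∃ C : ℝ, 0 < C ∧ ∀ (K : Type) [Field K] [NumberField K] [DecidableEq K]
    (a b : K) (N : ℕ) (c : ℝ), dl a b ≠ 0 → 0 < c → Alt N c a b →
    ∀ (g : ℕ) (M : Matrix (Fin g) (Fin g) ℤ), (M.map (Int.cast : ℤ → ℝ)).PosDef →
    ∀ P : Fin g → SPt a b, (∃ n : ℕ, 0 < n ∧ n ≤ N.factorial ∧ n • P = 0) ∨
      ((∀ τ : InfinitePlace K → UpperHalfPlane, IsPeriod (jj a b) τ →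
        c / C * (Pool.Agent.Y733.FF.discSum (sw a b) +
          ∑ w : InfinitePlace K, (w.mult : ℝ) * arch (τ w)) ≤ chatM M P) ∧
      c * (Module.finrank ℚ K + ht (jj a b)) ≤ chatM M P) := by
  classical
  obtain ⟨C, hC, hfal⟩ := Pool.Agent.Y733.FF.fal_le
  refine ⟨10 + C, by positivity, ?_⟩
  intro K _ _ _ a b N c hD hc h g M hM P
  have hn : (0 : ℝ) < Module.finrank ℚ K := by exact_mod_cast Module.finrank_pos
  have hH : 0 ≤ ht (jj a b) := ht_nonneg _
  have hpos : ∀ S : Finset (Pr K), 0 < c * (Module.finrank ℚ K + ht (jj a b) +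
      ∑ v ∈ S, Real.log (Nv v)) := by
    intro S
    have : 0 ≤ ∑ v ∈ S, Real.log (Nv v) := Finset.sum_nonneg fun v _ => (log_Nv_pos v).le
    positivity
  by_cases hP : IsOfFinAddOrder P
  · left
    refine ⟨N.factorial, Nat.factorial_pos _, le_rfl, ?_⟩
    funext i
    rw [Pi.smul_apply, Pi.zero_apply]
    have hi : IsOfFinAddOrder (P i) := by
      rw [isOfFinAddOrder_iff_nsmul_eq_zero] at hP ⊢
      obtain ⟨m, hm, hm'⟩ := hP
      refine ⟨m, hm, ?_⟩
      have := congrFun hm' i
      simpa using this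
    rcases h ∅ (by simp) (P i) with h1 | h1
    · obtain ⟨m, hm0, hmN, hm⟩ := h1
      obtain ⟨q, hq⟩ := Nat.dvd_factorial hm0 hmN
      rw [hq, mul_comm, mul_smul, hm, smul_zero]
    · rw [tors_zero hD hi] at h1
      exact absurd (hpos ∅) (not_lt.2 h1)
  · right
    obtain ⟨Q, -, hQ, hQM⟩ := reduction (a := a) (b := b) hD M hM P hP
    have hQ0 : ¬ ∃ n : ℕ, 0 < n ∧ n ≤ N ∧ n • Q = 0 := by
      rintro ⟨n, hn0, -, hnQ⟩
      exact hQ (isOfFinAddOrder_iff_nsmul_eq_zero.2 ⟨n, hn0, hnQ⟩)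
    have key : ∀ S : Finset (Pr K), (∀ v ∈ S, BadAt a b v) →
        c * (Module.finrank ℚ K + ht (jj a b) + ∑ v ∈ S, Real.log (Nv v)) ≤ chatM M P := by
      intro S hS
      exact ((h S hS Q).resolve_left hQ0).trans hQM
    have h10 : 0 < 10 + C := by positivity
    constructor
    · intro τ hτ
      obtain ⟨S, hS, h1⟩ := hfal K _ _ τ hD hτ
      refine le_trans ?_ (key S hS)
      have h4 : 0 ≤ ∑ v ∈ S, Real.log (Nv v) := Finset.sum_nonneg fun v _ => (log_Nv_pos v).le
      rw [div_mul_eq_mul_div, div_le_iff₀ h10, mul_assoc]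
      apply mul_le_mul_of_nonneg_left _ hc.le
      nlinarith
    · have h2 := key ∅ (by simp)
      rw [Finset.sum_empty, add_zero] at h2
      exact h2

end Pool.Agent.D0H55.ON
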