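import Mathlib
import Pool.Agent.D0H55.ON.PosF
import Pool.Agent.D0H55.ON.PosI

/-!
# Pairs of twists: at least one of them has at least one half of the poles
-/

set_option autoImplicit false
set_option linter.unusedSectionVars false

open NumberField IsDedekindDomain Finset Pool.Agent.H691R3 Pool.Agent.W223.AK
open Pool.Agent.Y733.LS Pool.Agent.Y733.UD Pool.Agent.TH942 Pool.Agent.TH910.LS

namespace Pool.Agent.D0H55.ON

variable {K : Type} [Field K] [NumberField K]

theorem Pole.twist {a b d : K} (hd : d ≠ 0) {v : Pr K} (h : Pole a b v) :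
    Pole (a * d ^ 2) (b * d ^ 3) v := by
  obtain ⟨h2, h3, h4, h5⟩ := h
  have hdp : 0 < fv v d := (fv v).pos hd
  refine ⟨h2, h3, ?_, ?_⟩
  · rw [map_mul, map_mul, map_pow, map_pow, mul_pow, mul_pow, h4]
    ring
  · rw [dl_twist, map_mul, map_mul, map_pow, map_pow]
    have h7 := mul_lt_mul_of_pos_right h5 (pow_pos hdp 6)
    calc fv v (dl a b) * fv v d ^ 6 < fv v b ^ 2 * fv v d ^ 6 := h7
      _ = _ := by ring

/-- `e` is no square in `K_v` -/
def Sep (e : K) (v : Pr K) : Prop := ∀ z : K, fv v e ≤ fv v (z ^ 2 - e)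

/-- one of two twists has no split multiplicative reduction -/
theorem bn_or {a b d e : K} (hd : d ≠ 0) (he : e ≠ 0) {v : Pr K}
    (h : Pole a b v) (hs : Sep e v) :
    Bn (a * d ^ 2) (b * d ^ 3) v ∨ Bn (a * (d * e) ^ 2) (b * (d * e) ^ 3) v := by
  obtain ⟨ha, hb⟩ := h.ne
  by_contra hcon
  push Not at hcon
  obtain ⟨c1, c2⟩ := hcon
  set m := 2 * (a * d ^ 2 * (b * d ^ 3)) with hm
  have hm2 : 2 * (a * (d * e) ^ 2 * (b * (d * e) ^ 3)) = m * e ^ 5 := by
    rw [hm]; ring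
  have g1 : ∃ z : K, fv v (z ^ 2 + m) < fv v m := by
    by_contra hc
    push Not at hc
    exact c1 ⟨h.twist hd, hc⟩
  have g2 : ∃ z : K, fv v (z ^ 2 + m * e ^ 5) < fv v (m * e ^ 5) := by
    by_contra hc
    push Not at hc
    refine c2 ⟨h.twist (mul_ne_zero hd he), fun z => ?_⟩
    rw [hm2]
    exact hc z
  obtain ⟨z, hz⟩ := g1
  obtain ⟨z', hz'⟩ := g2
  have hm0 : m ≠ 0 := by
    rw [hm]
    exact mul_ne_zero (by norm_num) (mul_ne_zero (mul_ne_zero ha (pow_ne_zero 2 hd))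
      (mul_ne_zero hb (pow_ne_zero 3 hd)))
  have hmp : 0 < fv v m := (fv v).pos hm0
  have hep : 0 < fv v e := (fv v).pos he
  have hz2 : fv v z ^ 2 = fv v m := by
    have e1 : z ^ 2 = -m + (z ^ 2 + m) := by ring
    rw [← map_pow, e1, (fv_Na v).eq, map_neg_eq_map]
    rw [map_neg_eq_map]
    exact hz
  have hz0 : z ≠ 0 := by
    rintro rfl
    rw [map_zero, zero_pow two_ne_zero] at hz2
    linarith
  have h5 := hs (z' / (z * e ^ 2))
  have e2 : (z' / (z * e ^ 2)) ^ 2 - e =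
      ((z' ^ 2 + m * e ^ 5) - e ^ 5 * (z ^ 2 + m)) / (z ^ 2 * e ^ 4) := by
    field_simp
    ring
  have e3 : fv v (z ^ 2 * e ^ 4) = fv v m * fv v e ^ 4 := by
    rw [map_mul, map_pow, map_pow, hz2]
  have h6 : fv v ((z' ^ 2 + m * e ^ 5) - e ^ 5 * (z ^ 2 + m)) < fv v m * fv v e ^ 5 := by
    apply (fv_Na v).lt_sub
    · rw [← map_pow, ← map_mul]
      exact hz'
    · rw [map_mul, map_pow, mul_comm]
      exact mul_lt_mul_of_pos_right hz (pow_pos hep 5)
  rw [e2, map_div₀, e3, le_div_iff₀ (by positivity)] at h5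
  have e4 : fv v e * (fv v m * fv v e ^ 4) = fv v m * fv v e ^ 5 := by ring
  rw [e4] at h5
  exact absurd h6 (not_lt.2 h5)

open Classical in
theorem polw_twist {a b d : K} (hd : d ≠ 0) : polw (a * d ^ 2) (b * d ^ 3) = polw a b := by
  unfold polw
  refine finsum_congr fun v => ?_
  rw [jj_twist hd]
  have hiff : Pole (a * d ^ 2) (b * d ^ 3) v ↔ Pole a b v := by
    constructor
    · intro h
      have h1 := h.twist (d := d⁻¹) (inv_ne_zero hd)
      have e1 : a * d ^ 2 * d⁻¹ ^ 2 = a := by field_simp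
      have e2 : b * d ^ 3 * d⁻¹ ^ 3 = b := by field_simp
      rw [e1, e2] at h1
      exact h1
    · exact fun h => h.twist hd
  simp only [hiff]

/-- **of two twists at least one has at least one half of the poles** -/
theorem bn_pair_le {a b d e : K} (hD : dl a b ≠ 0) (hd : d ≠ 0) (he : e ≠ 0)
    (hs : ∀ v, Pole a b v → Sep e v) :
    polw a b ≤ bnw (a * d ^ 2) (b * d ^ 3) + bnw (a * (d * e) ^ 2) (b * (d * e) ^ 3) := by
  classical
  have hD1 : dl (a * d ^ 2) (b * d ^ 3) ≠ 0 := by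
    rw [dl_twist]; exact mul_ne_zero hD (pow_ne_zero 6 hd)
  have hde : d * e ≠ 0 := mul_ne_zero hd he
  have hD2 : dl (a * (d * e) ^ 2) (b * (d * e) ^ 3) ≠ 0 := by
    rw [dl_twist]; exact mul_ne_zero hD (pow_ne_zero 6 hde)
  have hs1 := Fs_bnw hD1
  have hs2 := Fs_bnw hD2
  have hs0 := Fs_polw hD
  unfold polw bnw
  rw [← finsum_add_distrib hs1 hs2]
  set S : Finset (Pr K) := hs0.toFinset ∪ (hs1.toFinset ∪ hs2.toFinset) with hS
  rw [finsum_eq_sum_of_support_subset (s := S) _ (by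
      intro v hv
      rw [hS, Finset.coe_union]
      left
      rwa [Set.Finite.coe_toFinset]),
    finsum_eq_sum_of_support_subset (s := S) _ (by
      intro v hv
      rw [hS, Finset.coe_union]
      right
      have h5 := Function.support_add _ _ hv
      rw [Finset.coe_union, Set.Finite.coe_toFinset, Set.Finite.coe_toFinset]
      exact h5)]
  refine Finset.sum_le_sum fun v _ => ?_
  have hj1 : jj (a * d ^ 2) (b * d ^ 3) = jj a b := jj_twist hd
  have hj2 : jj (a * (d * e) ^ 2) (b * (d * e) ^ 3) = jj a b := jj_twist hde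
  have n1 : 0 ≤ (if Bn (a * d ^ 2) (b * d ^ 3) v then
      Real.log (fv v (jj (a * d ^ 2) (b * d ^ 3))) else 0) := by
    split_ifs with h1
    · exact Real.log_nonneg (h1.1.jj_eq hD1).2.le
    · exact le_rfl
  have n2 : 0 ≤ (if Bn (a * (d * e) ^ 2) (b * (d * e) ^ 3) v then
      Real.log (fv v (jj (a * (d * e) ^ 2) (b * (d * e) ^ 3))) else 0) := by
    split_ifs with h1
    · exact Real.log_nonneg (h1.1.jj_eq hD2).2.le
    · exact le_rfl
  show (if Pole a b v then Real.log (fv v (jj a b)) else 0) ≤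
    (if Bn (a * d ^ 2) (b * d ^ 3) v then Real.log (fv v (jj (a * d ^ 2) (b * d ^ 3))) else 0) +
    (if Bn (a * (d * e) ^ 2) (b * (d * e) ^ 3) v then
      Real.log (fv v (jj (a * (d * e) ^ 2) (b * (d * e) ^ 3))) else 0)
  by_cases h : Pole a b v
  · rw [if_pos h]
    rcases bn_or hd he h (hs v h) with h1 | h1
    · rw [if_pos h1, hj1]
      linarith
    · rw [if_pos h1, hj2]
      linarith
  · rw [if_neg h]
    linarith

/-- **an element of odd valuation at all poles** -/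
theorem exists_sep {a b : K} (hD : dl a b ≠ 0) :
    ∃ e : K, e ≠ 0 ∧ ∀ v, Pole a b v → Sep e v := by
  classical
  set S : Finset (Pr K) := (Fin_Pole hD).toFinset with hS
  have hmem : ∀ v, v ∈ S ↔ Pole a b v := fun v => by
    rw [hS, Set.Finite.mem_toFinset]
    rfl
  by_cases hne : S.Nonempty
  · have hloc : ∀ v : Pr K, ∃ ρ : 𝓞 K, fv v (ρ : K) = (Nv v) ^ (-1 : ℤ) := by
      intro v
      obtain ⟨π, hπ⟩ := v.intValuation_exists_uniformizer
      refine ⟨π, fv_exp v ?_⟩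
      have h3 : v.valuation K (π : K) = v.intValuation π := v.valuation_of_algebraMap π
      rw [h3, hπ]
    choose ρ hρ using hloc
    obtain ⟨e, he⟩ := IsDedekindDomain.exists_forall_sub_mem_ideal (s := S)
      (fun v : Pr K => v.asIdeal) (fun _ => 2) (fun v _ => v.prime)
      (fun v _ v' _ hne h => hne (HeightOneSpectrum.ext h)) (fun v => ρ v.1)
    have hval : ∀ v ∈ S, fv v (e : K) = (Nv v) ^ (-1 : ℤ) := by
      intro v hv
      have h3 := fv_sq v _ (he v hv)
      have e1 : (e : K) = (ρ v : K) + ((e - ρ v : 𝓞 K) : K) := by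
        push_cast
        ring
      rw [e1, (fv_Na v).eq, hρ]
      rw [hρ]
      refine h3.trans_lt ?_
      exact zpow_lt_zpow_right₀ (Nv_one_lt v) (by norm_num)
    obtain ⟨v₀, hv₀⟩ := hne
    have he0 : (e : K) ≠ 0 := by
      intro h0
      have h1 := hval v₀ hv₀
      rw [h0, map_zero] at h1
      have := zpow_pos (Nv_pos v₀) (-1 : ℤ)
      linarith
    refine ⟨e, he0, fun v hv => ns_of_odd (fv_Na v) ?_⟩
    exact (par_iff v (hval v ((hmem v).2 hv))).2 (by decide)
  · refine ⟨1, one_ne_zero, fun v hv => ?_⟩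
    exact absurd ⟨v, (hmem v).2 hv⟩ hne

variable [DecidableEq K]

/-- **at least one of two twists** -/
theorem half (K : Type) [Field K] [NumberField K] [DecidableEq K] :
    ∃ (N : ℕ) (c : ℝ), 0 < c ∧ ∀ a b : K, dl a b ≠ 0 → ∀ e : K, e ≠ 0 →
      (∀ v, Pole a b v → Sep e v) → ∀ d : K, d ≠ 0 →
      Alt N c (a * d ^ 2) (b * d ^ 3) ∨ Alt N c (a * (d * e) ^ 2) (b * (d * e) ^ 3) := by
  obtain ⟨N, c, hc, h⟩ := alt_all K (η := 1 / 2) (by norm_num)
  refine ⟨N, c, hc, fun a b hD e he hs d hd => ?_⟩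
  have hde : d * e ≠ 0 := mul_ne_zero hd he
  have hD1 : dl (a * d ^ 2) (b * d ^ 3) ≠ 0 := by
    rw [dl_twist]; exact mul_ne_zero hD (pow_ne_zero 6 hd)
  have hD2 : dl (a * (d * e) ^ 2) (b * (d * e) ^ 3) ≠ 0 := by
    rw [dl_twist]; exact mul_ne_zero hD (pow_ne_zero 6 hde)
  have h1 := bn_pair_le hD hd he hs
  rcases le_total (1 / 2 * polw a b) (bnw (a * d ^ 2) (b * d ^ 3)) with h2 | h2
  · left
    exact h _ _ hD1 (by rw [polw_twist hd]; exact h2)
  · right
    refine h _ _ hD2 ?_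
    rw [polw_twist hde]
    linarith

/-- **at least one of two twists, with constants which depend on the degree only** -/
theorem half_large (D : ℕ) : ∃ (N : ℕ) (c B : ℝ), 0 < c ∧
    ∀ (K : Type) [Field K] [NumberField K] [DecidableEq K], Module.finrank ℚ K ≤ D →
      ∀ a b : K, dl a b ≠ 0 → B ≤ ht (jj a b) → ∀ e : K, e ≠ 0 →
      (∀ v, Pole a b v → Sep e v) → ∀ d : K, d ≠ 0 →
      Alt N c (a * d ^ 2) (b * d ^ 3) ∨ Alt N c (a * (d * e) ^ 2) (b * (d * e) ^ 3) := by
  obtain ⟨N, c, B, hc, -, h⟩ := alt_large D (η := 1 / 2) (by norm_num)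
  refine ⟨N, c, B, hc, fun K _ _ _ hK a b hD hB e he hs d hd => ?_⟩
  have hde : d * e ≠ 0 := mul_ne_zero hd he
  have hD1 : dl (a * d ^ 2) (b * d ^ 3) ≠ 0 := by
    rw [dl_twist]; exact mul_ne_zero hD (pow_ne_zero 6 hd)
  have hD2 : dl (a * (d * e) ^ 2) (b * (d * e) ^ 3) ≠ 0 := by
    rw [dl_twist]; exact mul_ne_zero hD (pow_ne_zero 6 hde)
  have h1 := bn_pair_le hD hd he hs
  rcases le_total (1 / 2 * polw a b) (bnw (a * d ^ 2) (b * d ^ 3)) with h2 | h2
  · left
    exact h K hK _ _ hD1 (by rw [polw_twist hd]; exact h2) (by rw [jj_twist hd]; exact hB)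
  · right
    refine h K hK _ _ hD2 ?_ (by rw [jj_twist hde]; exact hB)
    rw [polw_twist hde]
    linarith

end Pool.Agent.D0H55.ON
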