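import Mathlib
import Pool.Agent.D0H55.ON.PosJ

/-!
# Four square classes at all poles
-/

set_option autoImplicit false
set_option linter.unusedSectionVars false

open NumberField IsDedekindDomain Finset Pool.Agent.H691R3 Pool.Agent.W223.AK
open Pool.Agent.Y733.LS Pool.Agent.Y733.UD Pool.Agent.TH942 Pool.Agent.TH910.LS

namespace Pool.Agent.D0H55.ON

variable {K : Type} [Field K] [NumberField K]

theorem Sep.of_mul_sq {x y : K} (hy : y ≠ 0) {v : Pr K} (h : Sep (x * y ^ 2) v) : Sep x v := by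
  intro z
  have h1 := h (z * y)
  have e : (z * y) ^ 2 - x * y ^ 2 = (z ^ 2 - x) * y ^ 2 := by ring
  rw [e, map_mul, map_mul, map_pow] at h1
  exact le_of_mul_le_mul_right h1 (pow_pos ((fv v).pos hy) 2)

theorem Sep.mul_sq {x y : K} (hy : y ≠ 0) {v : Pr K} (h : Sep x v) : Sep (x * y ^ 2) v := by
  apply Sep.of_mul_sq (y := y⁻¹) (inv_ne_zero hy)
  have e : x * y ^ 2 * y⁻¹ ^ 2 = x := by field_simp
  rw [e]
  exact h

/-- an integer which is no square modulo `v` -/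
theorem exists_ns (v : Pr K) (h2 : fv v 2 = 1) : ∃ α : 𝓞 K, fv v (α : K) = 1 ∧ Sep (α : K) v := by
  classical
  have hmax : v.asIdeal.IsMaximal := v.isMaximal
  let _ : Field (𝓞 K ⧸ v.asIdeal) := Ideal.Quotient.field _
  have hfin : Finite (𝓞 K ⧸ v.asIdeal) := Ideal.finiteQuotientOfFreeOfNeBot _ v.ne_bot
  have hchar : ringChar (𝓞 K ⧸ v.asIdeal) ≠ 2 := by
    intro h
    have h3 : ((2 : ℕ) : 𝓞 K ⧸ v.asIdeal) = 0 := by
      rw [ringChar.spec, h]
    have h4 : Ideal.Quotient.mk v.asIdeal ((2 : ℕ) : 𝓞 K) = 0 := by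
      rw [map_natCast]
      exact h3
    rw [Ideal.Quotient.eq_zero_iff_mem, ← HeightOneSpectrum.valuation_lt_one_iff_mem (K := K),
      ← fv_lt_one_iff] at h4
    have h5 : algebraMap (𝓞 K) K ((2 : ℕ) : 𝓞 K) = 2 := by
      rw [map_natCast]
      norm_num
    change fv v (algebraMap (𝓞 K) K ((2 : ℕ) : 𝓞 K)) < 1 at h4
    rw [h5, h2] at h4
    exact lt_irrefl _ h4
  obtain ⟨c, hc⟩ := FiniteField.exists_nonsquare hchar
  obtain ⟨α, rfl⟩ := Ideal.Quotient.mk_surjective c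
  have hα : fv v (α : K) = 1 := by
    apply le_antisymm ((fv_le_one_iff' v _).2 (v.valuation_le_one α))
    by_contra hcon
    push Not at hcon
    have h6 : α ∈ v.asIdeal := by
      rw [← HeightOneSpectrum.valuation_lt_one_iff_mem (K := K), ← fv_lt_one_iff]
      exact hcon
    apply hc
    rw [Ideal.Quotient.eq_zero_iff_mem.2 h6]
    exact ⟨0, by simp⟩
  refine ⟨α, hα, fun z => ?_⟩
  by_contra hcon
  push Not at hcon
  have hz : fv v z ≤ 1 := by
    have e : z ^ 2 = (α : K) + (z ^ 2 - (α : K)) := by ring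
    have h7 : fv v z ^ 2 = 1 := by
      rw [← map_pow, e, (fv_Na v).eq hcon, hα]
    nlinarith [(fv v).nonneg z]
  obtain ⟨β, hβ⟩ := approx v z hz
  apply hc
  refine ⟨Ideal.Quotient.mk v.asIdeal β, ?_⟩
  rw [← map_mul, eq_comm, ← sub_eq_zero, ← map_sub, Ideal.Quotient.eq_zero_iff_mem,
    ← HeightOneSpectrum.valuation_lt_one_iff_mem (K := K), ← fv_lt_one_iff]
  have e : algebraMap (𝓞 K) K (β * β - α) =
      ((β : K) - z) * ((β : K) + z) + (z ^ 2 - (α : K)) := by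
    rw [map_sub, map_mul]
    ring
  change fv v (algebraMap (𝓞 K) K (β * β - α)) < 1
  rw [e]
  rw [hα] at hcon
  apply (fv_Na v).lt_add _ hcon
  rw [map_mul]
  have h1 : fv v ((β : K) + z) ≤ 1 :=
    (fv_Na v).le_add ((fv_le_one_iff' v _).2 (v.valuation_le_one β)) hz
  have h3 := (fv v).nonneg ((β : K) - z)
  have h4 := (fv v).nonneg ((β : K) + z)
  nlinarith

/-- **elements of four square classes at all poles** -/
theorem exists_four {a b : K} (hD : dl a b ≠ 0) (hex : ∃ v, Pole a b v) :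
    ∃ e f : K, e ≠ 0 ∧ f ≠ 0 ∧ ∀ v, Pole a b v → Sep e v ∧ Sep f v ∧ Sep (e * f) v := by
  classical
  set S : Finset (Pr K) := (Fin_Pole hD).toFinset with hS
  have hmem : ∀ v, v ∈ S ↔ Pole a b v := fun v => by
    rw [hS, Set.Finite.mem_toFinset]
    rfl
  obtain ⟨v₀, hv₀⟩ := hex
  have hv₀S := (hmem v₀).2 hv₀
  have hloc : ∀ v : Pr K, ∃ ρ : 𝓞 K, fv v (ρ : K) = (Nv v) ^ (-1 : ℤ) := by
    intro v
    obtain ⟨π, hπ⟩ := v.intValuation_exists_uniformizer
    refine ⟨π, fv_exp v ?_⟩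
    have h3 : v.valuation K (π : K) = v.intValuation π := v.valuation_of_algebraMap π
    rw [h3, hπ]
  choose ρ hρ using hloc
  have hloc2 : ∀ v : Pr K, ∃ α : 𝓞 K, fv v 2 = 1 → fv v (α : K) = 1 ∧ Sep (α : K) v := by
    intro v
    by_cases h : fv v 2 = 1
    · obtain ⟨α, hα⟩ := exists_ns v h
      exact ⟨α, fun _ => hα⟩
    · exact ⟨0, fun h' => absurd h' h⟩
  choose α hα using hloc2
  obtain ⟨f, hf⟩ := IsDedekindDomain.exists_forall_sub_mem_ideal (s := S)
    (fun v : Pr K => v.asIdeal) (fun _ => 2) (fun v _ => v.prime)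
    (fun v _ v' _ hne h => hne (HeightOneSpectrum.ext h)) (fun v => ρ v.1)
  obtain ⟨e, he⟩ := IsDedekindDomain.exists_forall_sub_mem_ideal (s := S)
    (fun v : Pr K => v.asIdeal) (fun _ => 2) (fun v _ => v.prime)
    (fun v _ v' _ hne h => hne (HeightOneSpectrum.ext h)) (fun v => α v.1)
  have hNv : ∀ v : Pr K, (Nv v) ^ (-2 : ℤ) < 1 := fun v => by
    rw [← zpow_zero (Nv v)]
    exact zpow_lt_zpow_right₀ (Nv_one_lt v) (by norm_num)
  have hfv : ∀ v ∈ S, fv v (f : K) = (Nv v) ^ (-1 : ℤ) := by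
    intro v hv
    have h3 := fv_sq v _ (hf v hv)
    have e1 : (f : K) = (ρ v : K) + ((f - ρ v : 𝓞 K) : K) := by
      push_cast
      ring
    rw [e1, (fv_Na v).eq, hρ]
    rw [hρ]
    refine h3.trans_lt ?_
    exact zpow_lt_zpow_right₀ (Nv_one_lt v) (by norm_num)
  have hev : ∀ v ∈ S, fv v (e : K) = 1 ∧ Sep (e : K) v := by
    intro v hv
    obtain ⟨h1, h2⟩ := hα v ((hmem v).1 hv).1
    have h3 := (fv_sq v _ (he v hv)).trans_lt (hNv v)
    have e1 : (e : K) = (α v : K) + ((e - α v : 𝓞 K) : K) := by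
      push_cast
      ring
    have h4 : fv v (e : K) = 1 := by
      rw [e1, (fv_Na v).eq, h1]
      rw [h1]
      exact h3
    refine ⟨h4, fun z => ?_⟩
    by_contra hcon
    push Not at hcon
    rw [h4] at hcon
    have h5 := h2 z
    rw [h1] at h5
    have e2 : z ^ 2 - (α v : K) = (z ^ 2 - (e : K)) + ((e - α v : 𝓞 K) : K) := by
      push_cast
      ring
    have h6 : fv v (z ^ 2 - (α v : K)) < 1 := by
      rw [e2]
      exact (fv_Na v).lt_add hcon h3
    linarith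
  have hodd : ∀ v ∈ S, ∀ x : K, fv v x = (Nv v) ^ (-1 : ℤ) → Sep x v := fun v _ x hx =>
    ns_of_odd (fv_Na v) ((par_iff v hx).2 (by decide))
  have he0 : (e : K) ≠ 0 := by
    intro h0
    have h1 := (hev v₀ hv₀S).1
    rw [h0, map_zero] at h1
    exact zero_ne_one h1
  have hf0 : (f : K) ≠ 0 := by
    intro h0
    have h1 := hfv v₀ hv₀S
    rw [h0, map_zero] at h1
    have := zpow_pos (Nv_pos v₀) (-1 : ℤ)
    linarith
  refine ⟨e, f, he0, hf0, fun v hv => ?_⟩
  have hvS := (hmem v).2 hv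
  refine ⟨(hev v hvS).2, hodd v hvS _ (hfv v hvS), hodd v hvS _ ?_⟩
  rw [map_mul, (hev v hvS).1, one_mul, hfv v hvS]

end Pool.Agent.D0H55.ON
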